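import Pool.Agent.K7.H96.AT.Lower

set_option autoImplicit false

/-!
# The overlap function `Γ`
-/

open MeasureTheory ProbabilityTheory Set Filter Topology

namespace Pool.Agent.K7.H96.AT

/-- derivative along the diagonal -/
lemma hasDerivAt_diag {Ψ Ψa Ψb : ℝ → ℝ → ℝ} {r : ℝ}
    (h1 : ∀ᶠ p : ℝ × ℝ in 𝓝 (r, r), HasDerivAt (fun a => Ψ a p.2) (Ψa p.1 p.2) p.1)
    (h2 : ∀ᶠ p : ℝ × ℝ in 𝓝 (r, r), HasDerivAt (fun b => Ψ p.1 b) (Ψb p.1 p.2) p.2)
    (c1 : ContinuousAt (fun p : ℝ × ℝ => Ψa p.1 p.2) (r, r))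
    (c2 : ContinuousAt (fun p : ℝ × ℝ => Ψb p.1 p.2) (r, r)) :
    HasDerivAt (fun r => Ψ r r) (Ψa r r + Ψb r r) r := by
  have h := hasStrictFDerivAt_uncurry_coprod (𝕜 := ℝ) (u := ((r, r) : ℝ × ℝ)) (f := Ψ)
    (f₁ := fun a b => ContinuousLinearMap.toSpanSingleton ℝ (Ψa a b))
    (f₂ := fun a b => ContinuousLinearMap.toSpanSingleton ℝ (Ψb a b))
    (h1.mono fun p hp => hp.hasFDerivAt) (h2.mono fun p hp => hp.hasFDerivAt)
    ((ContinuousLinearMap.toSpanSingletonCLE (𝕜 := ℝ) (E := ℝ)).continuous.continuousAt.comp c1)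
    ((ContinuousLinearMap.toSpanSingletonCLE (𝕜 := ℝ) (E := ℝ)).continuous.continuousAt.comp c2)
  have h3 : HasDerivAt (fun r : ℝ => (r, r)) ((1 : ℝ), (1 : ℝ)) r :=
    (hasDerivAt_id r).prodMk (hasDerivAt_id r)
  have h4 := HasFDerivAt.comp_hasDerivAt (f := fun r : ℝ => (r, r)) r h.hasFDerivAt h3
  simpa [Function.comp_def, Function.HasUncurry.uncurry] using h4

/-- strict positivity of Gaussian averages -/
lemma G_pos_of_ne {F : ℝ → ℝ} (hF : EG F) (h0 : ∀ y, 0 ≤ F y) {y₀ : ℝ} (hy : F y₀ ≠ 0) (x : ℝ)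
    {v : ℝ} (hv : 0 < v) : 0 < G F x v := by
  have hs : 0 < √v := Real.sqrt_pos.2 hv
  unfold G
  rw [integral_pos_iff_support_of_nonneg (fun z => h0 _) (hF.integrable_shift x v)]
  have ho : IsOpen (Function.support fun z => F (x + √v * z)) :=
    isOpen_ne_fun (hF.shift x v).cont continuous_const
  have hne : (Function.support fun z => F (x + √v * z)).Nonempty := by
    refine ⟨(y₀ - x) / √v, ?_⟩
    simp only [Function.mem_support]
    have : x + √v * ((y₀ - x) / √v) = y₀ := by field_simp; ring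
    rwa [this]
  have h1 := ho.measure_pos volume hne
  by_contra h2
  have h3 : γ (Function.support fun z => F (x + √v * z)) = 0 := by
    simpa using h2
  have h4 := gaussianReal_absolutelyContinuous' 0 (one_ne_zero (α := NNReal)) h3
  exact h1.ne' h4

/-- strict Jensen inequality -/
lemma G_jensen {F : ℝ → ℝ} (hF : EG F) {a b : ℝ} (hab : F a ≠ F b) (x : ℝ) {v : ℝ} (hv : 0 < v) :
    G F x v ^ 2 < G (fun y => F y ^ 2) x v := by
  set c := G F x v with hc
  have hF2 : EG (fun y => F y ^ 2) := by simpa [sq] using hF.mul hF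
  have hE : EG (fun y => (F y - c) ^ 2) := by
    simpa [sq] using (hF.sub (EG.const c)).mul (hF.sub (EG.const c))
  have h1 : 0 < G (fun y => (F y - c) ^ 2) x v := by
    by_cases h : F a = c
    · refine G_pos_of_ne hE (fun y => sq_nonneg _) (y₀ := b) ?_ x hv
      have : F b - c ≠ 0 := sub_ne_zero.2 fun h' => hab (h.trans h'.symm)
      positivity
    · refine G_pos_of_ne hE (fun y => sq_nonneg _) (y₀ := a) ?_ x hv
      have : F a - c ≠ 0 := sub_ne_zero.2 h
      positivity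
  have h2 : G (fun y => (F y - c) ^ 2) x v = G (fun y => F y ^ 2) x v - c ^ 2 := by
    have e1 : (fun y => (F y - c) ^ 2) = fun y => F y ^ 2 - (2 * c * F y - c ^ 2) := by
      funext y; ring
    rw [e1, G_sub hF2 ((hF.const_mul _).sub (EG.const _)), G_sub (hF.const_mul _) (EG.const _),
      G_const_mul, G_const, ← hc]
    ring
  linarith

lemma sech_sq_ne : sech 0 ^ 2 ≠ sech 1 ^ 2 := by
  have h0 : sech 0 = 1 := by simp [sech]
  have h1 : sech 1 < 1 := by
    unfold sech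
    exact inv_lt_one_of_one_lt₀ (Real.one_lt_cosh.2 one_ne_zero)
  have h2 := sech_pos 1
  rw [h0]
  nlinarith

/-- the overlap function on `[0, q]` -/
noncomputable def Gaml (β q h r : ℝ) : ℝ := G (Q0 β q r) h (2 * β ^ 2 * r)

lemma continuous_Gaml (β q h : ℝ) : Continuous (Gaml β q h) := by
  have h1 := (EGF_Q0 β q).continuous_G
  have h2 := h1.comp (by fun_prop : Continuous fun r : ℝ => (r, h, 2 * β ^ 2 * r))
  simp only [Function.comp_def] at h2
  exact h2

lemma Gaml_deriv {β q : ℝ} (hβ : 0 < β) (h : ℝ) {r : ℝ} (hr0 : 0 < r) (hrq : r < q) :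
    HasDerivAt (Gaml β q h) (2 * β ^ 2 * G (fun y => U1 β q r y ^ 2) h (2 * β ^ 2 * r)) r := by
  have hEa : EGF (fun a y => 2 * U β q a y * (-(β ^ 2 * U2 β q a y))) := by
    have h1 := ((EGF.const (P := ℝ) (EG.const (-(2 * β ^ 2)))).mul
      ((EGF_U β q).mul (EGF_U2 β q)))
    have h2 : (fun a y => 2 * U β q a y * (-(β ^ 2 * U2 β q a y))) =
        fun a y => -(2 * β ^ 2) * (U β q a y * U2 β q a y) := by
      funext a y; ring
    rw [h2]; exact h1
  have h1 := hasDerivAt_diag (Ψ := fun a b => G (Q0 β q a) h (2 * β ^ 2 * b))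
    (Ψa := fun a b => G (fun y => 2 * U β q a y * (-(β ^ 2 * U2 β q a y))) h (2 * β ^ 2 * b))
    (Ψb := fun a b => β ^ 2 * G (Q2 β q a) h (2 * β ^ 2 * b)) (r := r) ?_ ?_ ?_ ?_
  · refine h1.congr_deriv ?_
    rw [← G_const_mul, ← G_add (hEa.single r) (((EGF_Q2 β q).single r).const_mul _),
      ← G_const_mul]
    congr 1
    funext y
    unfold Q2
    ring
  · have h2 : ∀ᶠ p : ℝ × ℝ in 𝓝 (r, r), p.1 < q :=
      (continuous_fst.tendsto (r, r)).eventually (eventually_lt_nhds hrq)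
    filter_upwards [h2] with p hp
    refine hasDerivAt_G_param (EGF_Q0 β q) hEa ?_ h _
    filter_upwards [eventually_lt_nhds hp] with s hs y
    have h3 : HasDerivAt (fun t => U β q t y) (-(β ^ 2 * U2 β q s y)) s :=
      hasDerivAt_G_time hβ EG_tanh (EG_sech_pow 2) EG_t2 hasDerivAt_tanh hasDerivAt_t1 y hs
    refine (h3.mul h3).congr_deriv ?_
    ring
  · have h2 : ∀ᶠ p : ℝ × ℝ in 𝓝 (r, r), 0 < p.2 :=
      (continuous_snd.tendsto (r, r)).eventually (eventually_gt_nhds hr0)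
    filter_upwards [h2] with p hp
    have h3 : HasDerivAt (fun t => 2 * β ^ 2 * t) (2 * β ^ 2) p.2 := by
      simpa using (hasDerivAt_id p.2).const_mul (2 * β ^ 2)
    have h4 := hasDerivAt_G_v ((EGF_Q0 β q).single p.1) ((EGF_Q1 β q).single p.1)
      ((EGF_Q2 β q).single p.1) (Q0_d1 β q p.1) (Q1_d1 β q p.1) h
      (v := 2 * β ^ 2 * p.2) (by positivity)
    refine (h4.comp p.2 h3).congr_deriv ?_
    ring
  · have h2 := hEa.continuous_G
    have h3 := h2.comp (by fun_prop : Continuous fun p : ℝ × ℝ => (p.1, h, 2 * β ^ 2 * p.2))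
    simp only [Function.comp_def] at h3
    exact h3.continuousAt
  · have h2 := (EGF_Q2 β q).continuous_G
    have h3 := h2.comp (by fun_prop : Continuous fun p : ℝ × ℝ => (p.1, h, 2 * β ^ 2 * p.2))
    simp only [Function.comp_def] at h3
    exact (continuous_const.mul h3).continuousAt

lemma Gaml_q (β q h : ℝ) : Gaml β q h q = G (fun y => Real.tanh y ^ 2) h (2 * β ^ 2 * q) := by
  unfold Gaml
  congr 1
  funext y
  unfold Q0 U
  rw [sub_self, mul_zero, G_zero, sq]

lemma Gaml_deriv_lt {β q : ℝ} (hβ : 0 < β) (h : ℝ) {r : ℝ} (hr0 : 0 < r) (hrq : r < q) :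
    2 * β ^ 2 * G (fun y => U1 β q r y ^ 2) h (2 * β ^ 2 * r) <
      2 * β ^ 2 * G (fun y => sech y ^ 4) h (2 * β ^ 2 * q) := by
  have hb : 0 < 2 * β ^ 2 := by positivity
  apply mul_lt_mul_of_pos_left _ hb
  have hv : 0 < 2 * β ^ 2 * (q - r) := mul_pos hb (sub_pos.2 hrq)
  have e1 : G (fun y => sech y ^ 4) h (2 * β ^ 2 * q) =
      G (fun y => G (fun y => sech y ^ 4) y (2 * β ^ 2 * (q - r))) h (2 * β ^ 2 * r) := by
    rw [G_G (EG_sech_pow 4) h (mul_nonneg hb.le hr0.le) hv.le]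
    congr 1
    ring
  rw [e1]
  have hE1 : EG (fun y => U1 β q r y ^ 2) := by
    simpa [sq] using ((EGF_U1 β q).single r).mul ((EGF_U1 β q).single r)
  have hE2 : EG (fun y => G (fun y => sech y ^ 4) y (2 * β ^ 2 * (q - r))) := (EG_sech_pow 4).G' _
  have hlt : ∀ y, U1 β q r y ^ 2 < G (fun y => sech y ^ 4) y (2 * β ^ 2 * (q - r)) := by
    intro y
    have h1 := G_jensen (EG_sech_pow 2) sech_sq_ne y hv
    have h2 : (fun y => (sech y ^ 2) ^ 2) = fun y => sech y ^ 4 := by funext y; ring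
    rw [h2] at h1
    exact h1
  have h3 := G_pos (hE2.sub hE1) (fun y => sub_pos.2 (hlt y)) h (2 * β ^ 2 * r)
  rw [G_sub hE2 hE1] at h3
  linarith

/-- `Γ(r) > r` for `r < q` -/
theorem Gaml_gt {β h q : ℝ} (hβ : 0 < β) (hq : G (fun y => Real.tanh y ^ 2) h (2 * β ^ 2 * q) = q)
    (hAT : β ^ 2 * G (fun y => sech y ^ 4) h (2 * β ^ 2 * q) ≤ 1 / 2) {r : ℝ} (hr : 0 ≤ r)
    (hrq : r < q) : r < Gaml β q h r := by
  have hm : StrictAntiOn (fun r => Gaml β q h r - r) (Icc 0 q) := by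
    apply strictAntiOn_of_deriv_neg (convex_Icc 0 q)
    · exact ((continuous_Gaml β q h).sub continuous_id).continuousOn
    · intro s hs
      rw [interior_Icc] at hs
      have h1 := (Gaml_deriv hβ h hs.1 hs.2).sub (hasDerivAt_id s)
      have h2 := Gaml_deriv_lt hβ h hs.1 hs.2
      have h3 : deriv (fun r => Gaml β q h r - r) s = _ := h1.deriv
      rw [h3]
      linarith
  have h1 := hm ⟨hr, hrq.le⟩ ⟨hr.trans hrq.le, le_rfl⟩ hrq
  simp only [Gaml_q, hq, sub_self] at h1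
  linarith

/-- `Γ(r) < r` for `r > q` -/
theorem GR_lt {β h q : ℝ} (hβ : 0 < β) (hq : G (fun y => Real.tanh y ^ 2) h (2 * β ^ 2 * q) = q)
    (hAT : β ^ 2 * G (fun y => sech y ^ 4) h (2 * β ^ 2 * q) ≤ 1 / 2) {r : ℝ} (hrq : q < r) :
    1 - ph (2 * β ^ 2 * (r - q)) h (2 * β ^ 2 * q) < r := by
  have hb : 0 < 2 * β ^ 2 := by positivity
  set v := 2 * β ^ 2 * q with hv
  have hm : StrictMonoOn (fun s => ph s h v + s / (2 * β ^ 2)) (Ici 0) := by
    apply strictMonoOn_of_deriv_pos (convex_Ici 0)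
    · exact ((continuous_ph_s h v).add (continuous_id.div_const _)).continuousOn
    · intro s hs
      rw [interior_Ici] at hs
      have h1 := (hasDerivAt_ph h v hs).add ((hasDerivAt_id s).div_const (2 * β ^ 2))
      have h2 := main_ineq' hβ hq hAT hs
      have h3 : deriv (fun s => ph s h v + s / (2 * β ^ 2)) s = _ := h1.deriv
      rw [h3]
      rw [← hv] at h2
      have h4 : MM s h v < 1 / (2 * β ^ 2) := by
        rw [lt_div_iff₀ hb]; linarith
      linarith
  have h1 := hm (mem_Ici.2 le_rfl) (mem_Ici.2 (mul_pos hb (sub_pos.2 hrq)).le)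
    (mul_pos hb (sub_pos.2 hrq))
  have h2 := G_tanh_sq_eq h v
  simp only [ph_zero, zero_div, add_zero] at h1
  have h3 : 2 * β ^ 2 * (r - q) / (2 * β ^ 2) = r - q := by field_simp
  rw [h3] at h1
  rw [hq] at h2
  linarith

end Pool.Agent.K7.H96.AT
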