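import Pool.Agent.K7.H96.AT.Def
import Pool.Agent.K7.H96.AT.Gamma

set_option autoImplicit false

/-!
# From the Parisi equation to one-sided derivatives
-/

open MeasureTheory ProbabilityTheory Set Filter Topology

namespace Pool.Agent.K7.H96.AT

lemma OnUnit.prob {μ : Measure ℝ} (h : OnUnit μ) : IsProbabilityMeasure μ := ⟨h.1⟩

lemma distr_mono {μ : Measure ℝ} (h : OnUnit μ) : Monotone (distr μ) := by
  have := h.prob
  intro s t hst
  exact ENNReal.toReal_mono (measure_ne_top μ _) (measure_mono (Iic_subset_Iic.2 hst))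

lemma distr_nonneg (μ : Measure ℝ) (t : ℝ) : 0 ≤ distr μ t := ENNReal.toReal_nonneg

lemma distr_le_one {μ : Measure ℝ} (h : OnUnit μ) (t : ℝ) : distr μ t ≤ 1 := by
  have := h.prob
  unfold distr
  calc (μ (Iic t)).toReal ≤ (1 : ENNReal).toReal := ENNReal.toReal_mono (by simp) prob_le_one
    _ = 1 := by simp

lemma distr_eq_cdf {μ : Measure ℝ} (h : OnUnit μ) (t : ℝ) : distr μ t = cdf μ t := by
  have := h.prob
  rw [cdf_eq_real]; rfl

lemma distr_rc {μ : Measure ℝ} (h : OnUnit μ) (t : ℝ) : ContinuousWithinAt (distr μ) (Ioi t) t := by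
  have := (cdf μ).right_continuous t
  have h2 : distr μ = cdf μ := funext (distr_eq_cdf h)
  rw [h2]
  exact this.mono Ioi_subset_Ici_self

lemma Wt_distr {μ : Measure ℝ} (h : OnUnit μ) : Wt (distr μ) :=
  ⟨(distr_mono h).measurable, distr_nonneg μ, distr_le_one h, distr_rc h⟩

lemma distr_of_neg {μ : Measure ℝ} (h : OnUnit μ) {t : ℝ} (ht : t < 0) : distr μ t = 0 := by
  unfold distr
  rw [measure_mono_null (t := (Icc (0 : ℝ) 1)ᶜ) _ h.2]
  · rfl
  · intro s hs hs'
    exact absurd (hs'.1.trans hs) (not_le.2 ht)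

lemma distr_of_one_le {μ : Measure ℝ} (h : OnUnit μ) {t : ℝ} (ht : 1 ≤ t) : distr μ t = 1 := by
  have := h.prob
  unfold distr
  have h1 : μ (Iic t)ᶜ = 0 := by
    refine measure_mono_null (t := (Icc (0 : ℝ) 1)ᶜ) ?_ h.2
    intro s hs hs'
    exact hs (hs'.2.trans ht)
  rw [(prob_compl_eq_zero_iff measurableSet_Iic).1 h1]
  rfl

/-- right derivatives from derivatives off a countable set -/
lemma right_deriv_of_countable {g k : ℝ → ℝ} {S : Set ℝ} (hS : S.Countable)
    (hg : ContinuousOn g (Icc 0 1)) (hk : IntervalIntegrable k volume 0 1)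
    (hd : ∀ t ∈ Ioo (0 : ℝ) 1, t ∉ S → HasDerivAt g (k t) t) {t : ℝ} (ht : t ∈ Ico (0 : ℝ) 1)
    (hrc : ContinuousWithinAt k (Ioi t) t) : HasDerivWithinAt g (k t) (Ici t) t := by
  have hint : ∀ u ∈ Icc t 1, IntervalIntegrable k volume t u := by
    intro u hu
    refine hk.mono_set ?_
    rw [uIcc_of_le hu.1, uIcc_of_le zero_le_one]
    exact Icc_subset_Icc ht.1 hu.2
  have h1 : ∀ u ∈ Icc t 1, ∫ s in t..u, k s = g u - g t := by
    intro u hu
    refine integral_eq_of_hasDerivAt_off_countable g k hS ?_ ?_ (hint u hu)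
    · rw [uIcc_of_le hu.1]
      exact hg.mono (Icc_subset_Icc ht.1 hu.2)
    · rintro s ⟨hs, hs'⟩
      rw [min_eq_left hu.1, max_eq_right hu.1] at hs
      exact hd s ⟨lt_of_le_of_lt ht.1 hs.1, lt_of_lt_of_le hs.2 hu.2⟩ hs'
  have h2 : HasDerivWithinAt (fun u => ∫ s in t..u, k s) (k t) (Ici t) t := by
    refine intervalIntegral.integral_hasDerivWithinAt_right (by simp) ?_ hrc
    refine ⟨Ioc t 1, Ioc_mem_nhdsGT ht.2, ?_⟩
    exact (hint 1 ⟨ht.2.le, le_rfl⟩).1.aestronglyMeasurable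
  have h3 : HasDerivWithinAt (fun u => g t + ∫ s in t..u, k s) (k t) (Ici t) t :=
    h2.const_add _
  refine h3.congr_of_eventuallyEq ?_ (by simp)
  have h4 : Icc t 1 ∈ 𝓝[≥] t := Icc_mem_nhdsGE ht.2
  filter_upwards [h4] with u hu
  rw [h1 u hu]; ring

/-- a solution of the Parisi equation in the sense of one-sided derivatives -/
theorem IsParisiSolution.toSol {β : ℝ} {μ : Measure ℝ} (hμ : OnUnit μ) {f : ℝ → ℝ → ℝ}
    (hf : IsParisiSolution β μ f) :
    Sol β (distr μ) 0 1 f (fun t x => deriv (f t) x) (fun t x => deriv (deriv (f t)) x) := by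
  obtain ⟨C, hC⟩ := hf.bounded
  refine ⟨hf.cont_zero, ?_, ?_, ?_, ?_⟩
  · intro t ht x
    exact ((hf.smooth t ht).differentiable (by norm_num) x).hasDerivAt
  · intro t ht x
    have h1 : ContDiff ℝ 1 (deriv (f t)) := by
      have := hf.smooth t ht
      rw [show (2 : WithTop ℕ∞) = 1 + 1 by norm_num, contDiff_succ_iff_deriv] at this
      exact this.2.2
    exact (h1.differentiable (by norm_num) x).hasDerivAt
  · exact ⟨|C|, abs_nonneg _, fun t ht x => (hC t ht x).trans (le_abs_self _)⟩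
  · intro t ht x
    have hcx : ∀ {F : ℝ × ℝ → ℝ}, ContinuousOn F (Icc (0 : ℝ) 1 ×ˢ univ) →
        ContinuousOn (fun s => F (s, x)) (Icc (0 : ℝ) 1) := fun hF =>
      hF.comp (f := fun s : ℝ => (s, x)) (by fun_prop) fun s hs => ⟨hs, mem_univ _⟩
    have c0 := hcx hf.cont_zero
    have c1 := hcx hf.cont_one
    have c2 := hcx hf.cont_two
    refine right_deriv_of_countable
      (k := fun t => -(β ^ 2 * (deriv (deriv (f t)) x + distr μ t * deriv (f t) x ^ 2)))
      (distr_mono hμ).countable_not_continuousAt c0 ?_ ?_ ht ?_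
    · refine IntervalIntegrable.neg (IntervalIntegrable.const_mul (IntervalIntegrable.add ?_ ?_) _)
      · refine ContinuousOn.intervalIntegrable ?_
        rwa [uIcc_of_le zero_le_one]
      · refine IntervalIntegrable.mul_continuousOn (distr_mono hμ).intervalIntegrable ?_
        rw [uIcc_of_le zero_le_one]
        exact c1.pow 2
    · intro s hs hs'
      exact hf.equation s hs (by simpa using hs') x
    · have hsub : Ioo t 1 ⊆ Icc (0 : ℝ) 1 := fun s hs => ⟨ht.1.trans hs.1.le, hs.2.le⟩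
      have hn : 𝓝[Ioi t] t = 𝓝[Ioo t 1] t := (nhdsWithin_Ioo_eq_nhdsGT ht.2).symm
      have hcw : ∀ {F : ℝ → ℝ}, ContinuousOn F (Icc (0 : ℝ) 1) → ContinuousWithinAt F (Ioi t) t := by
        intro F hF
        have h1 := (hF t ⟨ht.1, ht.2.le⟩).mono hsub
        unfold ContinuousWithinAt at h1 ⊢
        rwa [hn]
      exact (((hcw c2).add ((distr_rc hμ t).mul ((hcw c1).pow 2))).const_smul (β ^ 2)).neg

end Pool.Agent.K7.H96.AT
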