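import Mathlib

set_option autoImplicit false

/-!
# The Parisi functional of the Sherrington-Kirkpatrick model with external field

Conventions of the problem `MP_aa848e_pr`.
-/

open MeasureTheory ProbabilityTheory Set

namespace Pool.Agent.K7.H96.AT

/-- `μ` is a probability measure on the real line carried by `[0, 1]`. -/
def OnUnit (μ : Measure ℝ) : Prop := μ univ = 1 ∧ μ (Icc 0 1)ᶜ = 0

/-- the cumulative distribution function `ζ(t) = μ((-∞, t])` -/
noncomputable def distr (μ : Measure ℝ) (t : ℝ) : ℝ := (μ (Iic t)).toReal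

/-- `f` solves the Parisi equation
`∂ₜ f = -β² (∂ₓ² f + ζ(t) (∂ₓ f)²)` on `[0, 1] × ℝ`, `f(1, x) = log cosh x`,
where `ζ` is the cumulative distribution function of `μ`:
for every `t ∈ [0, 1]` the function `f(t, ·)` is twice continuously differentiable, the functions
`f`, `∂ₓ f`, `∂ₓ² f` are continuous on `[0, 1] × ℝ`, `∂ₓ f` is bounded, and the equation holds at
every `t ∈ (0, 1)` at which `ζ` is continuous and every `x`. -/
structure IsParisiSolution (β : ℝ) (μ : Measure ℝ) (f : ℝ → ℝ → ℝ) : Prop where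
  terminal : ∀ x, f 1 x = Real.log (Real.cosh x)
  smooth : ∀ t ∈ Icc (0 : ℝ) 1, ContDiff ℝ 2 (f t)
  cont_zero : ContinuousOn (fun p : ℝ × ℝ => f p.1 p.2) (Icc 0 1 ×ˢ univ)
  cont_one : ContinuousOn (fun p : ℝ × ℝ => deriv (f p.1) p.2) (Icc 0 1 ×ˢ univ)
  cont_two : ContinuousOn (fun p : ℝ × ℝ => deriv (deriv (f p.1)) p.2) (Icc 0 1 ×ˢ univ)
  bounded : ∃ C : ℝ, ∀ t ∈ Icc (0 : ℝ) 1, ∀ x, |deriv (f t) x| ≤ C
  equation : ∀ t ∈ Ioo (0 : ℝ) 1, ContinuousAt (distr μ) t → ∀ x,
    HasDerivAt (fun s => f s x)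
      (-(β ^ 2 * (deriv (deriv (f t)) x + distr μ t * deriv (f t) x ^ 2))) t

/-- the value `log 2 + f(0, h) - β² ∫₀¹ ζ(t) t dt` of the Parisi functional at `μ`, where `f` is the
solution of the Parisi equation for `μ` -/
noncomputable def parisiValue (β h : ℝ) (μ : Measure ℝ) (f : ℝ → ℝ → ℝ) : ℝ :=
  Real.log 2 + f 0 h - β ^ 2 * ∫ t in (0 : ℝ)..1, distr μ t * t

/-- `μ` minimises the Parisi functional at inverse temperature `β` and external field `h` among all
probability measures on `[0, 1]` -/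
def IsParisiMeasure (β h : ℝ) (μ : Measure ℝ) : Prop :=
  OnUnit μ ∧ ∃ f, IsParisiSolution β μ f ∧ ∀ (ν : Measure ℝ) (g : ℝ → ℝ → ℝ), OnUnit ν →
    IsParisiSolution β ν g → parisiValue β h μ f ≤ parisiValue β h ν g

/-- `q` is the largest solution in `[0, 1]` of `q = E tanh²(β z √(2 q) + h)` with `z` standard
Gaussian -/
def IsLargestOverlap (β h q : ℝ) : Prop :=
  IsGreatest {r : ℝ | r ∈ Icc 0 1 ∧
    r = ∫ z, Real.tanh (β * z * √(2 * r) + h) ^ 2 ∂(gaussianReal 0 1)} q

end Pool.Agent.K7.H96.AT
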