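import Pool.Agent.K7.H96.AT.Conv

set_option autoImplicit false

/-!
# Point masses
-/

open MeasureTheory ProbabilityTheory Set Filter Topology

namespace Pool.Agent.K7.H96.AT

lemma contDiff_two_of_hasDerivAt {f f' f'' : ℝ → ℝ} (h1 : ∀ x, HasDerivAt f (f' x) x)
    (h2 : ∀ x, HasDerivAt f' (f'' x) x) (hc : Continuous f'') : ContDiff ℝ 2 f := by
  have e1 : deriv f = f' := funext fun x => (h1 x).deriv
  have e2 : deriv f' = f'' := funext fun x => (h2 x).deriv
  have c1 : ContDiff ℝ 1 f' := by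
    rw [contDiff_one_iff_deriv]
    exact ⟨fun x => (h2 x).differentiableAt, by rwa [e2]⟩
  rw [show (2 : WithTop ℕ∞) = 1 + 1 by norm_num, contDiff_succ_iff_deriv]
  refine ⟨fun x => (h1 x).differentiableAt, ?_, by rwa [e1]⟩
  intro h; norm_num at h

lemma onUnit_dirac {q : ℝ} (hq : q ∈ Icc (0 : ℝ) 1) : OnUnit (Measure.dirac q) := by
  refine ⟨by simp, ?_⟩
  rw [Measure.dirac_apply' _ measurableSet_Icc.compl]
  simp [hq.1, hq.2]

lemma distr_dirac (q t : ℝ) : distr (Measure.dirac q) t = if q ≤ t then 1 else 0 := by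
  unfold distr
  rw [Measure.dirac_apply' _ measurableSet_Iic]
  by_cases h : q ≤ t
  · rw [indicator_of_mem (by exact h), if_pos h]; simp
  · rw [indicator_of_notMem (by exact h), if_neg h]; simp

/-- the solution of the Parisi equation for the point mass at `q` -/
noncomputable def fD (β q t x : ℝ) : ℝ := β ^ 2 * (1 - max t q) + G lc x (2 * β ^ 2 * (q - t))

lemma fD_d1 (β q t x : ℝ) : HasDerivAt (fD β q t) (U β q t x) x :=
  (hasDerivAt_G EG_lc EG_tanh hasDerivAt_lc x _).const_add _

lemma continuous_fD (β q : ℝ) : Continuous (fun p : ℝ × ℝ => fD β q p.1 p.2) := by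
  have h1 := EG_lc.continuous_G
  have h2 : Continuous fun p : ℝ × ℝ => (p.2, 2 * β ^ 2 * (q - p.1)) := by fun_prop
  have h3 := h1.comp h2
  simp only [Function.comp_def] at h3
  unfold fD
  exact (by fun_prop : Continuous fun p : ℝ × ℝ => β ^ 2 * (1 - max p.1 q)).add h3

lemma fD_of_lt {β q t : ℝ} (x : ℝ) (h : q ≤ t) : fD β q t x = β ^ 2 * (1 - t) + lc x := by
  unfold fD
  rw [max_eq_left h, G_of_nonpos]
  have : 0 ≤ 2 * β ^ 2 := by positivity
  nlinarith

lemma fD_of_gt {β q t : ℝ} (x : ℝ) (h : t ≤ q) :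
    fD β q t x = β ^ 2 * (1 - q) + G lc x (2 * β ^ 2 * (q - t)) := by
  unfold fD
  rw [max_eq_right h]

lemma U_of_le {β q t : ℝ} (x : ℝ) (h : q ≤ t) : U β q t x = Real.tanh x := by
  unfold U
  rw [G_of_nonpos]
  have : 0 ≤ 2 * β ^ 2 := by positivity
  nlinarith

lemma U1_of_le {β q t : ℝ} (x : ℝ) (h : q ≤ t) : U1 β q t x = sech x ^ 2 := by
  unfold U1
  rw [G_of_nonpos]
  have : 0 ≤ 2 * β ^ 2 := by positivity
  nlinarith

theorem fD_isParisiSolution {β q : ℝ} (hβ : 0 < β) (hq : q ∈ Icc (0 : ℝ) 1) :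
    IsParisiSolution β (Measure.dirac q) (fD β q) := by
  have e1 : ∀ t x, deriv (fD β q t) x = U β q t x := fun t x => (fD_d1 β q t x).deriv
  have e1' : ∀ t, deriv (fD β q t) = U β q t := fun t => funext (e1 t)
  have e2 : ∀ t x, deriv (deriv (fD β q t)) x = U1 β q t x := fun t x => by
    rw [e1']; exact (U_d1 β q t x).deriv
  refine ⟨fun x => ?_, fun t _ => ?_, (continuous_fD β q).continuousOn, ?_, ?_, ⟨1, ?_⟩, ?_⟩
  · rw [fD_of_lt x hq.2, sub_self, mul_zero, zero_add]; rfl
  · exact contDiff_two_of_hasDerivAt (fD_d1 β q t) (U_d1 β q t) ((EGF_U1 β q).single t).cont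
  · simp only [e1]; exact (EGF_U β q).cont.continuousOn
  · simp only [e2]; exact (EGF_U1 β q).cont.continuousOn
  · intro t _ x; rw [e1]; exact U_abs_le β q t x
  · intro t ht hc x
    rw [e1, e2, distr_dirac]
    rcases lt_trichotomy t q with h | h | h
    · rw [if_neg (not_le.2 h)]
      have h1 := hasDerivAt_G_time hβ EG_lc EG_tanh (EG_sech_pow 2) hasDerivAt_lc hasDerivAt_tanh x h
      refine (h1.const_add (β ^ 2 * (1 - q))).congr_of_eventuallyEq ?_ |>.congr_deriv ?_
      · filter_upwards [eventually_lt_nhds h] with s hs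
        exact fD_of_gt x hs.le
      · unfold U1; ring
    · exfalso
      subst h
      have h1 : Tendsto (distr (Measure.dirac t)) (𝓝[<] t) (𝓝 (distr (Measure.dirac t) t)) :=
        hc.continuousWithinAt
      have h2 : Tendsto (distr (Measure.dirac t)) (𝓝[<] t) (𝓝 0) := by
        refine tendsto_const_nhds.congr' ?_
        filter_upwards [self_mem_nhdsWithin] with s hs
        rw [distr_dirac, if_neg (not_le.2 hs)]
      have h3 := tendsto_nhds_unique h1 h2
      rw [distr_dirac, if_pos le_rfl] at h3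
      exact one_ne_zero h3
    · rw [if_pos h.le, U_of_le x h.le, U1_of_le x h.le]
      have h1 : HasDerivAt (fun s => β ^ 2 * (1 - s) + lc x) (-(β ^ 2)) t := by
        have := ((hasDerivAt_id t).const_sub 1).const_mul (β ^ 2) |>.add_const (lc x)
        simpa using this
      refine h1.congr_of_eventuallyEq ?_ |>.congr_deriv ?_
      · filter_upwards [eventually_gt_nhds h] with s hs
        exact fD_of_lt x hs.le
      · rw [tanh_sq]; ring

lemma int_distr_dirac {q : ℝ} (hq : q ∈ Icc (0 : ℝ) 1) :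
    ∫ t in (0 : ℝ)..1, distr (Measure.dirac q) t * t = (1 - q ^ 2) / 2 := by
  have hi : ∀ a b, IntervalIntegrable (fun t => distr (Measure.dirac q) t * t) volume a b :=
    fun a b => IntervalIntegrable.mul_continuousOn
      (distr_mono (onUnit_dirac hq)).intervalIntegrable continuous_id.continuousOn
  rw [← intervalIntegral.integral_add_adjacent_intervals (hi 0 q) (hi q 1)]
  have h1 : ∫ t in (0 : ℝ)..q, distr (Measure.dirac q) t * t = 0 := by
    rw [intervalIntegral.integral_of_le hq.1, integral_Ioc_eq_integral_Ioo]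
    refine setIntegral_eq_zero_of_forall_eq_zero fun t ht => ?_
    rw [distr_dirac, if_neg (not_le.2 ht.2), zero_mul]
  have h2 : ∫ t in q..1, distr (Measure.dirac q) t * t = ∫ t in q..1, t := by
    rw [intervalIntegral.integral_of_le hq.2, intervalIntegral.integral_of_le hq.2]
    refine setIntegral_congr_fun measurableSet_Ioc fun t ht => ?_
    rw [distr_dirac, if_pos ht.1.le, one_mul]
  rw [h1, h2, integral_id, zero_add, one_pow]

lemma parisiValue_fD {β q : ℝ} (h : ℝ) (hq : q ∈ Icc (0 : ℝ) 1) :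
    parisiValue β h (Measure.dirac q) (fD β q) =
      Real.log 2 + (β ^ 2 * (1 - q) + G lc h (2 * β ^ 2 * q)) - β ^ 2 * ((1 - q ^ 2) / 2) := by
  unfold parisiValue
  rw [int_distr_dirac hq, fD_of_gt h hq.1, sub_zero]

/-- the fundamental lower bound for the Parisi functional, at a fixed point `q` -/
theorem parisiValue_ge {β : ℝ} (hβ : 0 < β) {μ : Measure ℝ} (hμ : OnUnit μ) {f : ℝ → ℝ → ℝ}
    (hf : IsParisiSolution β μ f) {q : ℝ} (hq : q ∈ Icc (0 : ℝ) 1) (h : ℝ) :
    parisiValue β h (Measure.dirac q) (fD β q) +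
      β ^ 2 * ((∫ t in Ioc 0 q, distr μ t * (Gam β q h t - t)) +
        ∫ t in Ioc q 1, (1 - distr μ t) * (t - Gam β q h t)) ≤ parisiValue β h μ f := by
  have h1 := lower_bound hβ (Wt_distr hμ) hq.1 hq.2 (hf.toSol hμ) hf.terminal h
  rw [parisiValue_fD h hq]
  unfold parisiValue
  have hmG : Measurable (Gam β q h) := by
    refine Measurable.ite measurableSet_Iic (continuous_Gaml β q h).measurable ?_
    have := (continuous_ph_s h (2 * β ^ 2 * q)).comp
      (by fun_prop : Continuous fun r : ℝ => 2 * β ^ 2 * (r - q))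
    exact (continuous_const.sub this).measurable
  have hbG : ∀ t, q < t → t ≤ 1 → |Gam β q h t| ≤ 8 := by
    intro t ht _
    rw [Gam, if_neg (not_le.2 ht)]
    have h2 : 0 ≤ 2 * β ^ 2 * (t - q) := mul_nonneg (by positivity) (by linarith)
    have h3 : |ph (2 * β ^ 2 * (t - q)) h (2 * β ^ 2 * q)| ≤ 1 :=
      G_abs_le (F := fun y => sech y * pp (2 * β ^ 2 * (t - q)) y)
        (EGF_sech_pp.single (2 * β ^ 2 * (t - q))) (fun y => SS_abs_le h2 y) _ _
    rw [abs_le] at h3 ⊢
    constructor <;> linarith [h3.1, h3.2]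
  have hbG2 : ∀ t, t ≤ q → |Gam β q h t| ≤ 8 := by
    intro t ht
    rw [Gam, if_pos ht]
    exact G_abs_le ((EGF_Q0 β q).single t) (Q0_abs_le β q t) _ _
  have hm := (Wt_distr hμ).meas
  have hab := (Wt_distr hμ).abs_le
  have hab' := (Wt_distr hμ).compl.abs_le
  -- integrability
  have hb : ∀ {F : ℝ → ℝ} {a b : ℝ}, Measurable F → (∀ t ∈ Ioc a b, |F t| ≤ 8) →
      IntegrableOn F (Ioc a b) := by
    intro F a b hF hb
    refine Measure.integrableOn_of_bounded (M := 8) (by simp) hF.aestronglyMeasurable ?_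
    filter_upwards [ae_restrict_mem measurableSet_Ioc] with t ht
    exact hb t ht
  have i1 : IntegrableOn (fun t => distr μ t * Gam β q h t) (Ioc 0 q) :=
    hb (hm.mul hmG) fun t ht => by
      have := abs_mul_le' (hab t) (hbG2 t ht.2); linarith
  have i2 : IntegrableOn (fun t => (1 - distr μ t) * Gam β q h t) (Ioc q 1) :=
    hb ((measurable_const.sub hm).mul hmG) fun t ht => by
      have := abs_mul_le' (hab' t) (hbG t ht.1 ht.2); linarith
  have i3 : ∀ {a b : ℝ}, 0 ≤ a → b ≤ 1 → IntegrableOn (fun t => distr μ t * t) (Ioc a b) :=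
    fun {a b} ha hb' => hb (hm.mul measurable_id) fun t ht => by
      have h2 : |t| ≤ 1 := by rw [abs_le]; constructor <;> linarith [ht.1, ht.2]
      have := abs_mul_le' (hab t) h2; linarith
  have i4 : IntegrableOn (fun t : ℝ => t) (Ioc q 1) :=
    hb measurable_id fun t ht => by rw [abs_le]; constructor <;> linarith [ht.1, ht.2, hq.1]
  have e1 : ∫ t in Ioc 0 q, distr μ t * (Gam β q h t - t) =
      (∫ t in Ioc 0 q, distr μ t * Gam β q h t) - ∫ t in Ioc 0 q, distr μ t * t := by
    rw [← integral_sub i1 (i3 le_rfl hq.2)]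
    refine integral_congr_ae (Eventually.of_forall fun t => ?_)
    simp only; ring
  have e2 : ∫ t in Ioc q 1, (1 - distr μ t) * (t - Gam β q h t) =
      ((∫ t in Ioc q 1, t) - ∫ t in Ioc q 1, distr μ t * t) -
        ∫ t in Ioc q 1, (1 - distr μ t) * Gam β q h t := by
    have i5 : IntegrableOn (fun t => t - distr μ t * t) (Ioc q 1) := i4.sub (i3 hq.1 le_rfl)
    rw [← integral_sub i4 (i3 hq.1 le_rfl), ← integral_sub i5 i2]
    refine integral_congr_ae (Eventually.of_forall fun t => ?_)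
    simp only; ring
  have e3 : ∫ t in Ioc q 1, t = (1 - q ^ 2) / 2 := by
    rw [← intervalIntegral.integral_of_le hq.2, integral_id, one_pow]
  have e4 : ∫ t in (0 : ℝ)..1, distr μ t * t =
      (∫ t in Ioc 0 q, distr μ t * t) + ∫ t in Ioc q 1, distr μ t * t := by
    rw [← intervalIntegral.integral_add_adjacent_intervals (b := q),
      intervalIntegral.integral_of_le hq.1, intervalIntegral.integral_of_le hq.2]
    · rw [intervalIntegrable_iff_integrableOn_Ioc_of_le hq.1]; exact i3 le_rfl hq.2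
    · rw [intervalIntegrable_iff_integrableOn_Ioc_of_le hq.2]; exact i3 hq.1 le_rfl
  rw [e1, e2, e3, e4]
  nlinarith [h1]

end Pool.Agent.K7.H96.AT
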