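import Mathlib

set_option autoImplicit false

/-!
# Duhamel integrals
-/

open MeasureTheory Set Filter Topology

namespace Pool.Agent.K7.H96.AT

/-- right derivative of a parametric integral -/
lemma hasDerivWithinAt_integral_right {α : Type*} [MeasurableSpace α] {ν : Measure α}
    [IsFiniteMeasure ν] {Φ : α → ℝ → ℝ} {Φ' : α → ℝ} {t δ L : ℝ} (hδ : 0 < δ)
    (hint : ∀ t' ∈ Icc t (t + δ), Integrable (fun a => Φ a t') ν)
    (hlip : ∀ᵐ a ∂ν, ∀ t' ∈ Ioc t (t + δ), |Φ a t' - Φ a t| ≤ L * (t' - t))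
    (hd : ∀ᵐ a ∂ν, HasDerivWithinAt (Φ a) (Φ' a) (Ici t) t) :
    HasDerivWithinAt (fun t' => ∫ a, Φ a t' ∂ν) (∫ a, Φ' a ∂ν) (Ici t) t := by
  rw [← hasDerivWithinAt_Ioi_iff_Ici, hasDerivWithinAt_iff_tendsto_slope' self_notMem_Ioi]
  have hmem : Ioc t (t + δ) ∈ 𝓝[>] t := Ioc_mem_nhdsGT (by linarith)
  have h1 : Tendsto (fun t' => ∫ a, slope (Φ a) t t' ∂ν) (𝓝[>] t) (𝓝 (∫ a, Φ' a ∂ν)) := by
    refine tendsto_integral_filter_of_dominated_convergence (fun _ => L) ?_ ?_
      (integrable_const L) ?_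
    · filter_upwards [hmem] with t' ht'
      simp_rw [slope_def_field]
      exact (((hint t' ⟨ht'.1.le, ht'.2⟩).sub (hint t ⟨le_rfl, by linarith⟩)).div_const
        (t' - t)).aestronglyMeasurable
    · filter_upwards [hmem] with t' ht'
      filter_upwards [hlip] with a ha
      rw [slope_def_field, Real.norm_eq_abs, abs_div, abs_of_pos (sub_pos.2 ht'.1),
        div_le_iff₀ (sub_pos.2 ht'.1)]
      exact ha t' ht'
    · filter_upwards [hd] with a ha
      rwa [← hasDerivWithinAt_Ioi_iff_Ici, hasDerivWithinAt_iff_tendsto_slope' self_notMem_Ioi] at ha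
  refine h1.congr' ?_
  filter_upwards [hmem] with t' ht'
  simp_rw [slope_def_field]
  rw [integral_div, integral_sub (hint t' ⟨ht'.1.le, ht'.2⟩) (hint t ⟨le_rfl, by linarith⟩)]

/-- the Duhamel integral -/
noncomputable def DI (a b : ℝ) (c : ℝ → ℝ) (K : ℝ → ℝ → ℝ → ℝ) (t x : ℝ) : ℝ :=
  ∫ r in Ioc a b, (if t < r then c r * K r t x else 0)

variable {a b C : ℝ} {c : ℝ → ℝ} {K K₁ K₂ : ℝ → ℝ → ℝ → ℝ}

lemma DI_meas (hc : Measurable c) (hK : Continuous (fun p : ℝ × ℝ × ℝ => K p.1 p.2.1 p.2.2))
    (t x : ℝ) : Measurable (fun r => if t < r then c r * K r t x else 0) := by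
  refine Measurable.ite measurableSet_Ioi ?_ measurable_const
  exact hc.mul (hK.comp (by fun_prop : Continuous fun r : ℝ => (r, t, x))).measurable

lemma DI_bd (hc1 : ∀ r, |c r| ≤ 1) (hb : ∀ r t x, |K r t x| ≤ C) (t x r : ℝ) :
    ‖(if t < r then c r * K r t x else 0 : ℝ)‖ ≤ C := by
  have hC : 0 ≤ C := (abs_nonneg _).trans (hb 0 0 0)
  split_ifs
  · rw [Real.norm_eq_abs, abs_mul]
    calc |c r| * |K r t x| ≤ 1 * C := mul_le_mul (hc1 r) (hb r t x) (abs_nonneg _) zero_le_one
      _ = C := one_mul C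
  · simpa using hC

lemma DI_integrable (hc : Measurable c) (hc1 : ∀ r, |c r| ≤ 1)
    (hK : Continuous (fun p : ℝ × ℝ × ℝ => K p.1 p.2.1 p.2.2)) (hb : ∀ r t x, |K r t x| ≤ C)
    (t x : ℝ) : Integrable (fun r => if t < r then c r * K r t x else 0)
      (volume.restrict (Ioc a b)) :=
  Integrable.of_bound (DI_meas hc hK t x).aestronglyMeasurable C
    (Eventually.of_forall (DI_bd hc1 hb t x))

lemma DI_continuous (hc : Measurable c) (hc1 : ∀ r, |c r| ≤ 1)
    (hK : Continuous (fun p : ℝ × ℝ × ℝ => K p.1 p.2.1 p.2.2)) (hb : ∀ r t x, |K r t x| ≤ C) :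
    Continuous (fun p : ℝ × ℝ => DI a b c K p.1 p.2) := by
  rw [continuous_iff_continuousAt]
  rintro ⟨t₀, x₀⟩
  unfold DI
  refine continuousAt_of_dominated (bound := fun _ => C) ?_ ?_ (integrable_const C) ?_
  · exact Eventually.of_forall fun p => (DI_meas hc hK _ _).aestronglyMeasurable
  · exact Eventually.of_forall fun p => Eventually.of_forall (DI_bd hc1 hb _ _)
  · have h0 : ∀ᵐ r ∂(volume.restrict (Ioc a b)), r ≠ t₀ := by
      refine ae_restrict_of_ae ?_
      exact (measure_eq_zero_iff_ae_notMem.1 (by simp : volume ({t₀} : Set ℝ) = 0)).mono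
        fun r hr => by simpa using hr
    filter_upwards [h0] with r hr
    rcases lt_or_gt_of_ne hr with h | h
    · have h1 : ∀ᶠ p : ℝ × ℝ in 𝓝 (t₀, x₀), r < p.1 :=
        continuousAt_fst.eventually (eventually_gt_nhds h)
      refine continuousAt_const.congr (f := fun _ => (0 : ℝ)) ?_
      filter_upwards [h1] with p hp
      rw [if_neg (not_lt.2 hp.le)]
    · have h1 : ∀ᶠ p : ℝ × ℝ in 𝓝 (t₀, x₀), p.1 < r :=
        continuousAt_fst.eventually (eventually_lt_nhds h)
      have h2 : Continuous fun p : ℝ × ℝ => c r * K r p.1 p.2 :=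
        continuous_const.mul (hK.comp (by fun_prop : Continuous fun p : ℝ × ℝ => (r, p.1, p.2)))
      refine h2.continuousAt.congr ?_
      filter_upwards [h1] with p hp
      rw [if_pos hp]

lemma DI_abs_le (hab : a ≤ b) (hc1 : ∀ r, |c r| ≤ 1) (hb : ∀ r t x, |K r t x| ≤ C) (t x : ℝ) :
    |DI a b c K t x| ≤ C * (b - a) := by
  unfold DI
  have := norm_setIntegral_le_of_norm_le_const (μ := volume) (s := Ioc a b) (C := C)
    (f := fun r => (if t < r then c r * K r t x else 0 : ℝ)) (by simp)
    (fun r _ => DI_bd hc1 hb t x r)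
  rw [Real.norm_eq_abs] at this
  refine this.trans (le_of_eq ?_)
  rw [Measure.real, Real.volume_Ioc, ENNReal.toReal_ofReal (by linarith)]

lemma DI_hasDerivAt (hc : Measurable c) (hc1 : ∀ r, |c r| ≤ 1)
    (hK : Continuous (fun p : ℝ × ℝ × ℝ => K p.1 p.2.1 p.2.2))
    (hK1 : Continuous (fun p : ℝ × ℝ × ℝ => K₁ p.1 p.2.1 p.2.2)) {C' : ℝ}
    (hb : ∀ r t x, |K r t x| ≤ C') (hb1 : ∀ r t x, |K₁ r t x| ≤ C)
    (hd : ∀ r t x, HasDerivAt (K r t) (K₁ r t x) x) (t x : ℝ) :
    HasDerivAt (DI a b c K t) (DI a b c K₁ t x) x := by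
  unfold DI
  refine (hasDerivAt_integral_of_dominated_loc_of_deriv_le (μ := volume.restrict (Ioc a b))
    (s := univ) (F := fun x r => (if t < r then c r * K r t x else 0 : ℝ))
    (F' := fun x r => (if t < r then c r * K₁ r t x else 0 : ℝ))
    (bound := fun _ => C) univ_mem ?_ ?_ ?_ ?_ (integrable_const C) ?_).2
  · exact Eventually.of_forall fun x => (DI_meas hc hK t x).aestronglyMeasurable
  · exact DI_integrable hc hc1 hK hb t x
  · exact (DI_meas hc hK1 t x).aestronglyMeasurable
  · exact Eventually.of_forall fun r x _ => DI_bd hc1 hb1 t x r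
  · refine Eventually.of_forall fun r x _ => ?_
    by_cases h : t < r
    · simp only [if_pos h]
      exact (hd r t x).const_mul (c r)
    · simp only [if_neg h]
      exact hasDerivAt_const _ _

/-- the equation satisfied by a Duhamel integral -/
lemma DI_time {β κ : ℝ} (hκ : |κ| ≤ 1) {u : ℝ → ℝ → ℝ} (hu : ∀ t ∈ Icc a b, ∀ x, |u t x| ≤ 1)
    (hc : Measurable c) (hc1 : ∀ r, |c r| ≤ 1)
    (hcr : ∀ t ∈ Ico a b, ContinuousWithinAt c (Ioi t) t)
    (hK : Continuous (fun p : ℝ × ℝ × ℝ => K p.1 p.2.1 p.2.2))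
    (hK1 : Continuous (fun p : ℝ × ℝ × ℝ => K₁ p.1 p.2.1 p.2.2))
    (hK2 : Continuous (fun p : ℝ × ℝ × ℝ => K₂ p.1 p.2.1 p.2.2))
    (hb : ∀ r t x, |K r t x| ≤ C) (hb1 : ∀ r t x, |K₁ r t x| ≤ C) (hb2 : ∀ r t x, |K₂ r t x| ≤ C)
    (hdiag : ∀ r t x, r ≤ t → K r t x = K r r x)
    (ht : ∀ r t x, t < r → t ∈ Ico a b → HasDerivWithinAt (fun t => K r t x)
      (-(β ^ 2 * K₂ r t x + 2 * β ^ 2 * κ * u t x * K₁ r t x)) (Ici t) t)
    {t : ℝ} (htab : t ∈ Ico a b) (x : ℝ) :
    HasDerivWithinAt (fun t => DI a b c K t x)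
      (-(β ^ 2 * DI a b c K₂ t x + 2 * β ^ 2 * κ * u t x * DI a b c K₁ t x) - c t * K t t x)
      (Ici t) t := by
  have hC : 0 ≤ C := (abs_nonneg _).trans (hb 0 0 0)
  -- decomposition
  have hdec : ∀ t' ∈ Icc t b, DI a b c K t' x =
      (∫ r in Ioc a b, c r * K r t' x) - ∫ r in a..t', c r * K r r x := by
    intro t' ht'
    have hat' : a ≤ t' := htab.1.trans ht'.1
    have hm1 : Measurable fun r => c r * K r t' x :=
      hc.mul (hK.comp (by fun_prop : Continuous fun r : ℝ => (r, t', x))).measurable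
    have hi1 : Integrable (fun r => c r * K r t' x) (volume.restrict (Ioc a b)) := by
      refine Integrable.of_bound hm1.aestronglyMeasurable C (Eventually.of_forall fun r => ?_)
      rw [Real.norm_eq_abs, abs_mul]
      calc |c r| * |K r t' x| ≤ 1 * C := mul_le_mul (hc1 r) (hb r t' x) (abs_nonneg _) zero_le_one
        _ = C := one_mul C
    rw [intervalIntegral.integral_of_le hat']
    have h2 : ∫ r in Ioc a t', c r * K r r x = ∫ r in Ioc a t', c r * K r t' x := by
      refine setIntegral_congr_fun measurableSet_Ioc fun r hr => ?_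
      rw [hdiag r t' x hr.2]
    have h3 : Ioc a b = Ioc a t' ∪ Ioc t' b := (Ioc_union_Ioc_eq_Ioc hat' ht'.2).symm
    have h4 : ∫ r in Ioc a b, c r * K r t' x =
        (∫ r in Ioc a t', c r * K r t' x) + ∫ r in Ioc t' b, c r * K r t' x := by
      conv_lhs => rw [h3]
      rw [setIntegral_union (Ioc_disjoint_Ioc_of_le le_rfl) measurableSet_Ioc]
      · exact (show IntegrableOn _ (Ioc a b) volume from hi1).mono_set (Ioc_subset_Ioc_right ht'.2)
      · exact (show IntegrableOn _ (Ioc a b) volume from hi1).mono_set (Ioc_subset_Ioc_left hat')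
    have h5 : DI a b c K t' x = ∫ r in Ioc t' b, c r * K r t' x := by
      unfold DI
      have h6 : ∀ r, (if t' < r then c r * K r t' x else 0 : ℝ) =
          (Ioi t').indicator (fun r => c r * K r t' x) r := by
        intro r; simp [indicator, mem_Ioi]
      simp_rw [h6]
      rw [setIntegral_indicator measurableSet_Ioi]
      congr 2
      ext r
      simp only [mem_inter_iff, mem_Ioc, mem_Ioi]
      constructor
      · rintro ⟨⟨_, h⟩, h'⟩; exact ⟨h', h⟩
      · rintro ⟨h, h'⟩; exact ⟨⟨lt_of_le_of_lt hat' h, h'⟩, h⟩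
    rw [h5, h2, h4]; ring
  set δ := b - t with hδ
  have hδ0 : 0 < δ := sub_pos.2 htab.2
  -- the first part
  have hfirst : HasDerivWithinAt (fun t' => ∫ r in Ioc a b, c r * K r t' x)
      (∫ r in Ioc a b, (if t < r then
        c r * (-(β ^ 2 * K₂ r t x + 2 * β ^ 2 * κ * u t x * K₁ r t x)) else 0)) (Ici t) t := by
    refine hasDerivWithinAt_integral_right (L := β ^ 2 * C + 2 * β ^ 2 * C) hδ0 ?_ ?_ ?_
    · intro t' _
      have hm1 : Measurable fun r => c r * K r t' x :=
        hc.mul (hK.comp (by fun_prop : Continuous fun r : ℝ => (r, t', x))).measurable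
      refine Integrable.of_bound hm1.aestronglyMeasurable C (Eventually.of_forall fun r => ?_)
      rw [Real.norm_eq_abs, abs_mul]
      calc |c r| * |K r t' x| ≤ 1 * C := mul_le_mul (hc1 r) (hb r t' x) (abs_nonneg _) zero_le_one
        _ = C := one_mul C
    · refine Eventually.of_forall fun r t' ht' => ?_
      have ht'b : t' ≤ b := by have := ht'.2; rw [hδ] at this; linarith
      rw [← mul_sub, abs_mul]
      have h1 : |K r t' x - K r t x| ≤ (β ^ 2 * C + 2 * β ^ 2 * C) * (t' - t) := by
        have := norm_image_sub_le_of_norm_deriv_right_le_segment (f := fun s => K r s x)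
          (f' := fun s => if s < r then
            -(β ^ 2 * K₂ r s x + 2 * β ^ 2 * κ * u s x * K₁ r s x) else 0)
          (C := β ^ 2 * C + 2 * β ^ 2 * C) (a := t) (b := t') ?_ ?_ ?_ t' ⟨ht'.1.le, le_rfl⟩
        · simpa using this
        · exact (hK.comp (by fun_prop : Continuous fun s : ℝ => (r, s, x))).continuousOn
        · intro s hs
          have hsab : s ∈ Ico a b := ⟨htab.1.trans hs.1, lt_of_lt_of_le hs.2 ht'b⟩
          by_cases hsr : s < r
          · simp only [if_pos hsr]
            exact ht r s x hsr hsab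
          · simp only [if_neg hsr]
            push Not at hsr
            refine (hasDerivWithinAt_const s (Ici s) (K r r x)).congr (fun s' hs' => ?_) ?_
            · exact hdiag r s' x (hsr.trans hs')
            · exact hdiag r s x hsr
        · intro s hs
          have hsab : s ∈ Icc a b := ⟨htab.1.trans hs.1, hs.2.le.trans ht'b⟩
          by_cases hsr : s < r
          · simp only [if_pos hsr, Real.norm_eq_abs, abs_neg]
            refine (abs_add_le _ _).trans (add_le_add ?_ ?_)
            · rw [abs_mul, abs_of_nonneg (sq_nonneg β)]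
              exact mul_le_mul_of_nonneg_left (hb2 r s x) (sq_nonneg β)
            · rw [abs_mul, abs_mul, abs_mul, abs_of_nonneg (by positivity : 0 ≤ 2 * β ^ 2)]
              calc 2 * β ^ 2 * |κ| * |u s x| * |K₁ r s x| ≤ 2 * β ^ 2 * 1 * 1 * C := by
                    gcongr
                    · exact hu s hsab x
                    · exact hb1 r s x
                _ = _ := by ring
          · simp only [if_neg hsr, norm_zero]; positivity
      calc |c r| * |K r t' x - K r t x| ≤ 1 * ((β ^ 2 * C + 2 * β ^ 2 * C) * (t' - t)) :=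
            mul_le_mul (hc1 r) h1 (abs_nonneg _) zero_le_one
        _ = _ := one_mul _
    · refine Eventually.of_forall fun r => ?_
      by_cases hsr : t < r
      · simp only [if_pos hsr]
        exact (ht r t x hsr htab).const_mul (c r)
      · simp only [if_neg hsr]
        push Not at hsr
        refine (hasDerivWithinAt_const t (Ici t) (c r * K r r x)).congr (fun s' hs' => ?_) ?_
        · rw [hdiag r s' x (hsr.trans hs')]
        · rw [hdiag r t x hsr]
  -- the second part
  have hsecond : HasDerivWithinAt (fun t' => ∫ r in a..t', c r * K r r x) (c t * K t t x)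
      (Ici t) t := by
    have hm1 : Measurable fun r => c r * K r r x :=
      hc.mul (hK.comp (by fun_prop : Continuous fun r : ℝ => (r, r, x))).measurable
    refine intervalIntegral.integral_hasDerivWithinAt_right ?_ ?_ ?_ (t := Ioi t)
    · refine (intervalIntegrable_iff_integrableOn_Ioc_of_le htab.1).2 ?_
      refine Integrable.of_bound hm1.aestronglyMeasurable C (Eventually.of_forall fun r => ?_)
      rw [Real.norm_eq_abs, abs_mul]
      calc |c r| * |K r r x| ≤ 1 * C := mul_le_mul (hc1 r) (hb r r x) (abs_nonneg _) zero_le_one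
        _ = C := one_mul C
    · exact hm1.stronglyMeasurable.stronglyMeasurableAtFilter
    · exact (hcr t htab).mul
        (hK.comp (by fun_prop : Continuous fun r : ℝ => (r, r, x))).continuousWithinAt
  have hsum := hfirst.sub hsecond
  have hval : (∫ r in Ioc a b, (if t < r then
        c r * (-(β ^ 2 * K₂ r t x + 2 * β ^ 2 * κ * u t x * K₁ r t x)) else 0)) =
      -(β ^ 2 * DI a b c K₂ t x + 2 * β ^ 2 * κ * u t x * DI a b c K₁ t x) := by
    unfold DI
    rw [← integral_const_mul, ← integral_const_mul, ← integral_add, ← integral_neg]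
    · refine integral_congr_ae (Eventually.of_forall fun r => ?_)
      simp only
      split_ifs <;> ring
    · exact (DI_integrable hc hc1 hK2 hb2 t x).const_mul _
    · exact (DI_integrable hc hc1 hK1 hb1 t x).const_mul _
  rw [hval] at hsum
  -- transfer
  refine hsum.congr_of_eventuallyEq ?_ (hdec t ⟨le_rfl, htab.2.le⟩)
  filter_upwards [Icc_mem_nhdsGE htab.2] with t' ht'
  exact hdec t' ht'

end Pool.Agent.K7.H96.AT
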