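import Pool.Agent.K7.H96.AT.Delta

set_option autoImplicit false

/-!
# The de Almeida-Thouless condition implies that the Parisi measure is a point mass
-/

open MeasureTheory ProbabilityTheory Set Filter Topology

namespace Pool.Agent.K7.H96.AT

lemma integral_Ioc_pos {F : ℝ → ℝ} {a b c d : ℝ} (hF : IntegrableOn F (Ioc a b))
    (h0 : ∀ t ∈ Ioc a b, 0 ≤ F t) (hcd : c < d) (hsub : Ioo c d ⊆ Ioc a b)
    (hpos : ∀ t ∈ Ioo c d, 0 < F t) : 0 < ∫ t in Ioc a b, F t := by
  rw [setIntegral_pos_iff_support_of_nonneg_ae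
    ((ae_restrict_mem measurableSet_Ioc).mono fun t ht => h0 t ht) hF]
  have h1 : Ioo c d ⊆ Function.support F ∩ Ioc a b := fun t ht => ⟨(hpos t ht).ne', hsub ht⟩
  refine lt_of_lt_of_le ?_ (measure_mono h1)
  simp [hcd]

lemma measurable_Gam (β q h : ℝ) : Measurable (Gam β q h) := by
  refine Measurable.ite measurableSet_Iic (continuous_Gaml β q h).measurable ?_
  have := (continuous_ph_s h (2 * β ^ 2 * q)).comp
    (by fun_prop : Continuous fun r : ℝ => 2 * β ^ 2 * (r - q))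
  exact (continuous_const.sub this).measurable

lemma Gam_abs_le (β q h t : ℝ) : |Gam β q h t| ≤ 8 := by
  rcases le_or_gt t q with ht | ht
  · rw [Gam, if_pos ht]
    exact G_abs_le ((EGF_Q0 β q).single t) (Q0_abs_le β q t) _ _
  · rw [Gam, if_neg (not_le.2 ht)]
    have h2 : 0 ≤ 2 * β ^ 2 * (t - q) := mul_nonneg (by positivity) (by linarith)
    have h3 : |ph (2 * β ^ 2 * (t - q)) h (2 * β ^ 2 * q)| ≤ 1 :=
      G_abs_le (F := fun y => sech y * pp (2 * β ^ 2 * (t - q)) y)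
        (EGF_sech_pp.single (2 * β ^ 2 * (t - q))) (fun y => SS_abs_le h2 y) _ _
    rw [abs_le] at h3 ⊢
    constructor <;> linarith [h3.1, h3.2]

lemma integrableOn_Ioc_of_bd {F : ℝ → ℝ} {a b C : ℝ} (hF : Measurable F)
    (hb : ∀ t ∈ Ioc a b, |F t| ≤ C) : IntegrableOn F (Ioc a b) := by
  refine Measure.integrableOn_of_bounded (M := C) (by simp) hF.aestronglyMeasurable ?_
  filter_upwards [ae_restrict_mem measurableSet_Ioc] with t ht
  exact hb t ht

lemma eq_dirac_of_distr {μ : Measure ℝ} (hμ : OnUnit μ) {q : ℝ} (h0 : ∀ t, t < q → distr μ t = 0)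
    (h1 : ∀ t, q < t → distr μ t = 1) : μ = Measure.dirac q := by
  have := hμ.prob
  have h2 : distr μ q = 1 := by
    have h3 : Tendsto (distr μ) (𝓝[>] q) (𝓝 (distr μ q)) := distr_rc hμ q
    have h4 : Tendsto (distr μ) (𝓝[>] q) (𝓝 1) := by
      refine tendsto_const_nhds.congr' ?_
      filter_upwards [self_mem_nhdsWithin] with s hs
      exact (h1 s hs).symm
    exact tendsto_nhds_unique h3 h4
  refine Measure.ext_of_Iic μ (Measure.dirac q) fun t => ?_
  rw [← ENNReal.toReal_eq_toReal_iff' (measure_ne_top _ _) (measure_ne_top _ _)]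
  change distr μ t = distr (Measure.dirac q) t
  rw [distr_dirac]
  rcases lt_trichotomy t q with h | h | h
  · rw [if_neg (not_le.2 h), h0 t h]
  · rw [if_pos h.ge, h, h2]
  · rw [if_pos h.le, h1 t h]

variable {β h q : ℝ}

lemma overlap_mem (hq : G (fun y => Real.tanh y ^ 2) h (2 * β ^ 2 * q) = q) :
    q ∈ Ico (0 : ℝ) 1 := by
  constructor
  · rw [← hq]; exact G_nonneg (fun y => sq_nonneg _) _ _
  · have h1 := G_tanh_sq_eq h (2 * β ^ 2 * q)
    have h2 := G_pos (EG_sech_pow 2) (fun y => pow_pos (sech_pos y) 2) h (2 * β ^ 2 * q)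
    linarith

theorem at_forward (hβ : 0 < β) (hq : G (fun y => Real.tanh y ^ 2) h (2 * β ^ 2 * q) = q)
    (hAT : β ^ 2 * G (fun y => sech y ^ 4) h (2 * β ^ 2 * q) ≤ 1 / 2)
    {μ : Measure ℝ} (hμ : OnUnit μ) {f : ℝ → ℝ → ℝ} (hf : IsParisiSolution β μ f) :
    parisiValue β h (Measure.dirac q) (fD β q) ≤ parisiValue β h μ f ∧
      (parisiValue β h μ f ≤ parisiValue β h (Measure.dirac q) (fD β q) →
        μ = Measure.dirac q) := by
  have hq01 := overlap_mem hq
  have hmain := parisiValue_ge hβ hμ hf ⟨hq01.1, hq01.2.le⟩ h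
  have hβ2 : 0 < β ^ 2 := by positivity
  set P0 := parisiValue β h (Measure.dirac q) (fD β q)
  set P1 := parisiValue β h μ f
  have hW := Wt_distr hμ
  have hGm := measurable_Gam β q h
  have hL : ∀ t ∈ Ioo (0 : ℝ) q, 0 < Gam β q h t - t := by
    intro t ht
    rw [Gam, if_pos ht.2.le]
    exact sub_pos.2 (Gaml_gt hβ hq hAT ht.1.le ht.2)
  have hR : ∀ t, q < t → 0 < t - Gam β q h t := by
    intro t ht
    rw [Gam, if_neg (not_le.2 ht)]
    exact sub_pos.2 (GR_lt hβ hq hAT ht)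
  have hLq : Gam β q h q - q = 0 := by
    rw [Gam, if_pos le_rfl]
    have := Gaml_q β q h
    rw [hq] at this
    unfold Gaml at this
    rw [this, sub_self]
  have n1 : ∀ t ∈ Ioc (0 : ℝ) q, 0 ≤ distr μ t * (Gam β q h t - t) := by
    intro t ht
    rcases ht.2.eq_or_lt with h' | h'
    · rw [h', hLq, mul_zero]
    · exact mul_nonneg (hW.nonneg t) (hL t ⟨ht.1, h'⟩).le
  have n2 : ∀ t ∈ Ioc q 1, 0 ≤ (1 - distr μ t) * (t - Gam β q h t) := fun t ht =>
    mul_nonneg (hW.compl.nonneg t) (hR t ht.1).le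
  have i1 : IntegrableOn (fun t => distr μ t * (Gam β q h t - t)) (Ioc 0 q) := by
    refine integrableOn_Ioc_of_bd (C := 1 * 9) (hW.meas.mul (hGm.sub measurable_id)) fun t ht => ?_
    refine abs_mul_le' (hW.abs_le t) ?_
    have h3 := Gam_abs_le β q h t
    rw [abs_le] at h3 ⊢
    constructor <;> linarith [h3.1, h3.2, ht.1, ht.2, hq01.2]
  have i2 : IntegrableOn (fun t => (1 - distr μ t) * (t - Gam β q h t)) (Ioc q 1) := by
    refine integrableOn_Ioc_of_bd (C := 1 * 9) ((measurable_const.sub hW.meas).mul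
      (measurable_id.sub hGm)) fun t ht => ?_
    refine abs_mul_le' (hW.compl.abs_le t) ?_
    have h3 := Gam_abs_le β q h t
    rw [abs_le] at h3 ⊢
    constructor <;> linarith [h3.1, h3.2, ht.1, ht.2, hq01.1]
  have p1 : 0 ≤ ∫ t in Ioc 0 q, distr μ t * (Gam β q h t - t) :=
    setIntegral_nonneg measurableSet_Ioc n1
  have p2 : 0 ≤ ∫ t in Ioc q 1, (1 - distr μ t) * (t - Gam β q h t) :=
    setIntegral_nonneg measurableSet_Ioc n2
  refine ⟨by nlinarith, fun hle => ?_⟩
  refine eq_dirac_of_distr hμ (fun t ht => ?_) (fun t ht => ?_)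
  · by_contra hne
    have hpos : 0 < distr μ t := lt_of_le_of_ne (hW.nonneg t) (Ne.symm hne)
    have ht0 : 0 ≤ t := by
      by_contra h'
      exact hne (distr_of_neg hμ (not_le.1 h'))
    have h5 := integral_Ioc_pos i1 n1 ht (fun s hs => ⟨ht0.trans_lt hs.1, hs.2.le⟩) fun s hs =>
      mul_pos (lt_of_lt_of_le hpos (distr_mono hμ hs.1.le)) (hL s ⟨ht0.trans_lt hs.1, hs.2⟩)
    have h6 : 0 < β ^ 2 * ((∫ t in Ioc 0 q, distr μ t * (Gam β q h t - t)) +
        ∫ t in Ioc q 1, (1 - distr μ t) * (t - Gam β q h t)) := mul_pos hβ2 (by linarith)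
    linarith
  · by_contra hne
    have hlt : distr μ t < 1 := lt_of_le_of_ne (hW.le_one t) hne
    have ht1 : t < 1 := by
      by_contra h'
      exact hne (distr_of_one_le hμ (not_lt.1 h'))
    have h5 := integral_Ioc_pos i2 n2 ht (fun s hs => ⟨hs.1, hs.2.le.trans ht1.le⟩) fun s hs =>
      mul_pos (by have := distr_mono hμ hs.2.le; linarith) (hR s hs.1)
    have h6 : 0 < β ^ 2 * ((∫ t in Ioc 0 q, distr μ t * (Gam β q h t - t)) +
        ∫ t in Ioc q 1, (1 - distr μ t) * (t - Gam β q h t)) := mul_pos hβ2 (by linarith)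
    linarith

/-- Gaussian averages in the form of the statement -/
lemma gauss_form (hβ : 0 < β) (F : ℝ → ℝ) (h r : ℝ) :
    ∫ z, F (β * z * √(2 * r) + h) ∂(gaussianReal 0 1) = G F h (2 * β ^ 2 * r) := by
  unfold G
  have h1 : √(2 * β ^ 2 * r) = β * √(2 * r) := by
    rw [show 2 * β ^ 2 * r = β ^ 2 * (2 * r) by ring, Real.sqrt_mul (sq_nonneg β),
      Real.sqrt_sq hβ.le]
  rw [h1]
  refine integral_congr_ae (Eventually.of_forall fun z => ?_)
  simp only
  congr 1
  ring

/-- The de Almeida-Thouless condition implies that the point mass at `q` is the unique minimiser. -/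
theorem forward_direction (hβ : 0 < β) (hq : IsLargestOverlap β h q)
    (hAT : β ^ 2 * ∫ z, 1 / Real.cosh (β * z * √(2 * q) + h) ^ 4 ∂(gaussianReal 0 1) ≤ 1 / 2) :
    IsParisiMeasure β h (Measure.dirac q) ∧
      ∀ μ, IsParisiMeasure β h μ → μ = Measure.dirac q := by
  have hq1 : G (fun y => Real.tanh y ^ 2) h (2 * β ^ 2 * q) = q := by
    have := hq.1.2
    rw [gauss_form hβ (fun y => Real.tanh y ^ 2)] at this
    exact this.symm
  have hAT1 : β ^ 2 * G (fun y => sech y ^ 4) h (2 * β ^ 2 * q) ≤ 1 / 2 := by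
    rw [gauss_form hβ (fun y => 1 / Real.cosh y ^ 4)] at hAT
    have e : (fun y => 1 / Real.cosh y ^ 4) = fun y => sech y ^ 4 := by
      funext y; unfold sech; rw [inv_pow, one_div]
    rwa [e] at hAT
  have hq01 := overlap_mem hq1
  have hq01' : q ∈ Icc (0 : ℝ) 1 := ⟨hq01.1, hq01.2.le⟩
  refine ⟨⟨onUnit_dirac hq01', fD β q, fD_isParisiSolution hβ hq01', fun ν g hν hg => ?_⟩, ?_⟩
  · exact (at_forward hβ hq1 hAT1 hν hg).1
  · rintro μ ⟨hμ, f, hf, hmin⟩
    exact (at_forward hβ hq1 hAT1 hμ hf).2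
      (hmin _ _ (onUnit_dirac hq01') (fD_isParisiSolution hβ hq01'))

end Pool.Agent.K7.H96.AT
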