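import Mathlib

set_option autoImplicit false

/-!
# Gaussian averages

`G F x v` is the mean of `F (x + √v z)` for a standard Gaussian variable `z`.
-/

open MeasureTheory ProbabilityTheory Set Filter Topology

namespace Pool.Agent.K7.H96.AT

/-- the standard Gaussian measure -/
noncomputable abbrev γ : Measure ℝ := gaussianReal 0 1

/-- Gaussian average of `F (x + √v z)` -/
noncomputable def G (F : ℝ → ℝ) (x v : ℝ) : ℝ := ∫ z, F (x + √v * z) ∂γ

lemma int_exp_abs (a : ℝ) : Integrable (fun z : ℝ => Real.exp (a * |z|)) γ := by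
  have h1 : Integrable (fun z : ℝ => Real.exp (a * z) + Real.exp (-a * z)) γ :=
    (integrable_exp_mul_gaussianReal a).add (integrable_exp_mul_gaussianReal (-a))
  refine h1.mono' ?_ ?_
  · exact (by fun_prop : Continuous fun z : ℝ => Real.exp (a * |z|)).aestronglyMeasurable
  · refine Eventually.of_forall fun z => ?_
    rw [Real.norm_eq_abs, abs_of_pos (Real.exp_pos _)]
    rcases abs_cases z with ⟨h, -⟩ | ⟨h, -⟩ <;> rw [h]
    · linarith [Real.exp_pos (-a * z)]
    · rw [mul_neg, ← neg_mul]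
      linarith [Real.exp_pos (a * z)]

/-- a jointly continuous family of functions with locally uniform exponential growth -/
structure EGF {P : Type*} [TopologicalSpace P] (F : P → ℝ → ℝ) : Prop where
  cont : Continuous (fun q : P × ℝ => F q.1 q.2)
  bound : ∀ p₀ : P, ∃ C c : ℝ, 0 ≤ C ∧ 0 ≤ c ∧ ∀ᶠ p in 𝓝 p₀, ∀ y, |F p y| ≤ C * Real.exp (c * |y|)

/-- exponential growth of a single continuous function -/
structure EG (F : ℝ → ℝ) : Prop where
  cont : Continuous F
  bound : ∃ C c : ℝ, 0 ≤ C ∧ 0 ≤ c ∧ ∀ y, |F y| ≤ C * Real.exp (c * |y|)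

lemma EGF.const {P : Type*} [TopologicalSpace P] {F : ℝ → ℝ} (h : EG F) :
    EGF (fun _ : P => F) := by
  obtain ⟨C, c, hC, hc, hb⟩ := h.bound
  exact ⟨h.cont.comp continuous_snd, fun _ => ⟨C, c, hC, hc, Eventually.of_forall fun _ => hb⟩⟩

lemma EGF.single {P : Type*} [TopologicalSpace P] {F : P → ℝ → ℝ} (h : EGF F) (p : P) :
    EG (F p) := by
  obtain ⟨C, c, hC, hc, hb⟩ := h.bound p
  exact ⟨h.cont.comp (by fun_prop : Continuous fun y : ℝ => (p, y)), C, c, hC, hc, hb.self_of_nhds⟩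

lemma EGF.comp {P Q : Type*} [TopologicalSpace P] [TopologicalSpace Q] {F : P → ℝ → ℝ} (h : EGF F)
    {φ : Q → P} (hφ : Continuous φ) : EGF (fun q => F (φ q)) := by
  refine ⟨h.cont.comp (by fun_prop : Continuous fun q : Q × ℝ => (φ q.1, q.2)), fun q₀ => ?_⟩
  obtain ⟨C, c, hC, hc, hb⟩ := h.bound (φ q₀)
  exact ⟨C, c, hC, hc, hφ.continuousAt.eventually hb⟩

lemma EGF.mul {P : Type*} [TopologicalSpace P] {F H : P → ℝ → ℝ} (h : EGF F) (h' : EGF H) :
    EGF (fun p y => F p y * H p y) := by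
  refine ⟨h.cont.mul h'.cont, fun p₀ => ?_⟩
  obtain ⟨C, c, hC, hc, hb⟩ := h.bound p₀
  obtain ⟨C', c', hC', hc', hb'⟩ := h'.bound p₀
  refine ⟨C * C', c + c', by positivity, by positivity, ?_⟩
  filter_upwards [hb, hb'] with p h1 h2 y
  rw [abs_mul, add_mul, Real.exp_add]
  calc |F p y| * |H p y| ≤ (C * Real.exp (c * |y|)) * (C' * Real.exp (c' * |y|)) :=
        mul_le_mul (h1 y) (h2 y) (abs_nonneg _) (by positivity)
    _ = _ := by ring

lemma EGF.add {P : Type*} [TopologicalSpace P] {F H : P → ℝ → ℝ} (h : EGF F) (h' : EGF H) :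
    EGF (fun p y => F p y + H p y) := by
  refine ⟨h.cont.add h'.cont, fun p₀ => ?_⟩
  obtain ⟨C, c, hC, hc, hb⟩ := h.bound p₀
  obtain ⟨C', c', hC', hc', hb'⟩ := h'.bound p₀
  refine ⟨C + C', max c c', by positivity, by positivity, ?_⟩
  filter_upwards [hb, hb'] with p h1 h2 y
  have e1 : Real.exp (c * |y|) ≤ Real.exp (max c c' * |y|) :=
    Real.exp_le_exp.2 (mul_le_mul_of_nonneg_right (le_max_left _ _) (abs_nonneg _))
  have e2 : Real.exp (c' * |y|) ≤ Real.exp (max c c' * |y|) :=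
    Real.exp_le_exp.2 (mul_le_mul_of_nonneg_right (le_max_right _ _) (abs_nonneg _))
  calc |F p y + H p y| ≤ |F p y| + |H p y| := abs_add_le _ _
    _ ≤ C * Real.exp (c * |y|) + C' * Real.exp (c' * |y|) := add_le_add (h1 y) (h2 y)
    _ ≤ C * Real.exp (max c c' * |y|) + C' * Real.exp (max c c' * |y|) := by gcongr
    _ = _ := by ring

lemma EGF.of_bounded {P : Type*} [TopologicalSpace P] {F : P → ℝ → ℝ}
    (hc : Continuous (fun q : P × ℝ => F q.1 q.2)) (C : ℝ) (hb : ∀ p y, |F p y| ≤ C) :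
    EGF F := by
  refine ⟨hc, fun p₀ => ⟨|C|, 0, abs_nonneg _, le_refl _, Eventually.of_forall fun p y => ?_⟩⟩
  simp only [zero_mul, Real.exp_zero, mul_one]
  exact (hb p y).trans (le_abs_self C)

/-- a function of the parameter only -/
lemma EGF.param {P : Type*} [TopologicalSpace P] {φ : P → ℝ} (hφ : Continuous φ) :
    EGF (fun p (_ : ℝ) => φ p) := by
  refine ⟨hφ.comp continuous_fst, fun p₀ => ⟨|φ p₀| + 1, 0, by positivity, le_refl _, ?_⟩⟩
  have h := (hφ.abs.tendsto p₀).eventually (eventually_lt_nhds (lt_add_one |φ p₀|))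
  filter_upwards [h] with p hp y
  simp only [zero_mul, Real.exp_zero, mul_one]
  exact hp.le

lemma EG.of_bounded {F : ℝ → ℝ} (hc : Continuous F) (C : ℝ) (hb : ∀ y, |F y| ≤ C) : EG F := by
  refine ⟨hc, |C|, 0, abs_nonneg _, le_refl _, fun y => ?_⟩
  simp only [zero_mul, Real.exp_zero, mul_one]
  exact (hb y).trans (le_abs_self C)

lemma EG.toF {F : ℝ → ℝ} (h : EG F) : EGF (fun _ : Unit => F) := EGF.const h

lemma EG.mul {F H : ℝ → ℝ} (h : EG F) (h' : EG H) : EG (fun y => F y * H y) :=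
  ((EGF.const (P := Unit) h).mul (EGF.const h')).single ()

lemma EG.add {F H : ℝ → ℝ} (h : EG F) (h' : EG H) : EG (fun y => F y + H y) :=
  ((EGF.const (P := Unit) h).add (EGF.const h')).single ()

lemma EG.const (c : ℝ) : EG (fun _ => c) := EG.of_bounded continuous_const |c| fun _ => le_rfl

lemma EG.const_mul {F : ℝ → ℝ} (h : EG F) (c : ℝ) : EG (fun y => c * F y) := (EG.const c).mul h

lemma EG.neg {F : ℝ → ℝ} (h : EG F) : EG (fun y => - F y) := by
  have := h.const_mul (-1)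
  simpa using this

lemma EG.sub {F H : ℝ → ℝ} (h : EG F) (h' : EG H) : EG (fun y => F y - H y) := by
  simpa [sub_eq_add_neg] using h.add h'.neg

lemma EG.id : EG (fun y => y) := by
  refine ⟨continuous_id, 1, 1, zero_le_one, zero_le_one, fun y => ?_⟩
  rw [one_mul, one_mul]
  linarith [Real.add_one_le_exp |y|]

lemma EG.exp (c : ℝ) : EG (fun y => Real.exp (c * y)) := by
  refine ⟨by fun_prop, 1, |c|, zero_le_one, abs_nonneg _, fun y => ?_⟩
  rw [one_mul, abs_of_pos (Real.exp_pos _), Real.exp_le_exp, ← abs_mul]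
  exact le_abs_self _

/-- the shifted argument has exponential growth in `z`, locally uniformly in all parameters -/
lemma EGF.shift {P : Type*} [TopologicalSpace P] {F : P → ℝ → ℝ} (h : EGF F) :
    EGF (fun (q : P × ℝ × ℝ) z => F q.1 (q.2.1 + √q.2.2 * z)) := by
  refine ⟨?_, fun q₀ => ?_⟩
  · exact h.cont.comp (by fun_prop : Continuous fun r : (P × ℝ × ℝ) × ℝ =>
      (r.1.1, r.1.2.1 + √r.1.2.2 * r.2))
  · obtain ⟨C, c, hC, hc, hb⟩ := h.bound q₀.1
    refine ⟨C * Real.exp (c * (|q₀.2.1| + 1)), c * (√q₀.2.2 + 1), by positivity, by positivity, ?_⟩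
    have h1 : ∀ᶠ q : P × ℝ × ℝ in 𝓝 q₀, ∀ y, |F q.1 y| ≤ C * Real.exp (c * |y|) :=
      continuousAt_fst.eventually hb
    have h2 : ∀ᶠ q : P × ℝ × ℝ in 𝓝 q₀, |q.2.1| < |q₀.2.1| + 1 :=
      ((by fun_prop : Continuous fun q : P × ℝ × ℝ => |q.2.1|).tendsto q₀).eventually
        (eventually_lt_nhds (lt_add_one _))
    have h3 : ∀ᶠ q : P × ℝ × ℝ in 𝓝 q₀, √q.2.2 < √q₀.2.2 + 1 :=
      ((by fun_prop : Continuous fun q : P × ℝ × ℝ => √q.2.2).tendsto q₀).eventually
        (eventually_lt_nhds (lt_add_one _))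
    filter_upwards [h1, h2, h3] with q e1 e2 e3 z
    refine (e1 _).trans ?_
    rw [mul_assoc, ← Real.exp_add]
    refine mul_le_mul_of_nonneg_left (Real.exp_le_exp.2 ?_) hC
    have e4 : |q.2.1 + √q.2.2 * z| ≤ |q.2.1| + √q.2.2 * |z| := by
      refine (abs_add_le _ _).trans ?_
      rw [abs_mul, abs_of_nonneg (Real.sqrt_nonneg _)]
    calc c * |q.2.1 + √q.2.2 * z| ≤ c * (|q.2.1| + √q.2.2 * |z|) := by gcongr
      _ ≤ c * ((|q₀.2.1| + 1) + (√q₀.2.2 + 1) * |z|) := by gcongr
      _ = _ := by ring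

lemma EG.integrable {F : ℝ → ℝ} (h : EG F) : Integrable F γ := by
  obtain ⟨C, c, hC, hc, hb⟩ := h.bound
  refine ((int_exp_abs c).const_mul C).mono' h.cont.aestronglyMeasurable ?_
  exact Eventually.of_forall fun z => hb z

lemma EG.shift {F : ℝ → ℝ} (h : EG F) (x v : ℝ) : EG (fun z => F (x + √v * z)) :=
  (h.toF.shift).single ((), x, v)

lemma EG.integrable_shift {F : ℝ → ℝ} (h : EG F) (x v : ℝ) :
    Integrable (fun z => F (x + √v * z)) γ := (h.shift x v).integrable

/-- joint continuity of the integral of a family -/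
lemma EGF.continuous_integral {P : Type*} [TopologicalSpace P] [FirstCountableTopology P]
    {F : P → ℝ → ℝ} (h : EGF F) : Continuous (fun p => ∫ z, F p z ∂γ) := by
  rw [continuous_iff_continuousAt]
  intro p₀
  obtain ⟨C, c, hC, hc, hb⟩ := h.bound p₀
  refine continuousAt_of_dominated (bound := fun z => C * Real.exp (c * |z|)) ?_ ?_ ?_ ?_
  · exact Eventually.of_forall fun p => (h.single p).cont.aestronglyMeasurable
  · filter_upwards [hb] with p hp
    exact Eventually.of_forall fun z => hp z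
  · exact (int_exp_abs c).const_mul C
  · refine Eventually.of_forall fun z => ?_
    exact (h.cont.comp (by fun_prop : Continuous fun p : P => (p, z))).continuousAt

lemma EGF.continuous_G {P : Type*} [TopologicalSpace P] [FirstCountableTopology P]
    {F : P → ℝ → ℝ} (h : EGF F) : Continuous (fun q : P × ℝ × ℝ => G (F q.1) q.2.1 q.2.2) :=
  h.shift.continuous_integral

lemma EG.continuous_G {F : ℝ → ℝ} (h : EG F) : Continuous (fun q : ℝ × ℝ => G F q.1 q.2) :=
  h.toF.continuous_G.comp (by fun_prop : Continuous fun q : ℝ × ℝ => ((), q.1, q.2))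

/-- the Gaussian averages form again a family of exponential growth -/
lemma EGF.G {P : Type*} [TopologicalSpace P] [FirstCountableTopology P]
    {F : P → ℝ → ℝ} (h : EGF F) : EGF (fun (q : P × ℝ) x => G (F q.1) x q.2) := by
  refine ⟨?_, fun q₀ => ?_⟩
  · exact h.continuous_G.comp (by fun_prop : Continuous fun r : (P × ℝ) × ℝ =>
      (r.1.1, r.2, r.1.2))
  · obtain ⟨C, c, hC, hc, hb⟩ := h.bound q₀.1
    set K := ∫ z, Real.exp (c * (√q₀.2 + 1) * |z|) ∂γ with hK
    have hK0 : 0 ≤ K := integral_nonneg fun z => (Real.exp_pos _).le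
    refine ⟨C * K, c, by positivity, hc, ?_⟩
    have h1 : ∀ᶠ q : P × ℝ in 𝓝 q₀, ∀ y, |F q.1 y| ≤ C * Real.exp (c * |y|) :=
      continuousAt_fst.eventually hb
    have h3 : ∀ᶠ q : P × ℝ in 𝓝 q₀, √q.2 < √q₀.2 + 1 :=
      ((by fun_prop : Continuous fun q : P × ℝ => √q.2).tendsto q₀).eventually
        (eventually_lt_nhds (lt_add_one _))
    filter_upwards [h1, h3] with q e1 e3 x
    have e5 : ∀ z, |F q.1 (x + √q.2 * z)| ≤ C * Real.exp (c * |x|) *
        Real.exp (c * (√q₀.2 + 1) * |z|) := by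
      intro z
      refine (e1 _).trans ?_
      rw [mul_assoc C, ← Real.exp_add]
      refine mul_le_mul_of_nonneg_left (Real.exp_le_exp.2 ?_) hC
      have e4 : |x + √q.2 * z| ≤ |x| + √q.2 * |z| := by
        refine (abs_add_le _ _).trans ?_
        rw [abs_mul, abs_of_nonneg (Real.sqrt_nonneg _)]
      calc c * |x + √q.2 * z| ≤ c * (|x| + √q.2 * |z|) := by gcongr
        _ ≤ c * (|x| + (√q₀.2 + 1) * |z|) := by gcongr
        _ = _ := by ring
    unfold AT.G
    calc |∫ z, F q.1 (x + √q.2 * z) ∂γ| ≤ ∫ z, |F q.1 (x + √q.2 * z)| ∂γ := abs_integral_le_integral_abs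
      _ ≤ ∫ z, C * Real.exp (c * |x|) * Real.exp (c * (√q₀.2 + 1) * |z|) ∂γ :=
          integral_mono ((h.single q.1).integrable_shift x q.2).abs
            ((int_exp_abs _).const_mul _) e5
      _ = C * K * Real.exp (c * |x|) := by rw [integral_const_mul]; ring

lemma EG.G {F : ℝ → ℝ} (h : EG F) : EGF (fun v x => G F x v) :=
  h.toF.G.comp (by fun_prop : Continuous fun v : ℝ => ((), v))

lemma EG.G' {F : ℝ → ℝ} (h : EG F) (v : ℝ) : EG (fun x => AT.G F x v) := h.G.single v

end Pool.Agent.K7.H96.AT
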