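import Pool.Agent.K7.H96.AT.Gauss

set_option autoImplicit false

/-!
# Calculus for Gaussian averages
-/

open MeasureTheory ProbabilityTheory Set Filter Topology
open scoped Measure

namespace Pool.Agent.K7.H96.AT

variable {F F' F'' H : ℝ → ℝ}

lemma G_of_nonpos (F : ℝ → ℝ) (x : ℝ) {v : ℝ} (hv : v ≤ 0) : G F x v = F x := by
  unfold G
  simp [Real.sqrt_eq_zero_of_nonpos hv]

@[simp] lemma G_zero (F : ℝ → ℝ) (x : ℝ) : G F x 0 = F x := G_of_nonpos F x le_rfl

lemma G_const (c x v : ℝ) : G (fun _ => c) x v = c := by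
  unfold G
  simp

lemma G_add (hF : EG F) (hH : EG H) (x v : ℝ) :
    G (fun y => F y + H y) x v = G F x v + G H x v :=
  integral_add (hF.integrable_shift x v) (hH.integrable_shift x v)

lemma G_sub (hF : EG F) (hH : EG H) (x v : ℝ) :
    G (fun y => F y - H y) x v = G F x v - G H x v :=
  integral_sub (hF.integrable_shift x v) (hH.integrable_shift x v)

lemma G_const_mul (c : ℝ) (F : ℝ → ℝ) (x v : ℝ) :
    G (fun y => c * F y) x v = c * G F x v := integral_const_mul _ _

lemma G_neg (F : ℝ → ℝ) (x v : ℝ) : G (fun y => - F y) x v = - G F x v := integral_neg _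

lemma G_mono (hF : EG F) (hH : EG H) (h : ∀ y, F y ≤ H y) (x v : ℝ) : G F x v ≤ G H x v :=
  integral_mono (hF.integrable_shift x v) (hH.integrable_shift x v) fun _ => h _

lemma G_nonneg (h : ∀ y, 0 ≤ F y) (x v : ℝ) : 0 ≤ G F x v := integral_nonneg fun _ => h _

lemma G_pos (hF : EG F) (h : ∀ y, 0 < F y) (x v : ℝ) : 0 < G F x v := by
  unfold G
  rw [integral_pos_iff_support_of_nonneg (fun z => (h _).le) (hF.integrable_shift x v)]
  have : Function.support (fun z => F (x + √v * z)) = univ := by
    ext z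
    simp [(h (x + √v * z)).ne']
  rw [this]
  simp

lemma G_le_const (hF : EG F) {C : ℝ} (h : ∀ y, F y ≤ C) (x v : ℝ) : G F x v ≤ C := by
  have := G_mono hF (EG.const C) h x v
  rwa [G_const] at this

lemma const_le_G (hF : EG F) {C : ℝ} (h : ∀ y, C ≤ F y) (x v : ℝ) : C ≤ G F x v := by
  have := G_mono (EG.const C) hF h x v
  rwa [G_const] at this

lemma G_abs_le (hF : EG F) {C : ℝ} (h : ∀ y, |F y| ≤ C) (x v : ℝ) : |G F x v| ≤ C :=
  abs_le.2 ⟨const_le_G hF (fun y => (abs_le.1 (h y)).1) x v,
    G_le_const hF (fun y => (abs_le.1 (h y)).2) x v⟩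

/-- reflection -/
lemma gint_neg (F : ℝ → ℝ) : ∫ z, F (-z) ∂γ = ∫ z, F z ∂γ := by
  have h : (γ).map (fun x => -x) = γ := by
    rw [gaussianReal_map_neg, neg_zero]
  have h2 : ∫ z, F z ∂(γ.map (fun x => -x)) = ∫ z, F (-z) ∂γ :=
    integral_map_equiv (MeasurableEquiv.neg ℝ) F
  rw [h] at h2
  exact h2.symm

lemma G_reflect (F : ℝ → ℝ) (x v : ℝ) : G F (-x) v = G (fun y => F (-y)) x v := by
  unfold G
  rw [← gint_neg]
  refine integral_congr_ae (Eventually.of_forall fun z => ?_)
  simp only
  congr 1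
  ring

lemma G_even (h : ∀ y, F (-y) = F y) (x v : ℝ) : G F (-x) v = G F x v := by
  rw [G_reflect]
  simp only [h]

lemma G_odd (h : ∀ y, F (-y) = - F y) (x v : ℝ) : G F (-x) v = - G F x v := by
  rw [G_reflect]
  simp only [h]
  exact G_neg F x v

lemma pdf_eq (z : ℝ) : gaussianPDFReal 0 1 z = (√(2 * Real.pi))⁻¹ * Real.exp (-z ^ 2 / 2) := by
  simp [gaussianPDFReal]

lemma gint_eq (F : ℝ → ℝ) : ∫ z, F z ∂γ = ∫ z, gaussianPDFReal 0 1 z * F z :=
  integral_gaussianReal_eq_integral_smul one_ne_zero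

lemma integrable_pdf_mul (h : Integrable F γ) :
    Integrable (fun z => gaussianPDFReal 0 1 z * F z) := by
  unfold γ at h
  rw [gaussianReal_of_var_ne_zero 0 one_ne_zero] at h
  have h2 := (integrable_withDensity_iff_integrable_smul' (measurable_gaussianPDF 0 1)
    (Eventually.of_forall fun _ => gaussianPDF_lt_top)).1 h
  refine h2.congr (Eventually.of_forall fun z => ?_)
  simp [toReal_gaussianPDF]

lemma hasDerivAt_pdf (z : ℝ) :
    HasDerivAt (gaussianPDFReal 0 1) (gaussianPDFReal 0 1 z * (-z)) z := by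
  have h1 : HasDerivAt (fun z : ℝ => (√(2 * Real.pi))⁻¹ * Real.exp (-z ^ 2 / 2))
      ((√(2 * Real.pi))⁻¹ * (Real.exp (-z ^ 2 / 2) * (-z))) z := by
    refine HasDerivAt.const_mul _ (HasDerivAt.exp ?_)
    have := (((hasDerivAt_pow 2 z).neg).div_const 2)
    refine this.congr_deriv ?_
    simp; ring
  have h2 : (gaussianPDFReal 0 1) = fun z : ℝ => (√(2 * Real.pi))⁻¹ * Real.exp (-z ^ 2 / 2) := by
    funext z; exact pdf_eq z
  rw [h2]
  refine h1.congr_deriv ?_
  ring

/-- Gaussian integration by parts -/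
lemma ibp (hF : EG F) (hF' : EG F') (h : ∀ y, HasDerivAt F (F' y) y) :
    ∫ z, z * F z ∂γ = ∫ z, F' z ∂γ := by
  rw [gint_eq, gint_eq]
  have h1 := integral_mul_deriv_eq_deriv_mul_of_integrable (u := F) (v := gaussianPDFReal 0 1)
    (u' := F') (v' := fun z => gaussianPDFReal 0 1 z * (-z)) (fun x _ => h x)
    (fun x _ => hasDerivAt_pdf x) ?_ ?_ ?_
  · have e1 : ∀ z, gaussianPDFReal 0 1 z * (z * F z) = - (F z * (gaussianPDFReal 0 1 z * (-z))) := by
      intro z; ring
    simp_rw [e1]
    rw [integral_neg, h1, neg_neg]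
    exact integral_congr_ae (Eventually.of_forall fun z => by simp [mul_comm])
  · refine (integrable_pdf_mul ((EG.id.mul hF).neg).integrable).congr
      (Eventually.of_forall fun z => ?_)
    simp only [Pi.mul_apply]; ring
  · refine (integrable_pdf_mul hF'.integrable).congr (Eventually.of_forall fun z => ?_)
    simp only [Pi.mul_apply]; ring
  · refine (integrable_pdf_mul hF.integrable).congr (Eventually.of_forall fun z => ?_)
    simp only [Pi.mul_apply]; ring

/-- shift of the Gaussian measure -/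
lemma gint_shift (F : ℝ → ℝ) (a : ℝ) :
    ∫ z, F (z + a) ∂γ = Real.exp (-a ^ 2 / 2) * ∫ z, Real.exp (a * z) * F z ∂γ := by
  rw [gint_eq, gint_eq, ← integral_const_mul,
    ← integral_add_right_eq_self (μ := volume) (fun z => Real.exp (-a ^ 2 / 2) *
      (gaussianPDFReal 0 1 z * (Real.exp (a * z) * F z))) a]
  refine integral_congr_ae (Eventually.of_forall fun z => ?_)
  simp only [pdf_eq]
  have : Real.exp (-z ^ 2 / 2) = Real.exp (-a ^ 2 / 2) * (Real.exp (-(z + a) ^ 2 / 2) *
      Real.exp (a * (z + a))) := by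
    rw [← Real.exp_add, ← Real.exp_add]
    congr 1; ring
  rw [this]; ring

/-- change of the centre of a Gaussian average -/
lemma G_tilt (F : ℝ → ℝ) (h : ℝ) {v : ℝ} (hv : 0 < v) :
    G F h v = Real.exp (-h ^ 2 / (2 * v)) * G (fun y => Real.exp (h * y / v) * F y) 0 v := by
  unfold G
  have hs : √v ≠ 0 := (Real.sqrt_pos.2 hv).ne'
  have hs2 : √v * √v = v := Real.mul_self_sqrt hv.le
  have h1 := gint_shift (fun z => F (√v * z)) (h / √v)
  have e1 : ∀ z : ℝ, √v * (z + h / √v) = h + √v * z := by
    intro z; field_simp; ring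
  simp only [e1] at h1
  rw [h1]
  congr 1
  · congr 1
    rw [div_pow, sq (√v), hs2]; ring
  · refine integral_congr_ae (Eventually.of_forall fun z => ?_)
    simp only [zero_add]
    congr 2
    field_simp
    rw [show √v ^ 2 = v by rw [sq, hs2]]
    ring

/-- derivative in the space variable -/
lemma hasDerivAt_G (hF : EG F) (hF' : EG F') (h : ∀ y, HasDerivAt F (F' y) y) (x v : ℝ) :
    HasDerivAt (fun x => G F x v) (G F' x v) x := by
  obtain ⟨C, c, hC, hc, hb⟩ := (hF'.toF.shift).bound ((), x, v)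
  have hU : {x' : ℝ | ∀ z, |F' (x' + √v * z)| ≤ C * Real.exp (c * |z|)} ∈ 𝓝 x := by
    have := (by fun_prop : Continuous fun x' : ℝ => (((), x', v) : Unit × ℝ × ℝ)).continuousAt
      (x := x) |>.eventually hb
    exact this
  refine (hasDerivAt_integral_of_dominated_loc_of_deriv_le (μ := γ) (s := _)
    (F := fun x' z => F (x' + √v * z)) (F' := fun x' z => F' (x' + √v * z))
    (bound := fun z => C * Real.exp (c * |z|)) hU ?_ ?_ ?_ ?_ ?_ ?_).2
  · exact Eventually.of_forall fun x' => (hF.shift x' v).cont.aestronglyMeasurable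
  · exact hF.integrable_shift x v
  · exact (hF'.shift x v).cont.aestronglyMeasurable
  · exact Eventually.of_forall fun z x' hx' => hx' z
  · exact (int_exp_abs c).const_mul C
  · refine Eventually.of_forall fun z x' _ => ?_
    have := (h (x' + √v * z)).comp x' ((hasDerivAt_id x').add_const (√v * z))
    simpa [Function.comp_def] using this

lemma gint_z_mul (hF : EG F) (hF' : EG F') (h : ∀ y, HasDerivAt F (F' y) y) (x v : ℝ) :
    ∫ z, z * F (x + √v * z) ∂γ = √v * G F' x v := by
  unfold G
  rw [← integral_const_mul]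
  refine ibp (hF.shift x v) (((hF'.shift x v)).const_mul (√v)) fun z => ?_
  have := (h (x + √v * z)).comp z (((hasDerivAt_id z).const_mul (√v)).const_add x)
  simpa [mul_comm, Function.comp_def] using this

/-- derivative in the variance -/
lemma hasDerivAt_G_v (hF : EG F) (hF' : EG F') (hF'' : EG F'') (h : ∀ y, HasDerivAt F (F' y) y)
    (h' : ∀ y, HasDerivAt F' (F'' y) y) (x : ℝ) {v : ℝ} (hv : 0 < v) :
    HasDerivAt (fun v => G F x v) (1 / 2 * G F'' x v) v := by
  have hs : 0 < √v := Real.sqrt_pos.2 hv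
  obtain ⟨C, c, hC, hc, hb⟩ := (hF'.toF.shift).bound ((), x, v)
  have h1 : ∀ᶠ v' in 𝓝 v, ∀ z, |F' (x + √v' * z)| ≤ C * Real.exp (c * |z|) :=
    (by fun_prop : Continuous fun v' : ℝ => (((), x, v') : Unit × ℝ × ℝ)).continuousAt
      (x := v) |>.eventually hb
  have h2 : ∀ᶠ v' in 𝓝 v, √v / 2 < √v' :=
    (Real.continuous_sqrt.tendsto v).eventually (eventually_gt_nhds (by linarith))
  have key := (hasDerivAt_integral_of_dominated_loc_of_deriv_le (μ := γ)
    (s := {v' | (∀ z, |F' (x + √v' * z)| ≤ C * Real.exp (c * |z|)) ∧ √v / 2 < √v'})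
    (x₀ := v)
    (F := fun v' z => F (x + √v' * z)) (F' := fun v' z => 1 / (2 * √v') * (z * F' (x + √v' * z)))
    (bound := fun z => 1 / √v * (|z| * (C * Real.exp (c * |z|)))) (h1.and h2) ?_ ?_ ?_ ?_ ?_ ?_).2
  · refine key.congr_deriv ?_
    rw [integral_const_mul, gint_z_mul hF' hF'' h' x v]
    field_simp
  · exact Eventually.of_forall fun v' => (hF.shift x v').cont.aestronglyMeasurable
  · exact hF.integrable_shift x v
  · exact ((EG.id.mul (hF'.shift x v)).const_mul _).cont.aestronglyMeasurable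
  · refine Eventually.of_forall fun z v' hv' => ?_
    have hv1 : 0 < √v' := lt_trans (by positivity) hv'.2
    rw [Real.norm_eq_abs, abs_mul, abs_mul, abs_of_pos (by positivity : 0 < 1 / (2 * √v'))]
    have h3 : 1 / (2 * √v') ≤ 1 / √v := by
      apply one_div_le_one_div_of_le hs
      linarith [hv'.2]
    exact mul_le_mul h3 (mul_le_mul_of_nonneg_left (hv'.1 z) (abs_nonneg _)) (by positivity)
      (by positivity)
  · have h4 : EG (fun z : ℝ => |z| * (C * Real.exp (c * |z|))) := by
      refine ⟨by fun_prop, C, c + 1, hC, by positivity, fun y => ?_⟩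
      rw [abs_of_nonneg (by positivity), add_mul, Real.exp_add]
      have := Real.add_one_le_exp |y|
      have h5 : |y| ≤ Real.exp (1 * |y|) := by rw [one_mul]; linarith
      calc |y| * (C * Real.exp (c * |y|)) ≤ Real.exp (1 * |y|) * (C * Real.exp (c * |y|)) := by
            gcongr
        _ = _ := by ring
    exact (h4.const_mul _).integrable
  · refine Eventually.of_forall fun z v' hv' => ?_
    have hv1 : 0 < √v' := lt_trans (by positivity) hv'.2
    have hv2 : v' ≠ 0 := by
      intro h0; rw [h0, Real.sqrt_zero] at hv1; exact lt_irrefl _ hv1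
    have h3 : HasDerivAt (fun v' => x + √v' * z) (1 / (2 * √v') * z) v' :=
      ((Real.hasDerivAt_sqrt hv2).mul_const z).const_add x
    have := (h (x + √v' * z)).comp v' h3
    refine this.congr_deriv ?_
    ring

/-- `G` in terms of the Gaussian law with variance `v` -/
lemma G_eq_gaussian (F : ℝ → ℝ) (x v : ℝ) :
    G F x v = ∫ y, F (x + y) ∂(gaussianReal 0 v.toNNReal) := by
  have h1 : (γ).map (fun z => √v * z) = gaussianReal 0 v.toNNReal := by
    rw [gaussianReal_map_const_mul]
    congr 1
    · simp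
    · rw [mul_one]
      ext
      simp only [NNReal.coe_mk, Real.coe_toNNReal']
      rcases le_total 0 v with h | h
      · rw [Real.sq_sqrt h, max_eq_left h]
      · rw [Real.sqrt_eq_zero_of_nonpos h, max_eq_right h]; simp
  unfold G
  rw [← h1]
  rcases eq_or_ne (√v) 0 with h | h
  · simp only [h, zero_mul, Measure.map_const, measure_univ, one_smul, integral_dirac]
    simp
  · exact (integral_map_equiv (MeasurableEquiv.mulLeft₀ (√v) h) (fun y => F (x + y))).symm

/-- semigroup property -/
lemma G_G (hF : EG F) (x : ℝ) {v w : ℝ} (hv : 0 ≤ v) (hw : 0 ≤ w) :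
    G (fun y => G F y w) x v = G F x (v + w) := by
  have hconv : (gaussianReal 0 v.toNNReal) ∗ (gaussianReal 0 w.toNNReal) =
      gaussianReal 0 (v + w).toNNReal := by
    rw [gaussianReal_conv_gaussianReal, add_zero, Real.toNNReal_add hv hw]
  have hint : Integrable (fun y => F (x + y))
      ((gaussianReal 0 v.toNNReal) ∗ (gaussianReal 0 w.toNNReal)) := by
    rw [hconv]
    have h1 : (γ).map (fun z => √(v + w) * z) = gaussianReal 0 (v + w).toNNReal := by
      rw [gaussianReal_map_const_mul]
      congr 1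
      · simp
      · rw [mul_one]
        ext
        simp only [NNReal.coe_mk, Real.coe_toNNReal']
        rw [Real.sq_sqrt (by positivity), max_eq_left (by positivity)]
    rw [← h1]
    refine (integrable_map_measure ?_ (by fun_prop)).2 ?_
    · exact (hF.cont.comp (by fun_prop : Continuous fun y : ℝ => x + y)).aestronglyMeasurable
    · exact hF.integrable_shift x (v + w)
  rw [G_eq_gaussian, G_eq_gaussian F x (v + w), ← hconv, integral_conv hint]
  refine integral_congr_ae (Eventually.of_forall fun y => ?_)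
  simp only
  rw [G_eq_gaussian]
  simp only [add_assoc]

end Pool.Agent.K7.H96.AT
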