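import Pool.Agent.K7.H96.AT.Gauss2

set_option autoImplicit false

/-!
# The inequality behind the de Almeida-Thouless line
-/

open MeasureTheory ProbabilityTheory Set Filter Topology

namespace Pool.Agent.K7.H96.AT

variable {F F' F'' H : ℝ → ℝ}

/-- hyperbolic secant -/
noncomputable def sech (x : ℝ) : ℝ := (Real.cosh x)⁻¹

lemma sech_pos (x : ℝ) : 0 < sech x := inv_pos.2 (Real.cosh_pos x)

lemma sech_le_one (x : ℝ) : sech x ≤ 1 := inv_le_one_of_one_le₀ (Real.one_le_cosh x)

lemma sech_neg (x : ℝ) : sech (-x) = sech x := by unfold sech; rw [Real.cosh_neg]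

lemma cosh_mul_sech (x : ℝ) : Real.cosh x * sech x = 1 :=
  mul_inv_cancel₀ (Real.cosh_pos x).ne'

lemma continuous_sech : Continuous sech :=
  Real.continuous_cosh.inv₀ fun x => (Real.cosh_pos x).ne'

lemma tanh_eq (x : ℝ) : Real.tanh x = Real.sinh x * sech x := by
  rw [Real.tanh_eq_sinh_div_cosh, sech, div_eq_mul_inv]

lemma tanh_sq (x : ℝ) : Real.tanh x ^ 2 = 1 - sech x ^ 2 := by
  have h1 := cosh_mul_sech x
  have h2 := Real.cosh_sq x
  rw [tanh_eq, mul_pow, show Real.sinh x ^ 2 = Real.cosh x ^ 2 - 1 by linarith]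
  have : (Real.cosh x * sech x) ^ 2 = 1 := by rw [h1]; norm_num
  rw [mul_pow] at this
  linarith [this]

lemma continuous_tanh : Continuous Real.tanh := by
  have : Real.tanh = fun x => Real.sinh x * sech x := funext tanh_eq
  rw [this]
  exact Real.continuous_sinh.mul continuous_sech

lemma abs_tanh_lt_one (x : ℝ) : |Real.tanh x| < 1 := by
  rw [← sq_lt_one_iff_abs_lt_one, tanh_sq]
  have := pow_pos (sech_pos x) 2
  linarith

lemma abs_tanh_le_one (x : ℝ) : |Real.tanh x| ≤ 1 := (abs_tanh_lt_one x).le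

lemma hasDerivAt_sech (x : ℝ) : HasDerivAt sech (-(sech x * Real.tanh x)) x := by
  have h := (Real.hasDerivAt_cosh x).inv (Real.cosh_pos x).ne'
  refine h.congr_deriv ?_
  rw [tanh_eq]; unfold sech
  field_simp

lemma hasDerivAt_tanh (x : ℝ) : HasDerivAt Real.tanh (sech x ^ 2) x := by
  have : Real.tanh = fun x => Real.sinh x * sech x := funext tanh_eq
  rw [this]
  have h := (Real.hasDerivAt_sinh x).mul (hasDerivAt_sech x)
  refine h.congr_deriv ?_
  have h1 := cosh_mul_sech x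
  have h2 := tanh_sq x
  rw [tanh_eq] at h2 ⊢
  have : Real.sinh x * -(sech x * (Real.sinh x * sech x)) = - (Real.sinh x * sech x) ^ 2 := by ring
  rw [this, h2, h1]; ring

lemma hasDerivAt_sech_pow (n : ℕ) (x : ℝ) :
    HasDerivAt (fun x => sech x ^ n) (-(n * (sech x ^ n * Real.tanh x))) x := by
  have h := (hasDerivAt_sech x).pow n
  refine h.congr_deriv ?_
  rcases n with _ | n
  · simp
  · simp only [Nat.add_sub_cancel, pow_succ]
    ring

lemma hasDerivAt_sech_pow_tanh (n : ℕ) (x : ℝ) :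
    HasDerivAt (fun x => sech x ^ n * Real.tanh x)
      ((n + 1) * sech x ^ (n + 2) - n * sech x ^ n) x := by
  have h := (hasDerivAt_sech_pow n x).mul (hasDerivAt_tanh x)
  refine h.congr_deriv ?_
  have h2 := tanh_sq x
  have : -(n * (sech x ^ n * Real.tanh x)) * Real.tanh x = -(n * sech x ^ n * Real.tanh x ^ 2) := by
    ring
  rw [this, h2]; ring

lemma EG_sech_pow (n : ℕ) : EG (fun y => sech y ^ n) :=
  EG.of_bounded (continuous_sech.pow n) 1 fun y => by
    rw [abs_of_nonneg (pow_nonneg (sech_pos y).le n)]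
    exact pow_le_one₀ (sech_pos y).le (sech_le_one y)

lemma EG_sech : EG sech := by simpa using EG_sech_pow 1

lemma EG_tanh : EG Real.tanh := EG.of_bounded continuous_tanh 1 abs_tanh_le_one

lemma EG_tanh_sq : EG (fun y => Real.tanh y ^ 2) := by
  simpa [sq] using EG_tanh.mul EG_tanh

/-- derivative with respect to a parameter -/
lemma hasDerivAt_G_param {F F' : ℝ → ℝ → ℝ} (hF : EGF F) (hF' : EGF F') {s₀ : ℝ}
    (h : ∀ᶠ s in 𝓝 s₀, ∀ y, HasDerivAt (fun s => F s y) (F' s y) s) (x v : ℝ) :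
    HasDerivAt (fun s => G (F s) x v) (G (F' s₀) x v) s₀ := by
  obtain ⟨C, c, hC, hc, hb⟩ := (hF'.shift).bound (s₀, x, v)
  have h1 : ∀ᶠ s in 𝓝 s₀, ∀ z, |F' s (x + √v * z)| ≤ C * Real.exp (c * |z|) :=
    (by fun_prop : Continuous fun s : ℝ => ((s, x, v) : ℝ × ℝ × ℝ)).continuousAt
      (x := s₀) |>.eventually hb
  refine (hasDerivAt_integral_of_dominated_loc_of_deriv_le (μ := γ)
    (F := fun s z => F s (x + √v * z)) (F' := fun s z => F' s (x + √v * z))
    (bound := fun z => C * Real.exp (c * |z|)) (h1.and h) ?_ ?_ ?_ ?_ ?_ ?_).2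
  · exact Eventually.of_forall fun s => ((hF.single s).shift x v).cont.aestronglyMeasurable
  · exact (hF.single s₀).integrable_shift x v
  · exact ((hF'.single s₀).shift x v).cont.aestronglyMeasurable
  · exact Eventually.of_forall fun z s hs => hs.1 z
  · exact (int_exp_abs c).const_mul C
  · exact Eventually.of_forall fun z s hs => hs.2 _

/-- Gaussian averages of even functions decreasing in `|y|` decrease in `|h|` -/
lemma antitone_G (hF : EG F) (he : ∀ y, F (-y) = F y)
    (ha : ∀ a b, 0 ≤ a → a ≤ b → F b ≤ F a) {h₁ h₂ : ℝ} (h0 : 0 ≤ h₁) (h12 : h₁ ≤ h₂) (v : ℝ) :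
    G F h₂ v ≤ G F h₁ v := by
  rcases le_or_gt v 0 with hv | hv
  · rw [G_of_nonpos _ _ hv, G_of_nonpos _ _ hv]; exact ha _ _ h0 h12
  have hs : 0 < √v := Real.sqrt_pos.2 hv
  set m := (h₁ + h₂) / 2 with hm
  set d := (h₂ - h₁) / (2 * √v) with hd
  have hd0 : 0 ≤ d := div_nonneg (by linarith) (by positivity)
  have hfEG : EG (fun z => F (m + √v * z)) := hF.shift m v
  have e2 : G F h₂ v = Real.exp (-d ^ 2 / 2) * ∫ z, Real.exp (d * z) * F (m + √v * z) ∂γ := by
    rw [← gint_shift (fun z => F (m + √v * z)) d]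
    unfold G
    refine integral_congr_ae (Eventually.of_forall fun z => ?_)
    simp only
    congr 1
    rw [hd, hm]; field_simp; ring
  have e1 : G F h₁ v = Real.exp (-d ^ 2 / 2) * ∫ z, Real.exp (d * z) * F (m - √v * z) ∂γ := by
    have : ∫ z, Real.exp (d * z) * F (m - √v * z) ∂γ =
        ∫ z, Real.exp (-d * z) * F (m + √v * z) ∂γ := by
      rw [← gint_neg]
      refine integral_congr_ae (Eventually.of_forall fun z => ?_)
      simp only
      congr 2 <;> ring
    rw [this, show -d ^ 2 / 2 = -(-d) ^ 2 / 2 by ring, ← gint_shift (fun z => F (m + √v * z)) (-d)]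
    unfold G
    refine integral_congr_ae (Eventually.of_forall fun z => ?_)
    simp only
    congr 1
    rw [hd, hm]; field_simp; ring
  have hfEG' : EG (fun z => F (m - √v * z)) := by
    have hc : Continuous fun z : ℝ => F (m - √v * z) := hF.cont.comp (by fun_prop)
    obtain ⟨C, c, hC, hc', hb⟩ := hfEG.bound
    refine ⟨hc, C, c, hC, hc', fun y => ?_⟩
    have := hb (-y)
    rw [abs_neg, mul_neg, ← sub_eq_add_neg] at this
    exact this
  have i1 : Integrable (fun z => Real.exp (d * z) * F (m + √v * z)) γ := ((EG.exp d).mul hfEG).integrable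
  have i2 : Integrable (fun z => Real.exp (d * z) * F (m - √v * z)) γ := ((EG.exp d).mul hfEG').integrable
  have key : ∫ z, Real.exp (d * z) * (F (m + √v * z) - F (m - √v * z)) ∂γ ≤ 0 := by
    set D : ℝ → ℝ := fun z => F (m + √v * z) - F (m - √v * z) with hD
    have hDEG : EG D := hfEG.sub hfEG'
    have j1 : Integrable (fun z => Real.exp (d * z) * D z) γ := ((EG.exp d).mul hDEG).integrable
    have j2 : Integrable (fun z => Real.exp (-d * z) * D z) γ := ((EG.exp (-d)).mul hDEG).integrable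
    have k1 : ∫ z, Real.exp (d * z) * D z ∂γ = - ∫ z, Real.exp (-d * z) * D z ∂γ := by
      rw [← gint_neg, ← integral_neg]
      refine integral_congr_ae (Eventually.of_forall fun z => ?_)
      simp only [hD]
      rw [show d * -z = -d * z by ring, show m + √v * -z = m - √v * z by ring,
        show m - √v * -z = m + √v * z by ring]
      ring
    have k2 : 2 * ∫ z, Real.exp (d * z) * D z ∂γ =
        ∫ z, (Real.exp (d * z) - Real.exp (-d * z)) * D z ∂γ := by
      have : ∀ z, (Real.exp (d * z) - Real.exp (-d * z)) * D z =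
        Real.exp (d * z) * D z - Real.exp (-d * z) * D z := fun z => by ring
      simp_rw [this]
      rw [integral_sub j1 j2]
      linarith
    have k3 : ∫ z, (Real.exp (d * z) - Real.exp (-d * z)) * D z ∂γ ≤ 0 := by
      refine integral_nonpos fun z => ?_
      simp only [Pi.zero_apply, hD]
      have hm0 : 0 ≤ m := by rw [hm]; linarith
      rcases le_total 0 z with hz | hz
      · refine mul_nonpos_of_nonneg_of_nonpos ?_ ?_
        · rw [sub_nonneg, Real.exp_le_exp]; nlinarith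
        · rw [sub_nonpos]
          have hz' : 0 ≤ √v * z := by positivity
          rcases le_total 0 (m - √v * z) with h | h
          · exact ha _ _ h (by linarith)
          · rw [← he (m - √v * z)]
            exact ha _ _ (by linarith) (by linarith)
      · refine mul_nonpos_of_nonpos_of_nonneg ?_ ?_
        · rw [sub_nonpos, Real.exp_le_exp]; nlinarith
        · rw [sub_nonneg]
          have hz' : √v * z ≤ 0 := mul_nonpos_of_nonneg_of_nonpos hs.le hz
          rcases le_total 0 (m + √v * z) with h | h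
          · exact ha _ _ h (by linarith)
          · rw [← he (m + √v * z)]
            exact ha _ _ (by linarith) (by linarith)
    change ∫ z, Real.exp (d * z) * D z ∂γ ≤ 0
    linarith
  have k4 : ∫ z, Real.exp (d * z) * (F (m + √v * z) - F (m - √v * z)) ∂γ =
      ∫ z, Real.exp (d * z) * F (m + √v * z) ∂γ - ∫ z, Real.exp (d * z) * F (m - √v * z) ∂γ := by
    rw [← integral_sub i1 i2]
    refine integral_congr_ae (Eventually.of_forall fun z => ?_)
    simp only; ring
  rw [e1, e2]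
  refine mul_le_mul_of_nonneg_left ?_ (Real.exp_pos _).le
  linarith

lemma antitone_G_abs (hF : EG F) (he : ∀ y, F (-y) = F y)
    (ha : ∀ a b, 0 ≤ a → a ≤ b → F b ≤ F a) {h₁ h₂ : ℝ} (h12 : |h₁| ≤ |h₂|) (v : ℝ) :
    G F h₂ v ≤ G F h₁ v := by
  have e : ∀ x, G F x v = G F |x| v := by
    intro x
    rcases abs_choice x with h | h
    · rw [h]
    · rw [h, G_even he]
  rw [e h₁, e h₂]
  exact antitone_G hF he ha (abs_nonneg _) h12 v

/-- the function `ρ_θ` -/
noncomputable def rho (θ y : ℝ) : ℝ := Real.cosh (θ * y) * sech y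

lemma rho_pos (θ y : ℝ) : 0 < rho θ y := mul_pos (Real.cosh_pos _) (sech_pos _)

lemma rho_neg (θ y : ℝ) : rho θ (-y) = rho θ y := by
  unfold rho; rw [mul_neg, Real.cosh_neg, sech_neg]

lemma continuous_rho (θ : ℝ) : Continuous (rho θ) :=
  (Real.continuous_cosh.comp (by fun_prop)).mul continuous_sech

lemma rho_antitone {θ : ℝ} (hθ : |θ| ≤ 1) (a b : ℝ) (ha : 0 ≤ a) (hab : a ≤ b) :
    rho θ b ≤ rho θ a := by
  unfold rho sech
  rw [← div_eq_mul_inv, ← div_eq_mul_inv, div_le_div_iff₀ (Real.cosh_pos _) (Real.cosh_pos _)]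
  have hθ1 := (abs_le.1 hθ)
  have e1 : Real.cosh (θ * b) * Real.cosh a = (Real.cosh (θ * b + a) + Real.cosh (θ * b - a)) / 2 := by
    rw [Real.cosh_add, Real.cosh_sub]; ring
  have e2 : Real.cosh (θ * a) * Real.cosh b = (Real.cosh (θ * a + b) + Real.cosh (θ * a - b)) / 2 := by
    rw [Real.cosh_add, Real.cosh_sub]; ring
  rw [e1, e2]
  rcases le_total 0 θ with h | h
  · have f1 : Real.cosh (θ * b + a) ≤ Real.cosh (θ * a + b) := by
      rw [Real.cosh_le_cosh, abs_le]
      have : 0 ≤ θ * b := by apply mul_nonneg h; linarith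
      have : 0 ≤ θ * a := by positivity
      rw [abs_of_nonneg (by linarith : 0 ≤ θ * a + b)]
      constructor <;> nlinarith
    have f2 : Real.cosh (θ * b - a) ≤ Real.cosh (θ * a - b) := by
      rw [Real.cosh_le_cosh]
      rw [abs_of_nonpos (by nlinarith : θ * a - b ≤ 0), abs_le]
      constructor <;> nlinarith
    linarith
  · have f1 : Real.cosh (θ * b + a) ≤ Real.cosh (θ * a + b) := by
      rw [Real.cosh_le_cosh]
      rw [abs_of_nonneg (by nlinarith : 0 ≤ θ * a + b), abs_le]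
      constructor <;> nlinarith
    have f2 : Real.cosh (θ * b - a) ≤ Real.cosh (θ * a - b) := by
      rw [Real.cosh_le_cosh]
      rw [abs_of_nonpos (by nlinarith : θ * a - b ≤ 0), abs_le]
      constructor <;> nlinarith
    linarith

lemma rho_le_one {θ : ℝ} (hθ : |θ| ≤ 1) (y : ℝ) : rho θ y ≤ 1 := by
  have h : rho θ y = rho θ |y| := by
    rcases abs_choice y with h | h
    · rw [h]
    · rw [h, rho_neg]
  rw [h]
  have := rho_antitone hθ 0 |y| le_rfl (abs_nonneg _)
  simpa [rho, sech] using this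

lemma EG_rho {θ : ℝ} (hθ : |θ| ≤ 1) : EG (rho θ) :=
  EG.of_bounded (continuous_rho θ) 1 fun y => by
    rw [abs_of_pos (rho_pos θ y)]; exact rho_le_one hθ y

/-- `κ = 6 sech⁵ - 4 sech³` -/
noncomputable def kap (y : ℝ) : ℝ := 6 * sech y ^ 5 - 4 * sech y ^ 3

lemma EG_kap : EG kap := ((EG_sech_pow 5).const_mul 6).sub ((EG_sech_pow 3).const_mul 4)

lemma kap_neg (y : ℝ) : kap (-y) = kap y := by unfold kap; rw [sech_neg]

/-- the zero of `κ` -/
noncomputable def x₀ : ℝ := Real.arsinh (√(1 / 2))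

lemma x₀_pos : 0 < x₀ := Real.arsinh_pos_iff.2 (Real.sqrt_pos.2 (by norm_num))

lemma cosh_x₀ : Real.cosh x₀ ^ 2 = 3 / 2 := by
  rw [Real.cosh_sq, x₀, Real.sinh_arsinh, Real.sq_sqrt (by norm_num)]
  norm_num

lemma kap_eq (y : ℝ) : kap y = sech y ^ 5 * (6 - 4 * Real.cosh y ^ 2) := by
  unfold kap
  have := cosh_mul_sech y
  have h2 : sech y ^ 5 * Real.cosh y ^ 2 = sech y ^ 3 := by
    calc sech y ^ 5 * Real.cosh y ^ 2 = sech y ^ 3 * (Real.cosh y * sech y) ^ 2 := by ring
      _ = _ := by rw [this]; ring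
  rw [mul_sub, ← mul_assoc, mul_comm (sech y ^ 5 * 4), ← mul_assoc] at *
  nlinarith [h2]

lemma kap_nonneg {y : ℝ} (h : |y| ≤ x₀) : 0 ≤ kap y := by
  rw [kap_eq]
  have h1 : Real.cosh y ^ 2 ≤ Real.cosh x₀ ^ 2 := by
    have : Real.cosh y ≤ Real.cosh x₀ := by
      rw [Real.cosh_le_cosh, abs_of_pos x₀_pos]; exact h
    exact pow_le_pow_left₀ (Real.cosh_pos _).le this 2
  rw [cosh_x₀] at h1
  exact mul_nonneg (pow_pos (sech_pos y) 5).le (by linarith)

lemma kap_nonpos {y : ℝ} (h : x₀ ≤ |y|) : kap y ≤ 0 := by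
  rw [kap_eq]
  have h1 : Real.cosh x₀ ^ 2 ≤ Real.cosh y ^ 2 := by
    have : Real.cosh x₀ ≤ Real.cosh y := by
      rw [Real.cosh_le_cosh, abs_of_pos x₀_pos]; exact h
    exact pow_le_pow_left₀ (Real.cosh_pos _).le this 2
  rw [cosh_x₀] at h1
  exact mul_nonpos_of_nonneg_of_nonpos (pow_pos (sech_pos y) 5).le (by linarith)

/-- `E κ(√r z) > 0` -/
lemma G_kap_pos {r : ℝ} (hr : 0 < r) : 0 < G kap 0 r := by
  have hs : 0 < √r := Real.sqrt_pos.2 hr
  set a : ℝ → ℝ := fun x => sech x ^ 3 * Real.tanh x with ha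
  set a' : ℝ → ℝ := fun x => (3 + 1) * sech x ^ 5 - 3 * sech x ^ 3 with ha'
  have haEG : EG a := (EG_sech_pow 3).mul EG_tanh
  have haEG' : EG a' := ((EG_sech_pow 5).const_mul _).sub ((EG_sech_pow 3).const_mul _)
  have hd : ∀ y, HasDerivAt a (a' y) y := by
    intro y
    have := hasDerivAt_sech_pow_tanh 3 y
    refine this.congr_deriv ?_
    simp [ha']
  have h1 := gint_z_mul haEG haEG' hd 0 r
  have h2 : 0 ≤ ∫ z, z * a (0 + √r * z) ∂γ := by
    refine integral_nonneg fun z => ?_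
    simp only [zero_add, ha, Pi.zero_apply, tanh_eq]
    have : 0 ≤ z * Real.sinh (√r * z) := by
      rcases le_total 0 z with h | h
      · exact mul_nonneg h (Real.sinh_nonneg_iff.2 (by positivity))
      · exact mul_nonneg_of_nonpos_of_nonpos h
          (Real.sinh_nonpos_iff.2 (mul_nonpos_of_nonneg_of_nonpos hs.le h))
    have h3 := (sech_pos (√r * z)).le
    calc 0 ≤ (z * Real.sinh (√r * z)) * (sech (√r * z) ^ 3 * sech (√r * z)) :=
          mul_nonneg this (by positivity)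
      _ = _ := by ring
  have h3 : 0 ≤ G a' 0 r := by
    by_contra hcon
    push Not at hcon
    have : √r * G a' 0 r < 0 := mul_neg_of_pos_of_neg hs hcon
    linarith
  have h4 : G kap 0 r = 3 / 2 * G a' 0 r + 1 / 2 * G (fun y => sech y ^ 3) 0 r := by
    rw [← G_const_mul, ← G_const_mul, ← G_add (haEG'.const_mul _) ((EG_sech_pow 3).const_mul _)]
    congr 1
    funext y
    simp only [kap, ha']; ring
  have h5 : 0 < G (fun y => sech y ^ 3) 0 r := G_pos (EG_sech_pow 3) (fun y => pow_pos (sech_pos y) 3) 0 r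
  rw [h4]; linarith

/-- rotation of two independent Gaussian variables -/
lemma gint_rotation (Φ : ℝ → ℝ → ℝ) (hΦ : Continuous (fun p : ℝ × ℝ => Φ p.1 p.2)) (C : ℝ)
    (hb : ∀ x y, |Φ x y| ≤ C) {a b : ℝ} (hab : a ^ 2 + b ^ 2 = 1) (hb0 : 0 ≤ b) :
    ∫ z₁, ∫ z₂, Φ z₁ z₂ ∂γ ∂γ = ∫ w₁, ∫ w₂, Φ (a * w₁ + b * w₂) (b * w₁ - a * w₂) ∂γ ∂γ := by
  -- angle with cos = a, sin = b
  have ha1 : -1 ≤ a := by nlinarith [sq_nonneg b]
  have ha2 : a ≤ 1 := by nlinarith [sq_nonneg b]
  have hcos : Real.cos (Real.arccos a) = a := Real.cos_arccos ha1 ha2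
  have hsin : Real.sin (Real.arccos a) = b := by
    rw [Real.sin_arccos, show 1 - a ^ 2 = b ^ 2 by linarith, Real.sqrt_sq hb0]
  have hrot : (γ.prod γ).map (ContinuousLinearMap.rotation (E := ℝ) (Real.arccos a)) = γ.prod γ :=
    IsGaussian.map_rotation_eq_self (by simp [γ]) _
  have hint : ∀ Ψ : ℝ → ℝ → ℝ, Continuous (fun p : ℝ × ℝ => Ψ p.1 p.2) → (∀ x y, |Ψ x y| ≤ C) →
      ∫ z₁, ∫ z₂, Ψ z₁ z₂ ∂γ ∂γ = ∫ p, Ψ p.1 p.2 ∂(γ.prod γ) := by
    intro Ψ h1 h2
    rw [integral_prod]
    exact Integrable.of_bound h1.aestronglyMeasurable C (Eventually.of_forall fun p => h2 _ _)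
  rw [hint Φ hΦ hb]
  have h2 : ∀ w₁ : ℝ, ∫ w₂, Φ (a * w₁ + b * w₂) (b * w₁ - a * w₂) ∂γ =
      ∫ w₂, Φ (a * w₁ + b * w₂) (-(-b * w₁ + a * w₂)) ∂γ := by
    intro w₁
    refine integral_congr_ae (Eventually.of_forall fun z => ?_)
    simp only; congr 1; ring
  simp_rw [h2]
  rw [hint (fun w₁ w₂ => Φ (a * w₁ + b * w₂) (-(-b * w₁ + a * w₂)))
    (hΦ.comp (by fun_prop : Continuous fun p : ℝ × ℝ =>
      (a * p.1 + b * p.2, -(-b * p.1 + a * p.2)))) fun x y => hb _ _]
  have h3 : ∫ p, Φ p.1 p.2 ∂(γ.prod γ) = ∫ p, Φ p.1 (-p.2) ∂(γ.prod γ) := by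
    rw [← hint Φ hΦ hb, ← hint (fun x y => Φ x (-y))
      (hΦ.comp (by fun_prop : Continuous fun p : ℝ × ℝ => (p.1, -p.2))) fun x y => hb _ _]
    refine integral_congr_ae (Eventually.of_forall fun z => ?_)
    simp only
    exact (gint_neg _).symm
  rw [h3]
  conv_lhs => rw [← hrot]
  rw [integral_map (by fun_prop) (by
    exact (hΦ.comp (by fun_prop : Continuous fun p : ℝ × ℝ => (p.1, -p.2))).aestronglyMeasurable)]
  refine integral_congr_ae (Eventually.of_forall fun p => ?_)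
  simp only [ContinuousLinearMap.rotation_apply, hcos, hsin, smul_eq_mul]

end Pool.Agent.K7.H96.AT
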