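import Pool.Agent.K7.H96.AT.Ineq

set_option autoImplicit false

/-!
# The inequality behind the de Almeida-Thouless line, second part
-/

open MeasureTheory ProbabilityTheory Set Filter Topology

namespace Pool.Agent.K7.H96.AT

variable {F F' F'' H : ℝ → ℝ}

lemma kap_abs_le (y : ℝ) : |kap y| ≤ 10 := by
  unfold kap
  have h1 := pow_le_one₀ (n := 5) (sech_pos y).le (sech_le_one y)
  have h2 := pow_le_one₀ (n := 3) (sech_pos y).le (sech_le_one y)
  have h3 := pow_nonneg (sech_pos y).le 5
  have h4 := pow_nonneg (sech_pos y).le 3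
  rw [abs_le]; constructor <;> linarith

/-- the key positivity statement -/
lemma J_pos {θ : ℝ} (hθ : |θ| ≤ 1) {v s : ℝ} (hv : 0 < v) (hs : 0 ≤ s) :
    0 < G (fun y => rho θ y * G kap y s) 0 v := by
  have hr : 0 < v + s := by linarith
  set r := v + s with hrdef
  have hsr : 0 < √r := Real.sqrt_pos.2 hr
  have hsr2 : √r * √r = r := Real.mul_self_sqrt hr.le
  set a := √v / √r with ha
  set b := √s / √r with hb
  have hab : a ^ 2 + b ^ 2 = 1 := by
    rw [ha, hb, div_pow, div_pow, Real.sq_sqrt hv.le, Real.sq_sqrt hs, Real.sq_sqrt hr.le,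
      ← add_div, ← hrdef, div_self hr.ne']
  have hb0 : 0 ≤ b := by positivity
  have hva : √v = √r * a := by rw [ha]; field_simp
  have hsb : √s = √r * b := by rw [hb]; field_simp
  -- the rotation
  have h1 : G (fun y => rho θ y * G kap y s) 0 v =
      ∫ w₁, ∫ w₂, rho θ (√v * (a * w₁ + b * w₂)) * kap (√r * w₁) ∂γ ∂γ := by
    have e0 : G (fun y => rho θ y * G kap y s) 0 v =
        ∫ z₁, ∫ z₂, rho θ (√v * z₁) * kap (√v * z₁ + √s * z₂) ∂γ ∂γ := by
      unfold G
      refine integral_congr_ae (Eventually.of_forall fun z => ?_)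
      simp only [zero_add]
      rw [integral_const_mul]
    rw [e0, gint_rotation (fun z₁ z₂ => rho θ (√v * z₁) * kap (√v * z₁ + √s * z₂)) _ (1 * 10) _
      hab hb0]
    · refine integral_congr_ae (Eventually.of_forall fun w₁ => ?_)
      simp only
      refine integral_congr_ae (Eventually.of_forall fun w₂ => ?_)
      simp only
      congr 2
      rw [hva, hsb]
      calc √r * a * (a * w₁ + b * w₂) + √r * b * (b * w₁ - a * w₂)
          = √r * ((a ^ 2 + b ^ 2) * w₁) := by ring
        _ = _ := by rw [hab, one_mul]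
    · exact ((continuous_rho θ).comp (by fun_prop)).mul (EG_kap.cont.comp (by fun_prop))
    · intro x y
      rw [abs_mul]
      refine mul_le_mul ?_ (kap_abs_le _) (abs_nonneg _) zero_le_one
      rw [abs_of_pos (rho_pos θ _)]; exact rho_le_one hθ _
  -- the inner integral
  set v' := (√v * b) ^ 2 with hv'
  set g : ℝ → ℝ := fun w => G (rho θ) (√v * a * w) v' with hg
  have h2 : G (fun y => rho θ y * G kap y s) 0 v = ∫ w, kap (√r * w) * g w ∂γ := by
    rw [h1]
    refine integral_congr_ae (Eventually.of_forall fun w₁ => ?_)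
    simp only
    rw [integral_mul_const, mul_comm]
    congr 1
    simp only [hg, G, hv']
    rw [Real.sqrt_sq (by positivity)]
    refine integral_congr_ae (Eventually.of_forall fun w₂ => ?_)
    simp only; congr 1; ring
  have hgpos : ∀ w, 0 < g w := fun w => G_pos (EG_rho hθ) (rho_pos θ) _ _
  have hganti : ∀ w₁ w₂ : ℝ, |w₁| ≤ |w₂| → g w₂ ≤ g w₁ := by
    intro w₁ w₂ h
    refine antitone_G_abs (EG_rho hθ) (rho_neg θ) (rho_antitone hθ) ?_ _
    rw [abs_mul, abs_mul (√v * a)]
    exact mul_le_mul_of_nonneg_left h (abs_nonneg _)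
  have hgcont : Continuous g :=
    (EG_rho hθ).continuous_G.comp (by fun_prop : Continuous fun w : ℝ => (√v * a * w, v'))
  have hgle : ∀ w, g w ≤ 1 := fun w => G_le_const (EG_rho hθ) (rho_le_one hθ) _ _
  have hgEG : EG g := EG.of_bounded hgcont 1 fun w => by rw [abs_of_pos (hgpos w)]; exact hgle w
  have hkEG : EG (fun w => kap (√r * w)) := by
    have := EG_kap.shift 0 r
    simpa using this
  set w₀ := x₀ / √r with hw₀
  have hw0 : 0 < w₀ := div_pos x₀_pos hsr
  have h3 : g w₀ * ∫ w, kap (√r * w) ∂γ ≤ ∫ w, kap (√r * w) * g w ∂γ := by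
    rw [← integral_const_mul]
    refine integral_mono (hkEG.const_mul _).integrable (hkEG.mul hgEG).integrable fun w => ?_
    simp only
    rcases le_total |w| w₀ with h | h
    · have k1 : 0 ≤ kap (√r * w) := by
        apply kap_nonneg
        rw [abs_mul, abs_of_pos hsr, mul_comm]
        rwa [hw₀, le_div_iff₀ hsr] at h
      have k2 : g w₀ ≤ g w := hganti w w₀ (by rwa [abs_of_pos hw0])
      nlinarith
    · have k1 : kap (√r * w) ≤ 0 := by
        apply kap_nonpos
        rw [abs_mul, abs_of_pos hsr, mul_comm]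
        rwa [hw₀, div_le_iff₀ hsr] at h
      have k2 : g w ≤ g w₀ := hganti w₀ w (by rwa [abs_of_pos hw0])
      nlinarith
  have h4 : 0 < ∫ w, kap (√r * w) ∂γ := by
    have := G_kap_pos hr
    simpa [G] using this
  rw [h2]
  exact lt_of_lt_of_le (mul_pos (hgpos _) h4) h3

/-- `k(s, y) = e^{-s/2} E sech³(y + √s z)` -/
noncomputable def kk (s y : ℝ) : ℝ := Real.exp (-s / 2) * G (fun y => sech y ^ 3) y s

/-- `p(s, y) = e^{-s/2} E sech(y + √s z)` -/
noncomputable def pp (s y : ℝ) : ℝ := Real.exp (-s / 2) * G sech y s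

/-- `M(s; h, v)` -/
noncomputable def MM (s h v : ℝ) : ℝ := G (fun y => sech y * kk s y) h v

/-- `φ(s; h, v)` -/
noncomputable def ph (s h v : ℝ) : ℝ := G (fun y => sech y * pp s y) h v

lemma EGF_expG {F : ℝ → ℝ} (hF : EG F) : EGF (fun s y => Real.exp (-s / 2) * G F y s) :=
  (EGF.param (by fun_prop)).mul hF.G

lemma EGF_kk : EGF kk := EGF_expG (EG_sech_pow 3)

lemma EGF_pp : EGF pp := EGF_expG EG_sech

lemma hasDerivAt_expG (hF : EG F) (hF' : EG F') (hF'' : EG F'') (h : ∀ y, HasDerivAt F (F' y) y)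
    (h' : ∀ y, HasDerivAt F' (F'' y) y) (y : ℝ) {s : ℝ} (hs : 0 < s) :
    HasDerivAt (fun s => Real.exp (-s / 2) * G F y s)
      (Real.exp (-s / 2) * G (fun y => 1 / 2 * F'' y - 1 / 2 * F y) y s) s := by
  have h1 : HasDerivAt (fun s : ℝ => Real.exp (-s / 2)) (Real.exp (-s / 2) * (-1 / 2)) s :=
    ((hasDerivAt_id s).neg.div_const 2).exp
  have h2 := hasDerivAt_G_v hF hF' hF'' h h' y hs
  refine (h1.mul h2).congr_deriv ?_
  rw [G_sub (hF''.const_mul _) (hF.const_mul _), G_const_mul, G_const_mul]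
  ring

lemma hasDerivAt_kk (y : ℝ) {s : ℝ} (hs : 0 < s) :
    HasDerivAt (fun s => kk s y) (-(Real.exp (-s / 2) * G kap y s)) s := by
  have h := hasDerivAt_expG (F := fun y => sech y ^ 3)
    (F' := fun y => -(3 * (sech y ^ 3 * Real.tanh y)))
    (F'' := fun y => -(3 * (4 * sech y ^ 5 - 3 * sech y ^ 3))) (EG_sech_pow 3)
    ((((EG_sech_pow 3).mul EG_tanh).const_mul 3).neg)
    (((((EG_sech_pow 5).const_mul 4).sub ((EG_sech_pow 3).const_mul 3)).const_mul 3).neg)
    (fun y => by simpa using hasDerivAt_sech_pow 3 y)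
    (fun y => by
      have := ((hasDerivAt_sech_pow_tanh 3 y).const_mul 3).neg
      refine this.congr_deriv ?_
      push_cast; ring) y hs
  refine h.congr_deriv ?_
  rw [← mul_neg, ← G_neg]
  congr 2
  funext y
  unfold kap; ring

lemma hasDerivAt_pp (y : ℝ) {s : ℝ} (hs : 0 < s) :
    HasDerivAt (fun s => pp s y) (-kk s y) s := by
  have h := hasDerivAt_expG (F := sech)
    (F' := fun y => -(sech y * Real.tanh y))
    (F'' := fun y => -(2 * sech y ^ 3 - sech y)) EG_sech
    ((EG_sech.mul EG_tanh).neg)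
    ((((EG_sech_pow 3).const_mul 2).sub EG_sech).neg)
    (fun y => hasDerivAt_sech y)
    (fun y => by
      have := (hasDerivAt_sech_pow_tanh 1 y).neg
      simp only [pow_one] at this
      refine this.congr_deriv ?_
      push_cast; ring) y hs
  refine h.congr_deriv ?_
  unfold kk
  rw [← mul_neg, ← G_neg]
  congr 2
  funext y; ring

lemma MM_zero (h v : ℝ) : MM 0 h v = G (fun y => sech y ^ 4) h v := by
  unfold MM kk
  congr 1
  funext y
  rw [G_zero]
  simp; ring

lemma ph_zero (h v : ℝ) : ph 0 h v = G (fun y => sech y ^ 2) h v := by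
  unfold ph pp
  congr 1
  funext y
  rw [G_zero]
  simp; ring

lemma EGF_sech_kk : EGF (fun s y => sech y * kk s y) := (EGF.const EG_sech).mul EGF_kk

lemma EGF_sech_pp : EGF (fun s y => sech y * pp s y) := (EGF.const EG_sech).mul EGF_pp

lemma continuous_MM : Continuous (fun q : ℝ × ℝ × ℝ => MM q.1 q.2.1 q.2.2) :=
  EGF_sech_kk.continuous_G

lemma continuous_ph : Continuous (fun q : ℝ × ℝ × ℝ => ph q.1 q.2.1 q.2.2) :=
  EGF_sech_pp.continuous_G

lemma continuous_MM_s (h v : ℝ) : Continuous (fun s => MM s h v) :=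
  continuous_MM.comp (by fun_prop : Continuous fun s : ℝ => (s, h, v))

lemma continuous_ph_s (h v : ℝ) : Continuous (fun s => ph s h v) :=
  continuous_ph.comp (by fun_prop : Continuous fun s : ℝ => (s, h, v))

lemma hasDerivAt_ph (h v : ℝ) {s : ℝ} (hs : 0 < s) :
    HasDerivAt (fun s => ph s h v) (-MM s h v) s := by
  have h1 := hasDerivAt_G_param (F := fun s y => sech y * pp s y)
    (F' := fun s y => -(sech y * kk s y)) EGF_sech_pp
    (by
      have := (EGF.const (P := ℝ) (EG.const (-1))).mul EGF_sech_kk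
      simpa using this) (s₀ := s)
    (by
      filter_upwards [eventually_gt_nhds hs] with s hs y
      refine ((hasDerivAt_pp y hs).const_mul (sech y)).congr_deriv ?_
      ring) h v
  refine h1.congr_deriv ?_
  unfold MM
  rw [← G_neg]

lemma hasDerivAt_MM (h v : ℝ) {s : ℝ} (hs : 0 < s) :
    HasDerivAt (fun s => MM s h v)
      (-(Real.exp (-s / 2) * G (fun y => sech y * G kap y s) h v)) s := by
  have h0 : EGF (fun s y => sech y * (Real.exp (-s / 2) * G kap y s)) :=
    (EGF.const EG_sech).mul (EGF_expG EG_kap)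
  have h1 := hasDerivAt_G_param (F := fun s y => sech y * kk s y)
    (F' := fun s y => -(sech y * (Real.exp (-s / 2) * G kap y s))) EGF_sech_kk
    (by
      have := (EGF.const (P := ℝ) (EG.const (-1))).mul h0
      simpa using this) (s₀ := s)
    (by
      filter_upwards [eventually_gt_nhds hs] with s hs y
      refine ((hasDerivAt_kk y hs).const_mul (sech y)).congr_deriv ?_
      ring) h v
  refine h1.congr_deriv ?_
  rw [← mul_neg, ← G_neg, ← G_const_mul]
  congr 1
  funext y; ring

/-- symmetrisation at the origin -/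
lemma G_exp_even (hF : EG F) (he : ∀ y, F (-y) = F y) (c v : ℝ) :
    G (fun y => Real.exp (c * y) * F y) 0 v = G (fun y => Real.cosh (c * y) * F y) 0 v := by
  have h1 : G (fun y => Real.exp (c * y) * F y) 0 v = G (fun y => Real.exp (-c * y) * F y) 0 v := by
    have := G_reflect (fun y => Real.exp (c * y) * F y) 0 v
    rw [neg_zero] at this
    rw [this]
    congr 1
    funext y
    rw [he]; congr 2; ring
  have h2 : G (fun y => Real.cosh (c * y) * F y) 0 v =
      1 / 2 * G (fun y => Real.exp (c * y) * F y) 0 v +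
        1 / 2 * G (fun y => Real.exp (-c * y) * F y) 0 v := by
    rw [← G_const_mul, ← G_const_mul, ← G_add (((EG.exp c).mul hF).const_mul _)
      (((EG.exp (-c)).mul hF).const_mul _)]
    congr 1
    funext y
    rw [Real.cosh_eq]; ring_nf
  rw [h2, ← h1]; ring

lemma G_tilt_even (hF : EG F) (he : ∀ y, F (-y) = F y) (h : ℝ) {v : ℝ} (hv : 0 < v) :
    G F h v = Real.exp (-h ^ 2 / (2 * v)) * G (fun y => Real.cosh (h / v * y) * F y) 0 v := by
  rw [G_tilt F h hv, ← G_exp_even hF he]
  congr 2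
  funext y
  congr 2; ring

lemma G_sech_kap_pos {h v s : ℝ} (hv : 0 < v) (hh : |h| ≤ v) (hs : 0 ≤ s) :
    0 < G (fun y => sech y * G kap y s) h v := by
  rw [G_tilt_even (EG_sech.mul (EG_kap.G' s)) (fun y => by
    rw [sech_neg, G_even kap_neg]) h hv]
  refine mul_pos (Real.exp_pos _) ?_
  have hθ : |h / v| ≤ 1 := by
    rw [abs_div, abs_of_pos hv, div_le_one hv]; exact hh
  have := J_pos hθ hv hs
  simp only [rho] at this
  simpa only [mul_assoc] using this

lemma MM_anti {h v : ℝ} (hv : 0 < v) (hh : |h| ≤ v) : StrictAntiOn (fun s => MM s h v) (Ici 0) := by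
  refine strictAntiOn_of_deriv_neg (convex_Ici 0) (continuous_MM_s h v).continuousOn fun s hs => ?_
  rw [interior_Ici] at hs
  rw [(hasDerivAt_MM h v hs).deriv]
  exact neg_neg_of_pos (mul_pos (Real.exp_pos _) (G_sech_kap_pos hv hh (le_of_lt hs)))

lemma EG_cosh : EG Real.cosh := by
  have : Real.cosh = fun y => 1 / 2 * Real.exp (1 * y) + 1 / 2 * Real.exp (-1 * y) := by
    funext y; rw [Real.cosh_eq]; ring_nf
  rw [this]
  exact ((EG.exp 1).const_mul _).add ((EG.exp (-1)).const_mul _)

lemma EG_sinh : EG Real.sinh := by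
  have : Real.sinh = fun y => 1 / 2 * Real.exp (1 * y) - 1 / 2 * Real.exp (-1 * y) := by
    funext y; rw [Real.sinh_eq]; ring_nf
  rw [this]
  exact ((EG.exp 1).const_mul _).sub ((EG.exp (-1)).const_mul _)

/-- the dA-T condition holds on the diagonal `h = v` -/
lemma AT_diag {v : ℝ} (hv : 0 < v) :
    v * G (fun y => sech y ^ 4) v v ≤ G (fun y => Real.tanh y ^ 2) v v := by
  have hs : 0 < √v := Real.sqrt_pos.2 hv
  have hs2 : √v * √v = v := Real.mul_self_sqrt hv.le
  rw [G_tilt_even (EG_sech_pow 4) (fun y => by rw [sech_neg]) v hv,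
    G_tilt_even EG_tanh_sq (fun y => by rw [Real.tanh_neg, neg_sq]) v hv, ← mul_assoc,
    mul_comm v, mul_assoc]
  refine mul_le_mul_of_nonneg_left ?_ (Real.exp_pos _).le
  rw [div_self hv.ne']
  simp only [one_mul]
  have e1 : G (fun y => Real.cosh y * sech y ^ 4) 0 v = G (fun y => sech y ^ 3) 0 v := by
    congr 1
    funext y
    calc Real.cosh y * sech y ^ 4 = (Real.cosh y * sech y) * sech y ^ 3 := by ring
      _ = _ := by rw [cosh_mul_sech, one_mul]
  have e2 : G (fun y => sech y ^ 3) 0 v ≤ G (fun y => sech y ^ 2) 0 v := by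
    refine G_mono (EG_sech_pow 3) (EG_sech_pow 2) (fun y => ?_) _ _
    exact pow_le_pow_of_le_one (sech_pos y).le (sech_le_one y) (by norm_num)
  have e3 : v * G (fun y => sech y ^ 2) 0 v = G (fun y => y * Real.tanh y) 0 v := by
    have := gint_z_mul EG_tanh (EG_sech_pow 2) hasDerivAt_tanh 0 v
    calc v * G (fun y => sech y ^ 2) 0 v = √v * (√v * G (fun y => sech y ^ 2) 0 v) := by
          rw [← mul_assoc, hs2]
      _ = √v * ∫ z, z * Real.tanh (0 + √v * z) ∂γ := by rw [this]
      _ = _ := by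
          unfold G
          rw [← integral_const_mul]
          refine integral_congr_ae (Eventually.of_forall fun z => ?_)
          simp only [zero_add]; ring
  have e4 : G (fun y => y * Real.tanh y) 0 v ≤ G (fun y => Real.cosh y * Real.tanh y ^ 2) 0 v := by
    refine G_mono (EG.id.mul EG_tanh) (EG_cosh.mul EG_tanh_sq) (fun y => ?_) _ _
    have : Real.cosh y * Real.tanh y ^ 2 = Real.sinh y * Real.tanh y := by
      rw [sq, ← mul_assoc, tanh_eq]
      calc Real.cosh y * (Real.sinh y * sech y) * (Real.sinh y * sech y) =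
          (Real.cosh y * sech y) * (Real.sinh y * (Real.sinh y * sech y)) := by ring
        _ = _ := by rw [cosh_mul_sech, one_mul]
    rw [this]
    rcases le_total 0 y with h | h
    · exact mul_le_mul_of_nonneg_right (Real.self_le_sinh_iff.2 h) (by
        rw [tanh_eq]; exact mul_nonneg (Real.sinh_nonneg_iff.2 h) (sech_pos y).le)
    · exact mul_le_mul_of_nonpos_right (Real.sinh_le_self_iff.2 h) (by
        rw [tanh_eq]
        exact mul_nonpos_of_nonpos_of_nonneg (Real.sinh_nonpos_iff.2 h) (sech_pos y).le)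
  rw [e1]
  calc v * G (fun y => sech y ^ 3) 0 v ≤ v * G (fun y => sech y ^ 2) 0 v :=
        mul_le_mul_of_nonneg_left e2 hv.le
    _ ≤ _ := by rw [e3]; exact e4

lemma sech_antitone (a b : ℝ) (ha : 0 ≤ a) (hab : a ≤ b) : sech b ≤ sech a := by
  unfold sech
  apply inv_anti₀ (Real.cosh_pos _)
  rw [Real.cosh_le_cosh, abs_of_nonneg ha, abs_of_nonneg (ha.trans hab)]
  exact hab

lemma MM_anti_h {h₁ h₂ : ℝ} (h12 : |h₁| ≤ |h₂|) (s v : ℝ) : MM s h₂ v ≤ MM s h₁ v := by
  refine antitone_G_abs (EGF_sech_kk.single s) (fun y => ?_) (fun a b ha hab => ?_) h12 v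
  · unfold kk
    rw [sech_neg, G_even (fun y => by rw [sech_neg])]
  · refine mul_le_mul (sech_antitone a b ha hab) ?_ ?_ (sech_pos a).le
    · unfold kk
      refine mul_le_mul_of_nonneg_left ?_ (Real.exp_pos _).le
      refine antitone_G (EG_sech_pow 3) (fun y => by rw [sech_neg]) (fun c d hc hcd => ?_) ha hab s
      exact pow_le_pow_left₀ (sech_pos d).le (sech_antitone c d hc hcd) 3
    · exact mul_nonneg (Real.exp_pos _).le (G_nonneg (fun y => (pow_pos (sech_pos y) 3).le) _ _)

lemma G_tanh_sq_eq (h v : ℝ) :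
    G (fun y => Real.tanh y ^ 2) h v = 1 - G (fun y => sech y ^ 2) h v := by
  have : (fun y => Real.tanh y ^ 2) = fun y => 1 - sech y ^ 2 := funext tanh_sq
  rw [this, G_sub (EG.const 1) (EG_sech_pow 2), G_const]

lemma G_tanh_sq_mono_h {h₁ h₂ : ℝ} (h12 : |h₁| ≤ |h₂|) (v : ℝ) :
    G (fun y => Real.tanh y ^ 2) h₁ v ≤ G (fun y => Real.tanh y ^ 2) h₂ v := by
  rw [G_tanh_sq_eq, G_tanh_sq_eq]
  have := antitone_G_abs (EG_sech_pow 2) (fun y => by rw [sech_neg])
    (fun c d hc hcd => pow_le_pow_left₀ (sech_pos d).le (sech_antitone c d hc hcd) 2) h12 v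
  linarith

/-- **The main inequality.** -/
theorem main_ineq {h v : ℝ} (hv : 0 < v)
    (hAT : v * G (fun y => sech y ^ 4) h v ≤ G (fun y => Real.tanh y ^ 2) h v) {s : ℝ}
    (hs : 0 < s) : v * MM s h v < G (fun y => Real.tanh y ^ 2) h v := by
  rcases le_total |h| v with hh | hh
  · have h1 : MM s h v < MM 0 h v := MM_anti hv hh (mem_Ici.2 le_rfl) hs.le hs
    rw [MM_zero] at h1
    exact lt_of_lt_of_le (mul_lt_mul_of_pos_left h1 hv) hAT
  · have h1 : MM s v v < MM 0 v v :=
      MM_anti hv (by rw [abs_of_pos hv]) (mem_Ici.2 le_rfl) hs.le hs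
    rw [MM_zero] at h1
    have h2 : MM s h v ≤ MM s v v := MM_anti_h (by rw [abs_of_pos hv]; exact hh) s v
    have h3 := G_tanh_sq_mono_h (h₁ := v) (h₂ := h) (by rw [abs_of_pos hv]; exact hh) v
    calc v * MM s h v ≤ v * MM s v v := mul_le_mul_of_nonneg_left h2 hv.le
      _ < v * G (fun y => sech y ^ 4) v v := mul_lt_mul_of_pos_left h1 hv
      _ ≤ G (fun y => Real.tanh y ^ 2) v v := AT_diag hv
      _ ≤ _ := h3

/-- the main inequality in terms of `β` and `q` -/
theorem main_ineq' {β h q : ℝ} (hβ : 0 < β) (hq : G (fun y => Real.tanh y ^ 2) h (2 * β ^ 2 * q) = q)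
    (hAT : β ^ 2 * G (fun y => sech y ^ 4) h (2 * β ^ 2 * q) ≤ 1 / 2) {s : ℝ} (hs : 0 < s) :
    2 * β ^ 2 * MM s h (2 * β ^ 2 * q) < 1 := by
  have hq0 : 0 ≤ q := by rw [← hq]; exact G_nonneg (fun y => sq_nonneg _) _ _
  rcases hq0.eq_or_lt with h0 | h0
  · -- `q = 0`
    rw [← h0, mul_zero, G_zero] at hq hAT
    rw [← h0, mul_zero]
    have hh : h = 0 := by
      have h2 : Real.tanh h = 0 := by
        exact pow_eq_zero_iff (two_ne_zero) |>.1 hq
      rw [tanh_eq] at h2
      rcases mul_eq_zero.1 h2 with h3 | h3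
      · exact Real.sinh_eq_zero.1 h3
      · exact absurd h3 (sech_pos h).ne'
    subst hh
    have h4 : sech 0 = 1 := by simp [sech]
    rw [h4] at hAT
    unfold MM
    rw [G_zero, h4, one_mul]
    have h5 : kk s 0 < 1 := by
      unfold kk
      have e1 : Real.exp (-s / 2) < 1 := by rw [Real.exp_lt_one_iff]; linarith
      have e2 : G (fun y => sech y ^ 3) 0 s ≤ 1 :=
        G_le_const (EG_sech_pow 3) (fun y => pow_le_one₀ (sech_pos y).le (sech_le_one y)) _ _
      have e3 : 0 ≤ G (fun y => sech y ^ 3) 0 s :=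
        G_nonneg (fun y => (pow_pos (sech_pos y) 3).le) _ _
      nlinarith [Real.exp_pos (-s / 2)]
    have h6 : 0 < kk s 0 := mul_pos (Real.exp_pos _)
      (G_pos (EG_sech_pow 3) (fun y => pow_pos (sech_pos y) 3) _ _)
    nlinarith [sq_nonneg β, pow_pos hβ 2]
  · have hv : 0 < 2 * β ^ 2 * q := by positivity
    have h1 : 2 * β ^ 2 * q * G (fun y => sech y ^ 4) h (2 * β ^ 2 * q) ≤
        G (fun y => Real.tanh y ^ 2) h (2 * β ^ 2 * q) := by
      rw [hq]; nlinarith
    have h2 := main_ineq hv h1 hs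
    rw [hq] at h2
    have h3 : 2 * β ^ 2 * q * MM s h (2 * β ^ 2 * q) = q * (2 * β ^ 2 * MM s h (2 * β ^ 2 * q)) := by
      ring
    rw [h3] at h2
    by_contra hcon
    push Not at hcon
    nlinarith

end Pool.Agent.K7.H96.AT
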