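import Pool.Agent.K7.H96.AT.MaxP

set_option autoImplicit false

/-!
# Comparison for solutions of the Parisi equation
-/

open Set Filter Topology

namespace Pool.Agent.K7.H96.AT

/-- Solution of the Parisi equation on `[a, b]`, with its space derivatives `f₁`, `f₂`; the time
derivative is the right derivative. -/
structure Sol (β : ℝ) (ζ : ℝ → ℝ) (a b : ℝ) (f f₁ f₂ : ℝ → ℝ → ℝ) : Prop where
  cont : ContinuousOn (fun p : ℝ × ℝ => f p.1 p.2) (Icc a b ×ˢ univ)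
  d1 : ∀ t ∈ Icc a b, ∀ x, HasDerivAt (f t) (f₁ t x) x
  d2 : ∀ t ∈ Icc a b, ∀ x, HasDerivAt (f₁ t) (f₂ t x) x
  bd : ∃ C, 0 ≤ C ∧ ∀ t ∈ Icc a b, ∀ x, |f₁ t x| ≤ C
  pde : ∀ t ∈ Ico a b, ∀ x,
    HasDerivWithinAt (fun s => f s x) (-(β ^ 2 * (f₂ t x + ζ t * f₁ t x ^ 2))) (Ici t) t

lemma Sol.mono {β : ℝ} {ζ : ℝ → ℝ} {a b a' b' : ℝ} {f f₁ f₂ : ℝ → ℝ → ℝ} (h : Sol β ζ a b f f₁ f₂)
    (ha : a ≤ a') (hb : b' ≤ b) : Sol β ζ a' b' f f₁ f₂ := by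
  have hsub : Icc a' b' ⊆ Icc a b := Icc_subset_Icc ha hb
  obtain ⟨C, hC, hC2⟩ := h.bd
  exact ⟨h.cont.mono (prod_mono hsub Subset.rfl), fun t ht => h.d1 t (hsub ht),
    fun t ht => h.d2 t (hsub ht), ⟨C, hC, fun t ht => hC2 t (hsub ht)⟩,
    fun t ht => h.pde t ⟨ha.trans ht.1, lt_of_lt_of_le ht.2 hb⟩⟩

/-- linear growth -/
lemma Sol.growth {β : ℝ} {ζ : ℝ → ℝ} {a b : ℝ} {f f₁ f₂ : ℝ → ℝ → ℝ} (h : Sol β ζ a b f f₁ f₂) :
    ∃ C, 0 ≤ C ∧ ∀ t ∈ Icc a b, ∀ x, |f t x| ≤ C * (1 + |x|) := by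
  obtain ⟨C, hC, hC2⟩ := h.bd
  have h0 : ContinuousOn (fun t => f t 0) (Icc a b) :=
    h.cont.comp (f := fun t : ℝ => (t, (0 : ℝ))) (by fun_prop) fun t ht => ⟨ht, mem_univ _⟩
  obtain ⟨C', hC'⟩ := isCompact_Icc.exists_bound_of_continuousOn h0
  refine ⟨max C |C'|, le_max_of_le_left hC, fun t ht x => ?_⟩
  have h1 : |f t x - f t 0| ≤ C * |x| := by
    have := Convex.norm_image_sub_le_of_norm_hasDerivWithin_le (𝕜 := ℝ) (f := f t) (f' := f₁ t)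
      (s := univ) (x := 0) (y := x) (C := C) (fun y _ => (h.d1 t ht y).hasDerivWithinAt)
      (fun y _ => hC2 t ht y) convex_univ (mem_univ _) (mem_univ _)
    simpa using this
  have h2 : |f t 0| ≤ |C'| := (hC' t ht).trans (le_abs_self _)
  have h3 : |f t x| ≤ |f t x - f t 0| + |f t 0| := by
    have := abs_add_le (f t x - f t 0) (f t 0)
    simpa using this
  have h4 := le_max_left C |C'|
  have h5 := le_max_right C |C'|
  nlinarith [abs_nonneg x]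

/-- **Stage lemma**: a lower bound for the solution. -/
theorem stage {β κ : ℝ} (hκ : 0 ≤ κ) (hκ1 : κ ≤ 1) {ζ : ℝ → ℝ} {a b : ℝ}
    (hζ : ∀ t ∈ Icc a b, 0 ≤ ζ t ∧ ζ t ≤ 1)
    {f f₁ f₂ : ℝ → ℝ → ℝ} (hf : Sol β ζ a b f f₁ f₂)
    {u u₁ u₂ A A₁ A₂ At : ℝ → ℝ → ℝ}
    (hucont : ContinuousOn (fun p : ℝ × ℝ => u p.1 p.2) (Icc a b ×ˢ univ))
    (hu : ∀ t ∈ Icc a b, ∀ x, |u t x| ≤ 1)
    (hu1 : ∀ t ∈ Icc a b, ∀ x, HasDerivAt (u t) (u₁ t x) x)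
    (hu2 : ∀ t ∈ Icc a b, ∀ x, HasDerivAt (u₁ t) (u₂ t x) x)
    (hut : ∀ t ∈ Ico a b, ∀ x, HasDerivWithinAt (fun s => u s x)
      (-(β ^ 2 * (u₂ t x + 2 * κ * u t x * u₁ t x))) (Ici t) t)
    (hAcont : ContinuousOn (fun p : ℝ × ℝ => A p.1 p.2) (Icc a b ×ˢ univ))
    (hAgrow : ∃ C, 0 ≤ C ∧ ∀ t ∈ Icc a b, ∀ x, A t x ≤ C * (1 + x ^ 2))
    (hA1 : ∀ t ∈ Icc a b, ∀ x, HasDerivAt (A t) (A₁ t x) x)
    (hA2 : ∀ t ∈ Icc a b, ∀ x, HasDerivAt (A₁ t) (A₂ t x) x)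
    (hAt : ∀ t ∈ Ico a b, ∀ x, HasDerivWithinAt (fun s => A s x) (At t x) (Ici t) t)
    (hA : ∀ t ∈ Ico a b, ∀ x, At t x + β ^ 2 * A₂ t x + 2 * β ^ 2 * κ * u t x * A₁ t x =
      β ^ 2 * (2 * κ - ζ t) * u t x ^ 2)
    (hterm : ∀ x w, A b x + u b x * w ≤ f b (x + w)) :
    ∀ t ∈ Icc a b, ∀ x w, A t x + u t x * w ≤ f t (x + w) := by
  have hsub : ∀ {t}, t ∈ Ico a b → t ∈ Icc a b := fun h => Ico_subset_Icc_self h
  have key := max_principle (a := a) (b := b) (c := β ^ 2) (K := 2 * β ^ 2) (sq_nonneg _)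
    (by positivity) (D := fun t x w => f t (x + w) - A t x - u t x * w)
    (Dt := fun t x w => -(β ^ 2 * (f₂ t (x + w) + ζ t * f₁ t (x + w) ^ 2)) - At t x -
      (-(β ^ 2 * (u₂ t x + 2 * κ * u t x * u₁ t x))) * w)
    (Dx := fun t x w => f₁ t (x + w) - A₁ t x - u₁ t x * w)
    (Dxx := fun t x w => f₂ t (x + w) - A₂ t x - u₂ t x * w)
    (Dw := fun t x w => f₁ t (x + w) - u t x)
    (p := fun t x _ => 2 * β ^ 2 * κ * u t x) (r := fun t x _ => 2 * β ^ 2 * (ζ t - κ) * u t x)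
    ?_ ?_ ?_ ?_ ?_ ?_ ?_ ?_ ?_ ?_
  · intro t ht x w
    have := key t ht x w
    linarith
  · refine ((hf.cont.comp (f := fun q : ℝ × ℝ × ℝ => (q.1, q.2.1 + q.2.2)) (by fun_prop)
      fun q hq => ⟨hq.1, mem_univ _⟩).sub (hAcont.comp (f := fun q : ℝ × ℝ × ℝ => (q.1, q.2.1))
      (by fun_prop) fun q hq => ⟨hq.1, mem_univ _⟩)).sub ((hucont.comp
      (f := fun q : ℝ × ℝ × ℝ => (q.1, q.2.1)) (by fun_prop) fun q hq => ⟨hq.1, mem_univ _⟩).mul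
      (by fun_prop))
  · obtain ⟨C, hC, hC2⟩ := hf.growth
    obtain ⟨C', hC', hC2'⟩ := hAgrow
    refine ⟨2 * C + C' + 2, by positivity, fun t ht x w => ?_⟩
    have h1 := (abs_le.1 (hC2 t ht (x + w))).1
    have h2 := hC2' t ht x
    have h3 : u t x * w ≤ |w| := by
      calc u t x * w ≤ |u t x * w| := le_abs_self _
        _ = |u t x| * |w| := abs_mul _ _
        _ ≤ 1 * |w| := mul_le_mul_of_nonneg_right (hu t ht x) (abs_nonneg _)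
        _ = |w| := one_mul _
    have h4 : |x + w| ≤ |x| + |w| := abs_add_le _ _
    have h5 : |x| ≤ (1 + x ^ 2) / 2 := by nlinarith [sq_abs x, sq_nonneg (|x| - 1)]
    have h6 : |w| ≤ (1 + w ^ 2) / 2 := by nlinarith [sq_abs w, sq_nonneg (|w| - 1)]
    have h7 : C * (1 + |x + w|) ≤ C * (1 + ((1 + x ^ 2) / 2 + (1 + w ^ 2) / 2)) := by
      apply mul_le_mul_of_nonneg_left _ hC; linarith
    have h8 : 0 ≤ C * x ^ 2 := by positivity
    have h9 : 0 ≤ C * w ^ 2 := by positivity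
    have h10 : 0 ≤ C' * w ^ 2 := by positivity
    nlinarith [sq_nonneg x, sq_nonneg w]
  · intro x w; have := hterm x w; linarith
  · intro t ht x w
    exact ((hf.pde t ht (x + w)).sub (hAt t ht x)).sub ((hut t ht x).mul_const w)
  · intro t ht x w
    have h1 := (hf.d1 t (hsub ht) (x + w)).comp x ((hasDerivAt_id x).add_const w)
    rw [mul_one] at h1
    exact (h1.sub (hA1 t (hsub ht) x)).sub ((hu1 t (hsub ht) x).mul_const w)
  · intro t ht x w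
    have h1 := (hf.d2 t (hsub ht) (x + w)).comp x ((hasDerivAt_id x).add_const w)
    rw [mul_one] at h1
    exact (h1.sub (hA2 t (hsub ht) x)).sub ((hu2 t (hsub ht) x).mul_const w)
  · intro t ht x w
    have h1 := (hf.d1 t (hsub ht) (x + w)).comp w ((hasDerivAt_id w).const_add x)
    rw [mul_one] at h1
    have h2 : HasDerivAt (fun w => u t x * w) (u t x) w := by
      simpa using (hasDerivAt_id w).const_mul (u t x)
    exact (h1.sub_const (A t x)).sub h2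
  · intro t ht x w
    have h1 := hu t (hsub ht) x
    rw [abs_mul, abs_mul, abs_of_nonneg (by positivity : 0 ≤ 2 * β ^ 2), abs_of_nonneg hκ]
    have : κ * |u t x| ≤ 1 := mul_le_one₀ hκ1 (abs_nonneg _) h1
    nlinarith [sq_nonneg β]
  · intro t ht x w
    have h1 := hu t (hsub ht) x
    have h2 := hζ t (hsub ht)
    rw [abs_mul, abs_mul, abs_of_nonneg (by positivity : 0 ≤ 2 * β ^ 2)]
    have h3 : |ζ t - κ| ≤ 1 := by rw [abs_le]; constructor <;> linarith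
    have : |ζ t - κ| * |u t x| ≤ 1 := mul_le_one₀ h3 (abs_nonneg _) h1
    nlinarith [sq_nonneg β]
  · intro t ht x w
    have h1 := hA t ht x
    have h2 := (hζ t (hsub ht)).1
    have : -(β ^ 2 * (f₂ t (x + w) + ζ t * f₁ t (x + w) ^ 2)) - At t x -
        -(β ^ 2 * (u₂ t x + 2 * κ * u t x * u₁ t x)) * w +
        β ^ 2 * (f₂ t (x + w) - A₂ t x - u₂ t x * w) +
        2 * β ^ 2 * κ * u t x * (f₁ t (x + w) - A₁ t x - u₁ t x * w) +
        2 * β ^ 2 * (ζ t - κ) * u t x * (f₁ t (x + w) - u t x) =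
        -(β ^ 2 * (ζ t * (f₁ t (x + w) - u t x) ^ 2)) -
        ((At t x + β ^ 2 * A₂ t x + 2 * β ^ 2 * κ * u t x * A₁ t x) -
          β ^ 2 * (2 * κ - ζ t) * u t x ^ 2) := by ring
    rw [this, h1, sub_self, sub_zero]
    have : 0 ≤ β ^ 2 * (ζ t * (f₁ t (x + w) - u t x) ^ 2) := by positivity
    linarith

/-- comparison of a solution with a super- or subsolution: if `A` is a supersolution and `A ≥ f`
at the final time then `A ≥ f`. -/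
theorem comparison {β : ℝ} {ζ : ℝ → ℝ} {a b : ℝ} (hζ : ∀ t ∈ Icc a b, 0 ≤ ζ t ∧ ζ t ≤ 1)
    {f f₁ f₂ : ℝ → ℝ → ℝ} (hf : Sol β ζ a b f f₁ f₂) {A A₁ A₂ At : ℝ → ℝ → ℝ}
    (hAcont : ContinuousOn (fun p : ℝ × ℝ => A p.1 p.2) (Icc a b ×ˢ univ))
    (hAgrow : ∃ C, 0 ≤ C ∧ ∀ t ∈ Icc a b, ∀ x, |A t x| ≤ C * (1 + x ^ 2))
    (hAbd : ∃ C, 0 ≤ C ∧ ∀ t ∈ Icc a b, ∀ x, |A₁ t x| ≤ C)
    (hA1 : ∀ t ∈ Icc a b, ∀ x, HasDerivAt (A t) (A₁ t x) x)
    (hA2 : ∀ t ∈ Icc a b, ∀ x, HasDerivAt (A₁ t) (A₂ t x) x)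
    (hAt : ∀ t ∈ Ico a b, ∀ x, HasDerivWithinAt (fun s => A s x) (At t x) (Ici t) t)
    (hA : ∀ t ∈ Ico a b, ∀ x, At t x + β ^ 2 * A₂ t x + β ^ 2 * ζ t * A₁ t x ^ 2 ≤ 0)
    (hterm : ∀ x, f b x ≤ A b x) :
    ∀ t ∈ Icc a b, ∀ x, f t x ≤ A t x := by
  have hsub : ∀ {t}, t ∈ Ico a b → t ∈ Icc a b := fun h => Ico_subset_Icc_self h
  obtain ⟨C₁, hC₁, hC₁'⟩ := hf.bd
  obtain ⟨C₂, hC₂, hC₂'⟩ := hAbd
  have key := max_principle (a := a) (b := b) (c := β ^ 2) (K := β ^ 2 * (C₁ + C₂)) (sq_nonneg _)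
    (by positivity) (D := fun t x _ => A t x - f t x)
    (Dt := fun t x _ => At t x - -(β ^ 2 * (f₂ t x + ζ t * f₁ t x ^ 2)))
    (Dx := fun t x _ => A₁ t x - f₁ t x)
    (Dxx := fun t x _ => A₂ t x - f₂ t x)
    (Dw := fun _ _ _ => 0)
    (p := fun t x _ => β ^ 2 * ζ t * (A₁ t x + f₁ t x)) (r := fun _ _ _ => 0)
    ?_ ?_ ?_ ?_ ?_ ?_ ?_ ?_ ?_ ?_
  · intro t ht x
    have := key t ht x 0
    linarith
  · exact (hAcont.comp (f := fun q : ℝ × ℝ × ℝ => (q.1, q.2.1)) (by fun_prop)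
      fun q hq => ⟨hq.1, mem_univ _⟩).sub (hf.cont.comp (f := fun q : ℝ × ℝ × ℝ => (q.1, q.2.1))
      (by fun_prop) fun q hq => ⟨hq.1, mem_univ _⟩)
  · obtain ⟨C, hC, hC2⟩ := hf.growth
    obtain ⟨C', hC', hC2'⟩ := hAgrow
    refine ⟨2 * C + C', by positivity, fun t ht x w => ?_⟩
    have h1 := (abs_le.1 (hC2 t ht x)).2
    have h2 := (abs_le.1 (hC2' t ht x)).1
    have h5 : |x| ≤ (1 + x ^ 2) / 2 := by nlinarith [sq_abs x, sq_nonneg (|x| - 1)]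
    have h7 : C * (1 + |x|) ≤ C * (1 + (1 + x ^ 2) / 2) := by
      apply mul_le_mul_of_nonneg_left _ hC; linarith
    have h8 : 0 ≤ C * x ^ 2 := by positivity
    have h9 : 0 ≤ C * w ^ 2 := by positivity
    have h10 : 0 ≤ C' * w ^ 2 := by positivity
    nlinarith [sq_nonneg x, sq_nonneg w]
  · intro x w; have := hterm x; linarith
  · intro t ht x w
    exact (hAt t ht x).sub (hf.pde t ht x)
  · intro t ht x w
    exact (hA1 t (hsub ht) x).sub (hf.d1 t (hsub ht) x)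
  · intro t ht x w
    exact (hA2 t (hsub ht) x).sub (hf.d2 t (hsub ht) x)
  · intro t ht x w
    exact hasDerivAt_const _ _
  · intro t ht x w
    have h1 := hC₁' t (hsub ht) x
    have h2 := hC₂' t (hsub ht) x
    have h3 := hζ t (hsub ht)
    rw [abs_mul, abs_mul, abs_of_nonneg (sq_nonneg β), abs_of_nonneg h3.1]
    have h4 : |A₁ t x + f₁ t x| ≤ C₁ + C₂ := (abs_add_le _ _).trans (by linarith)
    calc β ^ 2 * ζ t * |A₁ t x + f₁ t x| ≤ β ^ 2 * 1 * (C₁ + C₂) := by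
          gcongr
          exact h3.2
      _ = _ := by ring
  · intro t ht x w
    rw [abs_zero]; positivity
  · intro t ht x w
    have h1 := hA t ht x
    nlinarith

end Pool.Agent.K7.H96.AT
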