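import Pool.Agent.K7.H96.AT.Ineq2
import Pool.Agent.K7.H96.AT.Stage
import Pool.Agent.K7.H96.AT.Duhamel

set_option autoImplicit false

/-!
# The two kernels
-/

open MeasureTheory ProbabilityTheory Set Filter Topology

namespace Pool.Agent.K7.H96.AT

/-- `log cosh` -/
noncomputable def lc (x : ℝ) : ℝ := Real.log (Real.cosh x)

lemma hasDerivAt_lc (x : ℝ) : HasDerivAt lc (Real.tanh x) x := by
  have := (Real.hasDerivAt_cosh x).log (Real.cosh_pos x).ne'
  rwa [← Real.tanh_eq_sinh_div_cosh] at this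

lemma continuous_lc : Continuous lc :=
  continuous_iff_continuousAt.2 fun x => (hasDerivAt_lc x).continuousAt

lemma lc_nonneg (x : ℝ) : 0 ≤ lc x := Real.log_nonneg (Real.one_le_cosh x)

lemma lc_le (x : ℝ) : lc x ≤ |x| := by
  unfold lc
  rw [Real.log_le_iff_le_exp (Real.cosh_pos x), ← Real.cosh_abs, Real.cosh_eq]
  have : Real.exp (-|x|) ≤ Real.exp |x| := Real.exp_le_exp.2 (by linarith [abs_nonneg x])
  linarith

lemma EG_lc : EG lc := by
  refine ⟨continuous_lc, 1, 1, zero_le_one, zero_le_one, fun y => ?_⟩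
  rw [abs_of_nonneg (lc_nonneg y), one_mul, one_mul]
  linarith [lc_le y, Real.add_one_le_exp |y|]

lemma tanh_strictMono : StrictMono Real.tanh :=
  strictMono_of_deriv_pos fun x => by
    rw [(hasDerivAt_tanh x).deriv]; exact pow_pos (sech_pos x) 2

/-- the tangent inequality for `log cosh` -/
lemma lc_tangent (x w : ℝ) : lc x + Real.tanh x * w ≤ lc (x + w) := by
  rcases lt_trichotomy w 0 with h | h | h
  · obtain ⟨ξ, hξ, e⟩ := exists_hasDerivAt_eq_slope lc Real.tanh (show x + w < x by linarith)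
      continuous_lc.continuousOn fun y _ => hasDerivAt_lc y
    have h1 : Real.tanh ξ ≤ Real.tanh x := tanh_strictMono.monotone hξ.2.le
    have h2 : x - (x + w) = -w := by ring
    rw [h2, eq_div_iff (by linarith)] at e
    nlinarith
  · subst h; simp
  · obtain ⟨ξ, hξ, e⟩ := exists_hasDerivAt_eq_slope lc Real.tanh (show x < x + w by linarith)
      continuous_lc.continuousOn fun y _ => hasDerivAt_lc y
    have h1 : Real.tanh x ≤ Real.tanh ξ := tanh_strictMono.monotone hξ.1.le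
    have h2 : (x + w) - x = w := by ring
    rw [h2, eq_div_iff (by linarith)] at e
    nlinarith

/-! ### The kernel for times larger than `q` -/

/-- first derivative of `pp` -/
noncomputable def pp1 (s y : ℝ) : ℝ := Real.exp (-s / 2) * G (fun y => -(sech y * Real.tanh y)) y s

/-- second derivative of `pp` -/
noncomputable def pp2 (s y : ℝ) : ℝ := Real.exp (-s / 2) * G (fun y => sech y - 2 * sech y ^ 3) y s

lemma EG_s1 : EG (fun y => -(sech y * Real.tanh y)) := (EG_sech.mul EG_tanh).neg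

lemma EG_s2 : EG (fun y => sech y - 2 * sech y ^ 3) := EG_sech.sub ((EG_sech_pow 3).const_mul 2)

lemma hasDerivAt_s1 (y : ℝ) : HasDerivAt (fun y => -(sech y * Real.tanh y))
    (sech y - 2 * sech y ^ 3) y := by
  have := (hasDerivAt_sech_pow_tanh 1 y).neg
  simp only [pow_one] at this
  refine this.congr_deriv ?_
  push_cast; ring

lemma hasDerivAt_pp_x (s y : ℝ) : HasDerivAt (pp s) (pp1 s y) y :=
  (hasDerivAt_G EG_sech EG_s1 hasDerivAt_sech y s).const_mul _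

lemma hasDerivAt_pp1_x (s y : ℝ) : HasDerivAt (pp1 s) (pp2 s y) y :=
  (hasDerivAt_G EG_s1 EG_s2 hasDerivAt_s1 y s).const_mul _

lemma EGF_pp1 : EGF pp1 := EGF_expG EG_s1

lemma EGF_pp2 : EGF pp2 := EGF_expG EG_s2

lemma pp2_eq (s y : ℝ) : pp2 s y = pp s y - 2 * kk s y := by
  unfold pp2 pp kk
  rw [G_sub EG_sech ((EG_sech_pow 3).const_mul 2), G_const_mul]; ring

lemma exp_half_le {s : ℝ} (hs : 0 ≤ s) : Real.exp (-s / 2) ≤ 1 := by
  rw [Real.exp_le_one_iff]; linarith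

lemma expG_abs_le {F : ℝ → ℝ} (hF : EG F) {C : ℝ} (hC : ∀ y, |F y| ≤ C) {s : ℝ} (hs : 0 ≤ s)
    (y : ℝ) : |Real.exp (-s / 2) * G F y s| ≤ C := by
  have h0 : 0 ≤ C := (abs_nonneg _).trans (hC 0)
  rw [abs_mul, abs_of_pos (Real.exp_pos _)]
  calc Real.exp (-s / 2) * |G F y s| ≤ 1 * C :=
        mul_le_mul (exp_half_le hs) (G_abs_le hF hC y s) (abs_nonneg _) zero_le_one
    _ = C := one_mul C

lemma sech_abs_le (y : ℝ) : |sech y| ≤ 1 := by
  rw [abs_of_pos (sech_pos y)]; exact sech_le_one y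

lemma s1_abs_le (y : ℝ) : |-(sech y * Real.tanh y)| ≤ 1 := by
  rw [abs_neg, abs_mul]
  exact mul_le_one₀ (sech_abs_le y) (abs_nonneg _) (abs_tanh_le_one y)

lemma s2_abs_le (y : ℝ) : |sech y - 2 * sech y ^ 3| ≤ 3 := by
  have h1 := sech_pos y
  have h2 := sech_le_one y
  have h3 := pow_pos h1 3
  have h4 : sech y ^ 3 ≤ 1 := pow_le_one₀ h1.le h2
  rw [abs_le]; constructor <;> linarith

/-- the survival kernel `S` and its derivatives -/
noncomputable def SS (s x : ℝ) : ℝ := sech x * pp s x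

noncomputable def SS1 (s x : ℝ) : ℝ := -(sech x * Real.tanh x) * pp s x + sech x * pp1 s x

noncomputable def SS2 (s x : ℝ) : ℝ := (sech x - 2 * sech x ^ 3) * pp s x +
  -(sech x * Real.tanh x) * pp1 s x + (-(sech x * Real.tanh x) * pp1 s x + sech x * pp2 s x)

lemma hasDerivAt_SS_x (s x : ℝ) : HasDerivAt (SS s) (SS1 s x) x :=
  (hasDerivAt_sech x).mul (hasDerivAt_pp_x s x)

lemma hasDerivAt_SS1_x (s x : ℝ) : HasDerivAt (SS1 s) (SS2 s x) x :=
  ((hasDerivAt_s1 x).mul (hasDerivAt_pp_x s x)).add ((hasDerivAt_sech x).mul (hasDerivAt_pp1_x s x))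

lemma hasDerivAt_SS_s (x : ℝ) {s : ℝ} (hs : 0 < s) :
    HasDerivAt (fun s => SS s x) (1 / 2 * SS2 s x + Real.tanh x * SS1 s x) s := by
  refine ((hasDerivAt_pp x hs).const_mul (sech x)).congr_deriv ?_
  unfold SS2 SS1
  rw [pp2_eq]
  have h := tanh_sq x
  have e : Real.tanh x * (-(sech x * Real.tanh x) * pp s x + sech x * pp1 s x) =
    -(sech x * Real.tanh x ^ 2) * pp s x + sech x * Real.tanh x * pp1 s x := by ring
  rw [e, h]; ring

lemma continuous_SS : Continuous (fun p : ℝ × ℝ => SS p.1 p.2) :=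
  (continuous_sech.comp continuous_snd).mul EGF_pp.cont

lemma continuous_SS1 : Continuous (fun p : ℝ × ℝ => SS1 p.1 p.2) :=
  ((EG_s1.cont.comp continuous_snd).mul EGF_pp.cont).add
    ((continuous_sech.comp continuous_snd).mul EGF_pp1.cont)

lemma continuous_SS2 : Continuous (fun p : ℝ × ℝ => SS2 p.1 p.2) :=
  (((EG_s2.cont.comp continuous_snd).mul EGF_pp.cont).add
    ((EG_s1.cont.comp continuous_snd).mul EGF_pp1.cont)).add
  (((EG_s1.cont.comp continuous_snd).mul EGF_pp1.cont).add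
    ((continuous_sech.comp continuous_snd).mul EGF_pp2.cont))

lemma abs_mul_le' {a b A B : ℝ} (ha : |a| ≤ A) (hb : |b| ≤ B) : |a * b| ≤ A * B := by
  rw [abs_mul]
  exact mul_le_mul ha hb (abs_nonneg _) ((abs_nonneg _).trans ha)

lemma SS_abs_le {s : ℝ} (hs : 0 ≤ s) (x : ℝ) : |SS s x| ≤ 1 := by
  have := abs_mul_le' (sech_abs_le x) (expG_abs_le EG_sech sech_abs_le hs x)
  rwa [one_mul] at this

lemma SS1_abs_le {s : ℝ} (hs : 0 ≤ s) (x : ℝ) : |SS1 s x| ≤ 2 := by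
  have h1 := abs_mul_le' (s1_abs_le x) (expG_abs_le EG_sech sech_abs_le hs x)
  have h2 := abs_mul_le' (sech_abs_le x) (expG_abs_le EG_s1 s1_abs_le hs x)
  unfold SS1 pp pp1
  refine (abs_add_le _ _).trans ?_
  linarith

lemma SS2_abs_le {s : ℝ} (hs : 0 ≤ s) (x : ℝ) : |SS2 s x| ≤ 8 := by
  have h1 := abs_mul_le' (s2_abs_le x) (expG_abs_le EG_sech sech_abs_le hs x)
  have h2 := abs_mul_le' (s1_abs_le x) (expG_abs_le EG_s1 s1_abs_le hs x)
  have h3 := abs_mul_le' (sech_abs_le x) (expG_abs_le EG_s2 s2_abs_le hs x)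
  unfold SS2 pp pp1 pp2
  refine (abs_add_le _ _).trans ?_
  have h4 := (abs_add_le ((sech x - 2 * sech x ^ 3) * (Real.exp (-s / 2) * G sech x s))
    (-(sech x * Real.tanh x) * (Real.exp (-s / 2) * G (fun y => -(sech y * Real.tanh y)) x s)))
  have h5 := (abs_add_le (-(sech x * Real.tanh x) * (Real.exp (-s / 2) *
    G (fun y => -(sech y * Real.tanh y)) x s)) (sech x * (Real.exp (-s / 2) *
      G (fun y => sech y - 2 * sech y ^ 3) x s)))
  linarith

lemma SS_zero (x : ℝ) : SS 0 x = sech x ^ 2 := by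
  unfold SS pp
  rw [G_zero]; simp; ring

/-- time change -/
noncomputable def tc (β r t : ℝ) : ℝ := max (2 * β ^ 2 * (r - t)) 0

lemma tc_nonneg (β r t : ℝ) : 0 ≤ tc β r t := le_max_right _ _

lemma continuous_tc (β : ℝ) : Continuous (fun p : ℝ × ℝ × ℝ => tc β p.1 p.2.1) := by
  unfold tc; fun_prop

/-- the kernel for times larger than `q` -/
noncomputable def KA (β r t x : ℝ) : ℝ := 1 - SS (tc β r t) x

noncomputable def KA1 (β r t x : ℝ) : ℝ := - SS1 (tc β r t) x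

noncomputable def KA2 (β r t x : ℝ) : ℝ := - SS2 (tc β r t) x

lemma continuous_KA (β : ℝ) : Continuous (fun p : ℝ × ℝ × ℝ => KA β p.1 p.2.1 p.2.2) :=
  continuous_const.sub (continuous_SS.comp
    ((continuous_tc β).prodMk (by fun_prop : Continuous fun p : ℝ × ℝ × ℝ => p.2.2)))

lemma continuous_KA1 (β : ℝ) : Continuous (fun p : ℝ × ℝ × ℝ => KA1 β p.1 p.2.1 p.2.2) :=
  (continuous_SS1.comp
    ((continuous_tc β).prodMk (by fun_prop : Continuous fun p : ℝ × ℝ × ℝ => p.2.2))).neg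

lemma continuous_KA2 (β : ℝ) : Continuous (fun p : ℝ × ℝ × ℝ => KA2 β p.1 p.2.1 p.2.2) :=
  (continuous_SS2.comp
    ((continuous_tc β).prodMk (by fun_prop : Continuous fun p : ℝ × ℝ × ℝ => p.2.2))).neg

lemma KA_abs_le (β r t x : ℝ) : |KA β r t x| ≤ 8 := by
  have h := abs_le.1 (SS_abs_le (tc_nonneg β r t) x)
  unfold KA
  rw [abs_le]; constructor <;> linarith

lemma KA1_abs_le (β r t x : ℝ) : |KA1 β r t x| ≤ 8 := by
  have h := SS1_abs_le (tc_nonneg β r t) x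
  unfold KA1
  rw [abs_neg]; linarith

lemma KA2_abs_le (β r t x : ℝ) : |KA2 β r t x| ≤ 8 := by
  have h := SS2_abs_le (tc_nonneg β r t) x
  unfold KA2
  rw [abs_neg]; linarith

lemma KA_d1 (β r t x : ℝ) : HasDerivAt (KA β r t) (KA1 β r t x) x :=
  (hasDerivAt_SS_x _ x).const_sub 1

lemma KA_d2 (β r t x : ℝ) : HasDerivAt (KA1 β r t) (KA2 β r t x) x :=
  (hasDerivAt_SS1_x _ x).neg

lemma tc_of_le (β : ℝ) {r t : ℝ} (h : r ≤ t) : tc β r t = 0 := by
  unfold tc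
  exact max_eq_right (mul_nonpos_of_nonneg_of_nonpos (by positivity) (by linarith))

lemma tc_of_lt {β : ℝ} {r t : ℝ} (h : t ≤ r) : tc β r t = 2 * β ^ 2 * (r - t) := by
  unfold tc
  exact max_eq_left (mul_nonneg (by positivity) (by linarith))

lemma KA_diag (β r t x : ℝ) (h : r ≤ t) : KA β r t x = KA β r r x := by
  unfold KA
  rw [tc_of_le β h, tc_of_le β le_rfl]

lemma KA_self (β t x : ℝ) : KA β t t x = Real.tanh x ^ 2 := by
  unfold KA
  rw [tc_of_le β le_rfl, SS_zero, tanh_sq]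

lemma KA_time {β : ℝ} (hβ : 0 < β) {r t : ℝ} (x : ℝ) (h : t < r) :
    HasDerivWithinAt (fun t => KA β r t x)
      (-(β ^ 2 * KA2 β r t x + 2 * β ^ 2 * 1 * Real.tanh x * KA1 β r t x)) (Ici t) t := by
  have h0 : 0 < 2 * β ^ 2 * (r - t) := mul_pos (by positivity) (sub_pos.2 h)
  have h1 : HasDerivAt (fun t => 2 * β ^ 2 * (r - t)) (-(2 * β ^ 2)) t := by
    have := ((hasDerivAt_id t).const_sub r).const_mul (2 * β ^ 2)
    simpa using this
  have h2 := (hasDerivAt_SS_s x h0).comp t h1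
  have h3 : HasDerivAt (fun t => KA β r t x)
      (-((1 / 2 * SS2 (2 * β ^ 2 * (r - t)) x + Real.tanh x * SS1 (2 * β ^ 2 * (r - t)) x) *
        -(2 * β ^ 2))) t := by
    refine (h2.const_sub 1).congr_of_eventuallyEq ?_
    filter_upwards [eventually_lt_nhds h] with t' ht'
    unfold KA
    rw [tc_of_lt ht'.le]; rfl
  refine (h3.congr_deriv ?_).hasDerivWithinAt
  unfold KA1 KA2
  rw [tc_of_lt h.le]; ring

/-! ### The kernel for times smaller than `q` -/

/-- `U(t, x) = E tanh(x + ...)` and its derivatives -/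
noncomputable def U (β q t x : ℝ) : ℝ := G Real.tanh x (2 * β ^ 2 * (q - t))

noncomputable def U1 (β q t x : ℝ) : ℝ := G (fun y => sech y ^ 2) x (2 * β ^ 2 * (q - t))

noncomputable def U2 (β q t x : ℝ) : ℝ :=
  G (fun y => -(2 * (sech y ^ 2 * Real.tanh y))) x (2 * β ^ 2 * (q - t))

lemma EG_t2 : EG (fun y => -(2 * (sech y ^ 2 * Real.tanh y))) :=
  (((EG_sech_pow 2).mul EG_tanh).const_mul 2).neg

lemma hasDerivAt_t1 (y : ℝ) : HasDerivAt (fun y => sech y ^ 2) (-(2 * (sech y ^ 2 * Real.tanh y))) y := by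
  simpa using hasDerivAt_sech_pow 2 y

lemma t2_abs_le (y : ℝ) : |-(2 * (sech y ^ 2 * Real.tanh y))| ≤ 2 := by
  rw [abs_neg, abs_mul, abs_mul, abs_of_nonneg (sq_nonneg (sech y)), abs_of_pos (by norm_num : (0:ℝ) < 2)]
  have h1 : sech y ^ 2 ≤ 1 := pow_le_one₀ (sech_pos y).le (sech_le_one y)
  have := mul_le_one₀ h1 (abs_nonneg _) (abs_tanh_le_one y)
  linarith

lemma sech_sq_abs_le (y : ℝ) : |sech y ^ 2| ≤ 1 := by
  rw [abs_of_nonneg (sq_nonneg _)]; exact pow_le_one₀ (sech_pos y).le (sech_le_one y)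

lemma EGF_U (β q : ℝ) : EGF (U β q) :=
  EG_tanh.G.comp (by fun_prop : Continuous fun t : ℝ => 2 * β ^ 2 * (q - t))

lemma EGF_U1 (β q : ℝ) : EGF (U1 β q) :=
  (EG_sech_pow 2).G.comp (by fun_prop : Continuous fun t : ℝ => 2 * β ^ 2 * (q - t))

lemma EGF_U2 (β q : ℝ) : EGF (U2 β q) :=
  EG_t2.G.comp (by fun_prop : Continuous fun t : ℝ => 2 * β ^ 2 * (q - t))

lemma U_d1 (β q t x : ℝ) : HasDerivAt (U β q t) (U1 β q t x) x :=
  hasDerivAt_G EG_tanh (EG_sech_pow 2) hasDerivAt_tanh x _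

lemma U_d2 (β q t x : ℝ) : HasDerivAt (U1 β q t) (U2 β q t x) x :=
  hasDerivAt_G (EG_sech_pow 2) EG_t2 hasDerivAt_t1 x _

lemma U_abs_le (β q t x : ℝ) : |U β q t x| ≤ 1 := G_abs_le EG_tanh abs_tanh_le_one _ _

lemma U1_abs_le (β q t x : ℝ) : |U1 β q t x| ≤ 1 := G_abs_le (EG_sech_pow 2) sech_sq_abs_le _ _

lemma U2_abs_le (β q t x : ℝ) : |U2 β q t x| ≤ 2 := G_abs_le EG_t2 t2_abs_le _ _

/-- the square of `U` and its derivatives -/
noncomputable def Q0 (β q r y : ℝ) : ℝ := U β q r y * U β q r y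

noncomputable def Q1 (β q r y : ℝ) : ℝ := U1 β q r y * U β q r y + U β q r y * U1 β q r y

noncomputable def Q2 (β q r y : ℝ) : ℝ :=
  U2 β q r y * U β q r y + U1 β q r y * U1 β q r y +
    (U1 β q r y * U1 β q r y + U β q r y * U2 β q r y)

lemma EGF_Q0 (β q : ℝ) : EGF (Q0 β q) := (EGF_U β q).mul (EGF_U β q)

lemma EGF_Q1 (β q : ℝ) : EGF (Q1 β q) :=
  ((EGF_U1 β q).mul (EGF_U β q)).add ((EGF_U β q).mul (EGF_U1 β q))

lemma EGF_Q2 (β q : ℝ) : EGF (Q2 β q) :=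
  (((EGF_U2 β q).mul (EGF_U β q)).add ((EGF_U1 β q).mul (EGF_U1 β q))).add
    (((EGF_U1 β q).mul (EGF_U1 β q)).add ((EGF_U β q).mul (EGF_U2 β q)))

lemma Q0_d1 (β q r y : ℝ) : HasDerivAt (Q0 β q r) (Q1 β q r y) y :=
  (U_d1 β q r y).mul (U_d1 β q r y)

lemma Q1_d1 (β q r y : ℝ) : HasDerivAt (Q1 β q r) (Q2 β q r y) y :=
  ((U_d2 β q r y).mul (U_d1 β q r y)).add ((U_d1 β q r y).mul (U_d2 β q r y))

lemma Q0_abs_le (β q r y : ℝ) : |Q0 β q r y| ≤ 8 := by
  have := abs_mul_le' (U_abs_le β q r y) (U_abs_le β q r y)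
  unfold Q0; linarith

lemma Q1_abs_le (β q r y : ℝ) : |Q1 β q r y| ≤ 8 := by
  have h1 := abs_mul_le' (U1_abs_le β q r y) (U_abs_le β q r y)
  have h2 := abs_mul_le' (U_abs_le β q r y) (U1_abs_le β q r y)
  unfold Q1
  refine (abs_add_le _ _).trans ?_
  linarith

lemma Q2_abs_le (β q r y : ℝ) : |Q2 β q r y| ≤ 8 := by
  have h1 := abs_mul_le' (U1_abs_le β q r y) (U1_abs_le β q r y)
  have h2 := abs_mul_le' (U_abs_le β q r y) (U2_abs_le β q r y)
  have h3 := abs_mul_le' (U2_abs_le β q r y) (U_abs_le β q r y)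
  unfold Q2
  refine (abs_add_le _ _).trans ?_
  have h4 := abs_add_le (U2 β q r y * U β q r y) (U1 β q r y * U1 β q r y)
  have h5 := abs_add_le (U1 β q r y * U1 β q r y) (U β q r y * U2 β q r y)
  linarith

/-- the kernel for times smaller than `q` -/
noncomputable def KB (β q r t x : ℝ) : ℝ := G (Q0 β q r) x (2 * β ^ 2 * (r - t))

noncomputable def KB1 (β q r t x : ℝ) : ℝ := G (Q1 β q r) x (2 * β ^ 2 * (r - t))

noncomputable def KB2 (β q r t x : ℝ) : ℝ := G (Q2 β q r) x (2 * β ^ 2 * (r - t))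

lemma continuous_KB (β q : ℝ) : Continuous (fun p : ℝ × ℝ × ℝ => KB β q p.1 p.2.1 p.2.2) := by
  have h1 := (EGF_Q0 β q).continuous_G
  have h2 : Continuous fun p : ℝ × ℝ × ℝ => (p.1, p.2.2, 2 * β ^ 2 * (p.1 - p.2.1)) := by fun_prop
  have h3 := h1.comp h2
  simp only [Function.comp_def] at h3
  unfold KB
  exact h3

lemma continuous_KB1 (β q : ℝ) : Continuous (fun p : ℝ × ℝ × ℝ => KB1 β q p.1 p.2.1 p.2.2) := by
  have h1 := (EGF_Q1 β q).continuous_G
  have h2 : Continuous fun p : ℝ × ℝ × ℝ => (p.1, p.2.2, 2 * β ^ 2 * (p.1 - p.2.1)) := by fun_prop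
  have h3 := h1.comp h2
  simp only [Function.comp_def] at h3
  unfold KB1
  exact h3

lemma continuous_KB2 (β q : ℝ) : Continuous (fun p : ℝ × ℝ × ℝ => KB2 β q p.1 p.2.1 p.2.2) := by
  have h1 := (EGF_Q2 β q).continuous_G
  have h2 : Continuous fun p : ℝ × ℝ × ℝ => (p.1, p.2.2, 2 * β ^ 2 * (p.1 - p.2.1)) := by fun_prop
  have h3 := h1.comp h2
  simp only [Function.comp_def] at h3
  unfold KB2
  exact h3

lemma KB_abs_le (β q r t x : ℝ) : |KB β q r t x| ≤ 8 :=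
  G_abs_le ((EGF_Q0 β q).single r) (Q0_abs_le β q r) _ _

lemma KB1_abs_le (β q r t x : ℝ) : |KB1 β q r t x| ≤ 8 :=
  G_abs_le ((EGF_Q1 β q).single r) (Q1_abs_le β q r) _ _

lemma KB2_abs_le (β q r t x : ℝ) : |KB2 β q r t x| ≤ 8 :=
  G_abs_le ((EGF_Q2 β q).single r) (Q2_abs_le β q r) _ _

lemma KB_d1 (β q r t x : ℝ) : HasDerivAt (KB β q r t) (KB1 β q r t x) x :=
  hasDerivAt_G ((EGF_Q0 β q).single r) ((EGF_Q1 β q).single r) (Q0_d1 β q r) x _

lemma KB_d2 (β q r t x : ℝ) : HasDerivAt (KB1 β q r t) (KB2 β q r t x) x :=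
  hasDerivAt_G ((EGF_Q1 β q).single r) ((EGF_Q2 β q).single r) (Q1_d1 β q r) x _

lemma KB_diag (β q r t x : ℝ) (h : r ≤ t) : KB β q r t x = KB β q r r x := by
  unfold KB
  rw [G_of_nonpos _ _ (mul_nonpos_of_nonneg_of_nonpos (by positivity) (by linarith)),
    sub_self, mul_zero, G_zero]

lemma KB_self (β q t x : ℝ) : KB β q t t x = U β q t x ^ 2 := by
  unfold KB
  rw [sub_self, mul_zero, G_zero, Q0, sq]

/-- time derivative of Gaussian averages with variance `2 β² (r - t)` -/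
lemma hasDerivAt_G_time {β : ℝ} (hβ : 0 < β) {F F' F'' : ℝ → ℝ} (hF : EG F) (hF' : EG F')
    (hF'' : EG F'') (h : ∀ y, HasDerivAt F (F' y) y) (h' : ∀ y, HasDerivAt F' (F'' y) y) (x : ℝ)
    {r t : ℝ} (ht : t < r) :
    HasDerivAt (fun t => G F x (2 * β ^ 2 * (r - t))) (-(β ^ 2 * G F'' x (2 * β ^ 2 * (r - t)))) t := by
  have h0 : 0 < 2 * β ^ 2 * (r - t) := mul_pos (by positivity) (sub_pos.2 ht)
  have h1 : HasDerivAt (fun t => 2 * β ^ 2 * (r - t)) (-(2 * β ^ 2)) t := by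
    have := ((hasDerivAt_id t).const_sub r).const_mul (2 * β ^ 2)
    simpa using this
  refine ((hasDerivAt_G_v hF hF' hF'' h h' x h0).comp t h1).congr_deriv ?_
  ring

lemma KB_time {β q : ℝ} (hβ : 0 < β) {r t : ℝ} (x : ℝ) (h : t < r) :
    HasDerivWithinAt (fun t => KB β q r t x)
      (-(β ^ 2 * KB2 β q r t x + 2 * β ^ 2 * 0 * U β q t x * KB1 β q r t x)) (Ici t) t := by
  refine ((hasDerivAt_G_time hβ ((EGF_Q0 β q).single r) ((EGF_Q1 β q).single r)
    ((EGF_Q2 β q).single r) (Q0_d1 β q r) (Q1_d1 β q r) x h).congr_deriv ?_).hasDerivWithinAt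
  unfold KB2; ring

end Pool.Agent.K7.H96.AT
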