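import Pool.Agent.K7.H96.AT.Kern

set_option autoImplicit false

/-!
# The lower bound for the solution of the Parisi equation
-/

open MeasureTheory ProbabilityTheory Set Filter Topology

namespace Pool.Agent.K7.H96.AT

/-- weights: right-continuous measurable functions with values in `[0, 1]` -/
structure Wt (c : ℝ → ℝ) : Prop where
  meas : Measurable c
  nonneg : ∀ r, 0 ≤ c r
  le_one : ∀ r, c r ≤ 1
  rc : ∀ t, ContinuousWithinAt c (Ioi t) t

lemma Wt.abs_le {c : ℝ → ℝ} (h : Wt c) (r : ℝ) : |c r| ≤ 1 := by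
  rw [abs_of_nonneg (h.nonneg r)]; exact h.le_one r

lemma Wt.compl {c : ℝ → ℝ} (h : Wt c) : Wt (fun r => 1 - c r) :=
  ⟨measurable_const.sub h.meas, fun r => by linarith [h.le_one r],
    fun r => by linarith [h.nonneg r], fun t => continuousWithinAt_const.sub (h.rc t)⟩

variable {β q : ℝ} {ζ : ℝ → ℝ} {f f₁ f₂ : ℝ → ℝ → ℝ}

/-- the lower bound for times larger than `q` -/
noncomputable def AA (β q : ℝ) (ζ : ℝ → ℝ) (t x : ℝ) : ℝ :=
  β ^ 2 * (1 - t) + lc x - β ^ 2 * DI q 1 (fun r => 1 - ζ r) (KA β) t x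

noncomputable def AA1 (β q : ℝ) (ζ : ℝ → ℝ) (t x : ℝ) : ℝ :=
  Real.tanh x - β ^ 2 * DI q 1 (fun r => 1 - ζ r) (KA1 β) t x

noncomputable def AA2 (β q : ℝ) (ζ : ℝ → ℝ) (t x : ℝ) : ℝ :=
  sech x ^ 2 - β ^ 2 * DI q 1 (fun r => 1 - ζ r) (KA2 β) t x

lemma continuous_AA (hζ : Wt ζ) : Continuous (fun p : ℝ × ℝ => AA β q ζ p.1 p.2) := by
  have h := DI_continuous (a := q) (b := 1) hζ.compl.meas hζ.compl.abs_le (continuous_KA β)
    (KA_abs_le β)
  unfold AA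
  exact ((by fun_prop : Continuous fun p : ℝ × ℝ => β ^ 2 * (1 - p.1)).add
    (continuous_lc.comp continuous_snd)).sub (continuous_const.mul h)

lemma AA_d1 (hζ : Wt ζ) (t x : ℝ) : HasDerivAt (AA β q ζ t) (AA1 β q ζ t x) x := by
  have h := DI_hasDerivAt (a := q) (b := 1) hζ.compl.meas hζ.compl.abs_le (continuous_KA β)
    (continuous_KA1 β) (KA_abs_le β) (KA1_abs_le β) (KA_d1 β) t x
  exact ((hasDerivAt_lc x).const_add _).sub (h.const_mul _)

lemma AA_d2 (hζ : Wt ζ) (t x : ℝ) : HasDerivAt (AA1 β q ζ t) (AA2 β q ζ t x) x := by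
  have h := DI_hasDerivAt (a := q) (b := 1) hζ.compl.meas hζ.compl.abs_le (continuous_KA1 β)
    (continuous_KA2 β) (KA1_abs_le β) (KA2_abs_le β) (KA_d2 β) t x
  exact (hasDerivAt_tanh x).sub (h.const_mul _)

lemma continuous_AA1 (hζ : Wt ζ) : Continuous (fun p : ℝ × ℝ => AA1 β q ζ p.1 p.2) := by
  have h := DI_continuous (a := q) (b := 1) hζ.compl.meas hζ.compl.abs_le (continuous_KA1 β)
    (KA1_abs_le β)
  unfold AA1
  exact (continuous_tanh.comp continuous_snd).sub (continuous_const.mul h)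

lemma continuous_AA2 (hζ : Wt ζ) : Continuous (fun p : ℝ × ℝ => AA2 β q ζ p.1 p.2) := by
  have h := DI_continuous (a := q) (b := 1) hζ.compl.meas hζ.compl.abs_le (continuous_KA2 β)
    (KA2_abs_le β)
  unfold AA2
  exact ((continuous_sech.pow 2).comp continuous_snd).sub (continuous_const.mul h)

/-- the time derivative of `AA` -/
noncomputable def AAt (β q : ℝ) (ζ : ℝ → ℝ) (t x : ℝ) : ℝ :=
  -(β ^ 2) - β ^ 2 * (-(β ^ 2 * DI q 1 (fun r => 1 - ζ r) (KA2 β) t x +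
    2 * β ^ 2 * 1 * Real.tanh x * DI q 1 (fun r => 1 - ζ r) (KA1 β) t x) -
      (1 - ζ t) * KA β t t x)

lemma AA_t (hβ : 0 < β) (hζ : Wt ζ) {t : ℝ} (ht : t ∈ Ico q 1) (x : ℝ) :
    HasDerivWithinAt (fun s => AA β q ζ s x) (AAt β q ζ t x) (Ici t) t := by
  have h := DI_time (β := β) (κ := 1) (a := q) (b := 1) (by simp) (u := fun _ x => Real.tanh x)
    (fun t _ x => abs_tanh_le_one x) hζ.compl.meas hζ.compl.abs_le
    (fun t _ => hζ.compl.rc t) (continuous_KA β) (continuous_KA1 β) (continuous_KA2 β)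
    (KA_abs_le β) (KA1_abs_le β) (KA2_abs_le β) (KA_diag β)
    (fun r t x h _ => KA_time hβ x h) ht x
  have h1 : HasDerivAt (fun s => β ^ 2 * (1 - s) + lc x) (-(β ^ 2)) t := by
    have := ((hasDerivAt_id t).const_sub 1).const_mul (β ^ 2) |>.add_const (lc x)
    simpa using this
  exact h1.hasDerivWithinAt.sub (h.const_mul _)

lemma AA_eq (t x : ℝ) : AAt β q ζ t x + β ^ 2 * AA2 β q ζ t x +
    2 * β ^ 2 * 1 * Real.tanh x * AA1 β q ζ t x = β ^ 2 * (2 * 1 - ζ t) * Real.tanh x ^ 2 := by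
  unfold AAt AA2 AA1
  rw [KA_self]
  have h := tanh_sq x
  have h2 : sech x ^ 2 = 1 - Real.tanh x ^ 2 := by linarith
  rw [h2]; ring

lemma DI_end {a b : ℝ} {c : ℝ → ℝ} {K : ℝ → ℝ → ℝ → ℝ} (x : ℝ) : DI a b c K b x = 0 := by
  unfold DI
  rw [setIntegral_eq_zero_of_forall_eq_zero]
  intro r hr
  rw [if_neg (not_lt.2 hr.2)]

lemma AA_le (hζ : Wt ζ) (hq : q ≤ 1) (hq0 : 0 ≤ q) {t : ℝ} (ht : t ∈ Icc 0 1) (x : ℝ) :
    AA β q ζ t x ≤ 10 * β ^ 2 + |x| := by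
  have h := abs_le.1 (DI_abs_le hq hζ.compl.abs_le (KA_abs_le β) (c := fun r => 1 - ζ r) t x)
  unfold AA
  have h2 := lc_le x
  have h3 : -(β ^ 2 * DI q 1 (fun r => 1 - ζ r) (KA β) t x) ≤ β ^ 2 * 8 := by
    rw [← mul_neg]
    apply mul_le_mul_of_nonneg_left _ (sq_nonneg β)
    nlinarith [h.1]
  have h4 : β ^ 2 * (1 - t) ≤ β ^ 2 := by nlinarith [ht.1, sq_nonneg β]
  nlinarith [sq_nonneg β]

theorem stageA (hβ : 0 < β) (hζ : Wt ζ) (hq0 : 0 ≤ q) (hq : q ≤ 1) (hf : Sol β ζ q 1 f f₁ f₂)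
    (hterm : ∀ x, f 1 x = lc x) :
    ∀ t ∈ Icc q 1, ∀ x w, AA β q ζ t x + Real.tanh x * w ≤ f t (x + w) := by
  refine stage (κ := 1) zero_le_one le_rfl (fun t _ => ⟨hζ.nonneg t, hζ.le_one t⟩) hf
    (u := fun _ x => Real.tanh x) (u₁ := fun _ x => sech x ^ 2)
    (u₂ := fun _ x => -(2 * (sech x ^ 2 * Real.tanh x)))
    (A₁ := AA1 β q ζ) (A₂ := AA2 β q ζ) (At := AAt β q ζ) ?_ ?_ ?_ ?_ ?_ ?_ ?_ ?_ ?_ ?_ ?_ ?_
  · exact (continuous_tanh.comp continuous_snd).continuousOn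
  · exact fun t _ x => abs_tanh_le_one x
  · exact fun t _ x => hasDerivAt_tanh x
  · exact fun t _ x => hasDerivAt_t1 x
  · intro t _ x
    refine (hasDerivWithinAt_const t (Ici t) (Real.tanh x)).congr_deriv ?_
    ring
  · exact (continuous_AA hζ).continuousOn
  · refine ⟨10 * β ^ 2 + 1, by positivity, fun t ht x => ?_⟩
    have h1 := AA_le (β := β) hζ hq hq0 ⟨hq0.trans ht.1, ht.2⟩ x
    have h5 : |x| ≤ (1 + x ^ 2) / 2 := by nlinarith [sq_abs x, sq_nonneg (|x| - 1)]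
    have h6 : 0 ≤ β ^ 2 * x ^ 2 := by positivity
    nlinarith [sq_nonneg x]
  · exact fun t _ x => AA_d1 hζ t x
  · exact fun t _ x => AA_d2 hζ t x
  · exact fun t ht x => AA_t hβ hζ ht x
  · exact fun t _ x => AA_eq t x
  · intro x w
    rw [hterm]
    unfold AA
    rw [DI_end]
    have := lc_tangent x w
    linarith

/-! ### Times smaller than `q` -/

lemma EG_AA (hζ : Wt ζ) (hq0 : 0 ≤ q) (hq : q ≤ 1) (t : ℝ) (ht : t ∈ Icc 0 1) :
    EG (AA β q ζ t) := by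
  refine ⟨(continuous_AA hζ).comp (by fun_prop : Continuous fun x : ℝ => (t, x)), ?_⟩
  refine ⟨10 * β ^ 2 + 1, 1, by positivity, zero_le_one, fun x => ?_⟩
  have h := abs_le.1 (DI_abs_le hq hζ.compl.abs_le (KA_abs_le β) (c := fun r => 1 - ζ r) t x)
  have h1 := AA_le (β := β) hζ hq hq0 ht x
  have h2 : -(10 * β ^ 2) ≤ AA β q ζ t x := by
    unfold AA
    have h3 := lc_nonneg x
    have h4 : β ^ 2 * DI q 1 (fun r => 1 - ζ r) (KA β) t x ≤ β ^ 2 * 8 := by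
      apply mul_le_mul_of_nonneg_left _ (sq_nonneg β)
      nlinarith [h.2]
    have h5 : 0 ≤ β ^ 2 * (1 - t) := mul_nonneg (sq_nonneg _) (by linarith [ht.2])
    nlinarith [sq_nonneg β]
  have h6 : |x| + 1 ≤ Real.exp (1 * |x|) := by rw [one_mul]; exact Real.add_one_le_exp _
  have h7 : 1 ≤ Real.exp (1 * |x|) := by linarith [abs_nonneg x]
  have h8 : |AA β q ζ t x| ≤ 10 * β ^ 2 + |x| := by
    rw [abs_le]; constructor <;> linarith [abs_nonneg x]
  have h9 : 10 * β ^ 2 * 1 ≤ 10 * β ^ 2 * Real.exp (1 * |x|) :=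
    mul_le_mul_of_nonneg_left h7 (by positivity)
  nlinarith

lemma EG_AA1 (hζ : Wt ζ) (hq : q ≤ 1) (t : ℝ) : EG (AA1 β q ζ t) := by
  refine EG.of_bounded ((continuous_AA1 hζ).comp (by fun_prop : Continuous fun x : ℝ => (t, x)))
    (1 + β ^ 2 * (8 * (1 - q))) fun x => ?_
  have h := DI_abs_le hq hζ.compl.abs_le (KA1_abs_le β) (c := fun r => 1 - ζ r) t x
  unfold AA1
  have h1 : |β ^ 2 * DI q 1 (fun r => 1 - ζ r) (KA1 β) t x| ≤ β ^ 2 * (8 * (1 - q)) := by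
    rw [abs_mul, abs_of_nonneg (sq_nonneg β)]
    exact mul_le_mul_of_nonneg_left h (sq_nonneg β)
  have h2 := abs_tanh_le_one x
  rw [abs_le] at h1 h2 ⊢
  constructor <;> linarith [h1.1, h1.2, h2.1, h2.2]

lemma EG_AA2 (hζ : Wt ζ) (hq : q ≤ 1) (t : ℝ) : EG (AA2 β q ζ t) := by
  refine EG.of_bounded ((continuous_AA2 hζ).comp (by fun_prop : Continuous fun x : ℝ => (t, x)))
    (1 + β ^ 2 * (8 * (1 - q))) fun x => ?_
  have h := DI_abs_le hq hζ.compl.abs_le (KA2_abs_le β) (c := fun r => 1 - ζ r) t x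
  unfold AA2
  have h1 : |β ^ 2 * DI q 1 (fun r => 1 - ζ r) (KA2 β) t x| ≤ β ^ 2 * (8 * (1 - q)) := by
    rw [abs_mul, abs_of_nonneg (sq_nonneg β)]
    exact mul_le_mul_of_nonneg_left h (sq_nonneg β)
  have h2 := sech_sq_abs_le x
  rw [abs_le] at h1 h2 ⊢
  constructor <;> linarith [h1.1, h1.2, h2.1, h2.2]

/-- the lower bound for times smaller than `q` -/
noncomputable def AB (β q : ℝ) (ζ : ℝ → ℝ) (t x : ℝ) : ℝ :=
  G (AA β q ζ q) x (2 * β ^ 2 * (q - t)) + β ^ 2 * DI 0 q ζ (KB β q) t x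

noncomputable def AB1 (β q : ℝ) (ζ : ℝ → ℝ) (t x : ℝ) : ℝ :=
  G (AA1 β q ζ q) x (2 * β ^ 2 * (q - t)) + β ^ 2 * DI 0 q ζ (KB1 β q) t x

noncomputable def AB2 (β q : ℝ) (ζ : ℝ → ℝ) (t x : ℝ) : ℝ :=
  G (AA2 β q ζ q) x (2 * β ^ 2 * (q - t)) + β ^ 2 * DI 0 q ζ (KB2 β q) t x

noncomputable def ABt (β q : ℝ) (ζ : ℝ → ℝ) (t x : ℝ) : ℝ :=
  -(β ^ 2 * G (AA2 β q ζ q) x (2 * β ^ 2 * (q - t))) + β ^ 2 *
    (-(β ^ 2 * DI 0 q ζ (KB2 β q) t x + 2 * β ^ 2 * 0 * U β q t x * DI 0 q ζ (KB1 β q) t x) -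
      ζ t * KB β q t t x)

lemma AB_eq (t x : ℝ) : ABt β q ζ t x + β ^ 2 * AB2 β q ζ t x +
    2 * β ^ 2 * 0 * U β q t x * AB1 β q ζ t x = β ^ 2 * (2 * 0 - ζ t) * U β q t x ^ 2 := by
  unfold ABt AB2 AB1
  rw [KB_self]; ring

lemma continuous_AB (hζ : Wt ζ) (hq0 : 0 ≤ q) (hq : q ≤ 1) :
    Continuous (fun p : ℝ × ℝ => AB β q ζ p.1 p.2) := by
  have h := DI_continuous (a := 0) (b := q) hζ.meas hζ.abs_le (continuous_KB β q) (KB_abs_le β q)
  have h1 := (EG_AA (β := β) hζ hq0 hq q ⟨hq0, hq⟩).continuous_G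
  have h2 : Continuous fun p : ℝ × ℝ => (p.2, 2 * β ^ 2 * (q - p.1)) := by fun_prop
  have h3 := h1.comp h2
  simp only [Function.comp_def] at h3
  unfold AB
  exact h3.add (continuous_const.mul h)

lemma AB_d1 (hζ : Wt ζ) (hq0 : 0 ≤ q) (hq : q ≤ 1) (t x : ℝ) :
    HasDerivAt (AB β q ζ t) (AB1 β q ζ t x) x := by
  have h := DI_hasDerivAt (a := 0) (b := q) hζ.meas hζ.abs_le (continuous_KB β q)
    (continuous_KB1 β q) (KB_abs_le β q) (KB1_abs_le β q) (KB_d1 β q) t x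
  exact (hasDerivAt_G (EG_AA hζ hq0 hq q ⟨hq0, hq⟩) (EG_AA1 hζ hq q) (AA_d1 hζ q) x _).add
    (h.const_mul _)

lemma AB_d2 (hζ : Wt ζ) (hq : q ≤ 1) (t x : ℝ) :
    HasDerivAt (AB1 β q ζ t) (AB2 β q ζ t x) x := by
  have h := DI_hasDerivAt (a := 0) (b := q) hζ.meas hζ.abs_le (continuous_KB1 β q)
    (continuous_KB2 β q) (KB1_abs_le β q) (KB2_abs_le β q) (KB_d2 β q) t x
  exact (hasDerivAt_G (EG_AA1 hζ hq q) (EG_AA2 hζ hq q) (AA_d2 hζ q) x _).add
    (h.const_mul _)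

lemma AB_t (hβ : 0 < β) (hζ : Wt ζ) (hq0 : 0 ≤ q) (hq : q ≤ 1) {t : ℝ} (ht : t ∈ Ico 0 q) (x : ℝ) :
    HasDerivWithinAt (fun s => AB β q ζ s x) (ABt β q ζ t x) (Ici t) t := by
  have h := DI_time (β := β) (κ := 0) (a := 0) (b := q) (by simp) (u := U β q)
    (fun t _ x => U_abs_le β q t x) hζ.meas hζ.abs_le
    (fun t _ => hζ.rc t) (continuous_KB β q) (continuous_KB1 β q) (continuous_KB2 β q)
    (KB_abs_le β q) (KB1_abs_le β q) (KB2_abs_le β q) (KB_diag β q)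
    (fun r t x h _ => KB_time hβ x h) ht x
  have h1 := hasDerivAt_G_time hβ (EG_AA (β := β) hζ hq0 hq q ⟨hq0, hq⟩) (EG_AA1 hζ hq q)
    (EG_AA2 hζ hq q) (AA_d1 hζ q) (AA_d2 hζ q) x ht.2
  exact h1.hasDerivWithinAt.add (h.const_mul _)

lemma G_sq_le (x : ℝ) {v : ℝ} (hv : 0 ≤ v) :
    G (fun y => y ^ 2) x v ≤ 2 * x ^ 2 + 2 * v * ∫ z, z ^ 2 ∂γ := by
  have hE : EG (fun y : ℝ => y ^ 2) := by simpa [sq] using EG.id.mul EG.id
  have h1 : ∀ z, (x + √v * z) ^ 2 ≤ 2 * x ^ 2 + 2 * v * z ^ 2 := by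
    intro z
    have := Real.mul_self_sqrt hv
    nlinarith [sq_nonneg (x - √v * z)]
  have h2 : Integrable (fun z : ℝ => 2 * x ^ 2 + 2 * v * z ^ 2) γ :=
    ((EG.const (2 * x ^ 2)).add (hE.const_mul (2 * v))).integrable
  calc G (fun y => y ^ 2) x v ≤ ∫ z, (2 * x ^ 2 + 2 * v * z ^ 2) ∂γ :=
        integral_mono (hE.integrable_shift x v) h2 h1
    _ = _ := by
        rw [integral_add (integrable_const _) ((hE.const_mul (2 * v)).integrable)]
        congr 1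
        · simp
        · rw [integral_const_mul]

theorem stageB (hβ : 0 < β) (hζ : Wt ζ) (hq0 : 0 ≤ q) (hq : q ≤ 1) (hf : Sol β ζ 0 1 f f₁ f₂)
    (hterm : ∀ x, f 1 x = lc x) :
    ∀ t ∈ Icc 0 q, ∀ x w, AB β q ζ t x + U β q t x * w ≤ f t (x + w) := by
  refine stage (κ := 0) le_rfl zero_le_one (fun t _ => ⟨hζ.nonneg t, hζ.le_one t⟩)
    (hf.mono le_rfl hq)
    (u := U β q) (u₁ := U1 β q) (u₂ := U2 β q)
    (A₁ := AB1 β q ζ) (A₂ := AB2 β q ζ) (At := ABt β q ζ) ?_ ?_ ?_ ?_ ?_ ?_ ?_ ?_ ?_ ?_ ?_ ?_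
  · exact (EGF_U β q).cont.continuousOn
  · exact fun t _ x => U_abs_le β q t x
  · exact fun t _ x => U_d1 β q t x
  · exact fun t _ x => U_d2 β q t x
  · intro t ht x
    have := hasDerivAt_G_time hβ EG_tanh (EG_sech_pow 2) EG_t2 hasDerivAt_tanh hasDerivAt_t1 x ht.2
    refine (this.congr_deriv ?_).hasDerivWithinAt
    unfold U2; ring
  · exact (continuous_AB hζ hq0 hq).continuousOn
  · refine ⟨18 * β ^ 2 + 1 + 2 + 4 * β ^ 2 * ∫ z, z ^ 2 ∂γ, ?_, fun t ht x => ?_⟩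
    · have : 0 ≤ ∫ z : ℝ, z ^ 2 ∂γ := integral_nonneg fun z => sq_nonneg z
      positivity
    · have hM : 0 ≤ ∫ z : ℝ, z ^ 2 ∂γ := integral_nonneg fun z => sq_nonneg z
      have hE : EG (fun y : ℝ => y ^ 2) := by simpa [sq] using EG.id.mul EG.id
      have hv : 0 ≤ 2 * β ^ 2 * (q - t) := mul_nonneg (by positivity) (by linarith [ht.2])
      have hv2 : 2 * β ^ 2 * (q - t) ≤ 2 * β ^ 2 := by nlinarith [ht.1, sq_nonneg β]
      have h1 : G (AA β q ζ q) x (2 * β ^ 2 * (q - t)) ≤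
          (10 * β ^ 2 + 1) + G (fun y => y ^ 2) x (2 * β ^ 2 * (q - t)) := by
        have := G_mono (EG_AA (β := β) hζ hq0 hq q ⟨hq0, hq⟩)
          ((EG.const (10 * β ^ 2 + 1)).add hE) (fun y => ?_) x (2 * β ^ 2 * (q - t))
        · rwa [G_add (EG.const _) hE, G_const] at this
        · have h1 := AA_le (β := β) hζ hq hq0 ⟨hq0, hq⟩ y
          have h5 : |y| ≤ (1 + y ^ 2) / 2 := by nlinarith [sq_abs y, sq_nonneg (|y| - 1)]
          nlinarith [sq_nonneg y]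
      have h2 := G_sq_le x hv
      have h3 := abs_le.1 (DI_abs_le (a := 0) (b := q) hq0 hζ.abs_le (KB_abs_le β q) t x)
      have h4 : β ^ 2 * DI 0 q ζ (KB β q) t x ≤ β ^ 2 * 8 := by
        apply mul_le_mul_of_nonneg_left _ (sq_nonneg β)
        nlinarith [h3.2]
      have h5 : 2 * (2 * β ^ 2 * (q - t)) * ∫ z : ℝ, z ^ 2 ∂γ ≤ 4 * β ^ 2 * ∫ z : ℝ, z ^ 2 ∂γ := by
        apply mul_le_mul_of_nonneg_right _ hM; linarith
      unfold AB
      have h6 : 0 ≤ β ^ 2 * x ^ 2 := by positivity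
      have h7 : 0 ≤ (4 * β ^ 2 * ∫ z : ℝ, z ^ 2 ∂γ) * x ^ 2 := by positivity
      nlinarith [sq_nonneg x]
  · exact fun t _ x => AB_d1 hζ hq0 hq t x
  · exact fun t _ x => AB_d2 hζ hq t x
  · exact fun t ht x => AB_t hβ hζ hq0 hq ht x
  · exact fun t _ x => AB_eq t x
  · intro x w
    have := stageA hβ hζ hq0 hq (hf.mono hq0 le_rfl) hterm q ⟨le_rfl, hq⟩ x w
    unfold AB U
    rw [DI_end, sub_self, mul_zero, G_zero, G_zero]
    linarith

/-- the overlap function `Γ` -/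
noncomputable def Gam (β q h r : ℝ) : ℝ :=
  if r ≤ q then G (Q0 β q r) h (2 * β ^ 2 * r) else 1 - ph (2 * β ^ 2 * (r - q)) h (2 * β ^ 2 * q)

/-- **The lower bound** at the origin. -/
theorem lower_bound (hβ : 0 < β) (hζ : Wt ζ) (hq0 : 0 ≤ q) (hq : q ≤ 1)
    (hf : Sol β ζ 0 1 f f₁ f₂) (hterm : ∀ x, f 1 x = lc x) (h : ℝ) :
    β ^ 2 * (1 - q) + G lc h (2 * β ^ 2 * q) + β ^ 2 * (∫ r in Ioc 0 q, ζ r * Gam β q h r) -
      β ^ 2 * (∫ r in Ioc q 1, (1 - ζ r) * Gam β q h r) ≤ f 0 h := by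
  have h1 := stageB hβ hζ hq0 hq hf hterm 0 ⟨le_rfl, hq0⟩ h 0
  rw [mul_zero, add_zero, add_zero] at h1
  refine le_trans (le_of_eq ?_) h1
  unfold AB
  rw [sub_zero]
  have e1 : DI 0 q ζ (KB β q) 0 h = ∫ r in Ioc 0 q, ζ r * Gam β q h r := by
    unfold DI
    refine setIntegral_congr_fun measurableSet_Ioc fun r hr => ?_
    simp only [if_pos hr.1]
    rw [Gam, if_pos hr.2, KB, sub_zero]
  have e2 : G (AA β q ζ q) h (2 * β ^ 2 * q) = β ^ 2 * (1 - q) + G lc h (2 * β ^ 2 * q) -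
      β ^ 2 * (∫ r in Ioc q 1, (1 - ζ r) * Gam β q h r) := by
    set v := 2 * β ^ 2 * q with hv
    have hDIEG : EG (DI q 1 (fun r => 1 - ζ r) (KA β) q) := by
      refine EG.of_bounded ((DI_continuous (a := q) (b := 1) hζ.compl.meas hζ.compl.abs_le
        (continuous_KA β) (KA_abs_le β)).comp (by fun_prop : Continuous fun x : ℝ => (q, x)))
        (8 * (1 - q)) fun x => DI_abs_le hq hζ.compl.abs_le (KA_abs_le β) q x
    have e3 : G (AA β q ζ q) h v = β ^ 2 * (1 - q) + G lc h v -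
        β ^ 2 * G (DI q 1 (fun r => 1 - ζ r) (KA β) q) h v := by
      have : AA β q ζ q = fun y => (β ^ 2 * (1 - q) + lc y) -
          β ^ 2 * DI q 1 (fun r => 1 - ζ r) (KA β) q y := rfl
      rw [this, G_sub ((EG.const _).add EG_lc) (hDIEG.const_mul _), G_add (EG.const _) EG_lc,
        G_const, G_const_mul]
    rw [e3]
    congr 2
    -- Fubini
    unfold G DI
    rw [integral_integral_swap]
    · refine setIntegral_congr_fun measurableSet_Ioc fun r hr => ?_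
      simp only [if_pos hr.1]
      rw [integral_const_mul, Gam, if_neg (not_le.2 hr.1)]
      congr 1
      unfold KA
      rw [tc_of_lt hr.1.le]
      have : EG (SS (2 * β ^ 2 * (r - q))) :=
        EG.of_bounded (continuous_SS.comp (by fun_prop : Continuous fun x : ℝ =>
          (2 * β ^ 2 * (r - q), x))) 1 fun x => SS_abs_le (mul_nonneg (by positivity)
            (sub_nonneg.2 hr.1.le)) x
      have h5 := G_sub (EG.const 1) this h v
      rw [G_const] at h5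
      unfold ph
      exact h5
    · refine Integrable.of_bound (C := 8) ?_ ?_
      · have hm : Measurable (fun p : ℝ × ℝ => (if q < p.2 then (1 - ζ p.2) *
            KA β p.2 q (h + √v * p.1) else 0 : ℝ)) := by
          refine Measurable.ite (measurableSet_lt measurable_const measurable_snd) ?_
            measurable_const
          refine (hζ.compl.meas.comp measurable_snd).mul ?_
          exact ((continuous_KA β).comp (by fun_prop : Continuous fun p : ℝ × ℝ =>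
            (p.2, q, h + √v * p.1))).measurable
        exact hm.aestronglyMeasurable
      · exact Eventually.of_forall fun p =>
          DI_bd (c := fun r => 1 - ζ r) hζ.compl.abs_le (KA_abs_le β) q (h + √v * p.1) p.2
  rw [e1, e2]; ring

end Pool.Agent.K7.H96.AT
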