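import Mathlib

set_option autoImplicit false

/-!
# A maximum principle for degenerate parabolic operators with right derivatives in time
-/

open Set Filter Topology

namespace Pool.Agent.K7.H96.AT

/-- necessary second order condition at a global minimum -/
lemma second_deriv_nonneg {f f' : ℝ → ℝ} {f'' x₀ : ℝ} (hf : ∀ x, HasDerivAt f (f' x) x)
    (hf' : HasDerivAt f' f'' x₀) (hmin : ∀ x, f x₀ ≤ f x) : 0 ≤ f'' := by
  have h0 : f' x₀ = 0 :=
    (show IsLocalMin f x₀ from Eventually.of_forall hmin).hasDerivAt_eq_zero (hf x₀)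
  by_contra hcon
  push Not at hcon
  have h1 : ∀ᶠ x in 𝓝[>] x₀, slope f' x₀ x < 0 := by
    have := (hasDerivAt_iff_tendsto_slope.1 hf').mono_left
      (nhdsWithin_mono x₀ (fun x hx => (ne_of_gt hx : x ≠ x₀)))
    exact this.eventually (eventually_lt_nhds hcon)
  obtain ⟨u, hu, hu2⟩ := (mem_nhdsGT_iff_exists_Ioo_subset' (show x₀ < x₀ + 1 by linarith)).1 h1
  rw [mem_Ioi] at hu
  obtain ⟨ξ, hξ, hξ2⟩ := exists_hasDerivAt_eq_slope f f' (show x₀ < (x₀ + u) / 2 by linarith)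
    (fun x _ => (hf x).continuousAt.continuousWithinAt) (fun x _ => hf x)
  have h2 : slope f' x₀ ξ < 0 := hu2 ⟨hξ.1, by linarith [hξ.2]⟩
  rw [slope_def_field, h0, sub_zero] at h2
  have h3 : 0 < ξ - x₀ := by linarith [hξ.1]
  have h4 : f' ξ < 0 := by
    by_contra h5
    push Not at h5
    have := div_nonneg h5 h3.le
    linarith
  rw [hξ2] at h4
  have h5 : 0 ≤ (f ((x₀ + u) / 2) - f x₀) / ((x₀ + u) / 2 - x₀) :=
    div_nonneg (by linarith [hmin ((x₀ + u) / 2)]) (by linarith)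
  linarith

lemma cube_le (x : ℝ) : |x| ^ 3 ≤ 1 + x ^ 4 := by
  have h : x ^ 4 = |x| ^ 4 := by
    rw [← abs_pow, abs_of_nonneg (by positivity)]
  rw [h]
  have h0 := abs_nonneg x
  rcases le_total |x| 1 with h1 | h1
  · have : |x| ^ 3 ≤ 1 := pow_le_one₀ h0 h1
    linarith [pow_nonneg h0 4]
  · have : |x| ^ 3 ≤ |x| ^ 4 := pow_le_pow_right₀ h1 (by norm_num)
    linarith

/-- **Maximum principle**, in one diffusive variable `x` and one transported variable `w`. -/
theorem max_principle {a b c K : ℝ} (hc : 0 ≤ c) (hK : 0 ≤ K) {D : ℝ → ℝ → ℝ → ℝ}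
    (hcont : ContinuousOn (fun q : ℝ × ℝ × ℝ => D q.1 q.2.1 q.2.2) (Icc a b ×ˢ univ))
    (hgrow : ∃ C : ℝ, 0 ≤ C ∧ ∀ t ∈ Icc a b, ∀ x w, -(C * (1 + x ^ 2 + w ^ 2)) ≤ D t x w)
    (hterm : ∀ x w, 0 ≤ D b x w)
    {Dt Dx Dxx Dw p r : ℝ → ℝ → ℝ → ℝ}
    (hDt : ∀ t ∈ Ico a b, ∀ x w, HasDerivWithinAt (fun t => D t x w) (Dt t x w) (Ici t) t)
    (hDx : ∀ t ∈ Ico a b, ∀ x w, HasDerivAt (fun x => D t x w) (Dx t x w) x)
    (hDxx : ∀ t ∈ Ico a b, ∀ x w, HasDerivAt (fun x => Dx t x w) (Dxx t x w) x)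
    (hDw : ∀ t ∈ Ico a b, ∀ x w, HasDerivAt (fun w => D t x w) (Dw t x w) w)
    (hp : ∀ t ∈ Ico a b, ∀ x w, |p t x w| ≤ K) (hr : ∀ t ∈ Ico a b, ∀ x w, |r t x w| ≤ K)
    (hL : ∀ t ∈ Ico a b, ∀ x w,
      Dt t x w + c * Dxx t x w + p t x w * Dx t x w + r t x w * Dw t x w ≤ 0) :
    ∀ t ∈ Icc a b, ∀ x w, 0 ≤ D t x w := by
  by_contra hneg
  push Not at hneg
  obtain ⟨t₀, ht₀, x₀, w₀, hD₀⟩ := hneg
  set lam := 6 * c + 8 * K + 1 with hlam
  have hlam0 : 0 < lam := by positivity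
  set B : ℝ → ℝ → ℝ := fun x w => 1 + x ^ 4 + w ^ 4 with hB
  have hBpos : ∀ x w, 1 ≤ B x w := fun x w => by simp only [hB]; nlinarith [sq_nonneg (x ^ 2), sq_nonneg (w ^ 2)]
  obtain ⟨ε, hε, hε2⟩ : ∃ ε : ℝ, 0 < ε ∧ D t₀ x₀ w₀ + ε * (Real.exp (lam * (b - t₀)) * B x₀ w₀) < 0 := by
    have hM : 0 < Real.exp (lam * (b - t₀)) * B x₀ w₀ :=
      mul_pos (Real.exp_pos _) (lt_of_lt_of_le one_pos (hBpos _ _))
    refine ⟨-D t₀ x₀ w₀ / 2 / (Real.exp (lam * (b - t₀)) * B x₀ w₀),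
      div_pos (by linarith) hM, ?_⟩
    rw [div_mul_cancel₀ _ hM.ne']; linarith
  set E : ℝ → ℝ → ℝ → ℝ := fun t x w => D t x w + ε * (Real.exp (lam * (b - t)) * B x w) with hE
  obtain ⟨C, hC, hgrow⟩ := hgrow
  -- the compact set
  set S : Set (ℝ × ℝ × ℝ) := {q | q ∈ Icc a b ×ˢ univ ∧ E q.1 q.2.1 q.2.2 ≤ 0} with hS
  have hEcont : ContinuousOn (fun q : ℝ × ℝ × ℝ => E q.1 q.2.1 q.2.2) (Icc a b ×ˢ univ) := by
    refine hcont.add (Continuous.continuousOn ?_)
    simp only [hB]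
    fun_prop
  have hclosedU : IsClosed (Icc a b ×ˢ (univ : Set (ℝ × ℝ))) := isClosed_Icc.prod isClosed_univ
  have hSclosed : IsClosed S := by
    have := hEcont.preimage_isClosed_of_isClosed hclosedU (isClosed_Iic (a := (0 : ℝ)))
    exact this
  set R : ℝ := 1 + (3 * C + 1) / ε + 1 with hR
  have hSbdd : S ⊆ Icc a b ×ˢ (Icc (-R) R ×ˢ Icc (-R) R) := by
    rintro ⟨t, x, w⟩ ⟨hq1, hq2⟩
    have ht : t ∈ Icc a b := hq1.1
    simp only at hq2
    have h1 := hgrow t ht x w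
    have h2 : 1 ≤ Real.exp (lam * (b - t)) := by
      apply Real.one_le_exp
      exact mul_nonneg hlam0.le (by linarith [ht.2])
    have h3 : ε * B x w ≤ C * (1 + x ^ 2 + w ^ 2) := by
      have h4 : ε * B x w ≤ ε * (Real.exp (lam * (b - t)) * B x w) := by
        apply mul_le_mul_of_nonneg_left _ hε.le
        exact le_mul_of_one_le_left (by linarith [hBpos x w]) h2
      simp only [hE] at hq2
      linarith
    have hR1 : 1 ≤ R := by
      have : 0 ≤ (3 * C + 1) / ε := by positivity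
      rw [hR]; linarith
    have hRε : 3 * C < ε * (R ^ 2) := by
      have : (3 * C + 1) / ε ≤ R := by rw [hR]; linarith
      rw [div_le_iff₀ hε] at this
      nlinarith
    have key : ∀ y z : ℝ, ε * (1 + y ^ 4 + z ^ 4) ≤ C * (1 + y ^ 2 + z ^ 2) → |y| ≤ R := by
      intro y z hyz
      by_contra hcon
      push Not at hcon
      have hy2 : R ^ 2 < y ^ 2 := by
        rw [← sq_abs y]; exact pow_lt_pow_left₀ hcon (by linarith) two_ne_zero
      have hR2 : 1 ≤ R ^ 2 := one_le_pow₀ hR1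
      -- maximum of the squares
      rcases le_total (z ^ 2) (y ^ 2) with h | h
      · have e1 : C * (1 + y ^ 2 + z ^ 2) ≤ 3 * C * y ^ 2 := by nlinarith
        have e2 : ε * y ^ 4 ≤ 3 * C * y ^ 2 := by
          have : ε * y ^ 4 ≤ ε * (1 + y ^ 4 + z ^ 4) := by
            apply mul_le_mul_of_nonneg_left _ hε.le; nlinarith [sq_nonneg (z ^ 2)]
          linarith
        have e3 : y ^ 2 * (ε * y ^ 2 - 3 * C) ≤ 0 := by nlinarith
        have e4 : 0 < ε * y ^ 2 - 3 * C := by nlinarith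
        nlinarith
      · have e1 : C * (1 + y ^ 2 + z ^ 2) ≤ 3 * C * z ^ 2 := by nlinarith
        have e2 : ε * z ^ 4 ≤ 3 * C * z ^ 2 := by
          have : ε * z ^ 4 ≤ ε * (1 + y ^ 4 + z ^ 4) := by
            apply mul_le_mul_of_nonneg_left _ hε.le; nlinarith [sq_nonneg (y ^ 2)]
          linarith
        have e3 : z ^ 2 * (ε * z ^ 2 - 3 * C) ≤ 0 := by nlinarith
        have e4 : 0 < ε * z ^ 2 - 3 * C := by nlinarith
        nlinarith
    refine ⟨ht, abs_le.1 (key x w h3), abs_le.1 (key w x ?_)⟩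
    simp only [hB] at h3
    linarith
  have hScomp : IsCompact S :=
    (isCompact_Icc.prod (isCompact_Icc.prod isCompact_Icc)).of_isClosed_subset hSclosed hSbdd
  have hSne : S.Nonempty := ⟨(t₀, x₀, w₀), ⟨ht₀, mem_univ _⟩, hε2.le⟩
  obtain ⟨⟨t, x, w⟩, ⟨⟨ht, -⟩, hq⟩, hmax⟩ := hScomp.exists_isMaxOn hSne continuous_fst.continuousOn
  simp only at ht hq
  have hmax' : ∀ t' x' w', t' ∈ Icc a b → t < t' → 0 < E t' x' w' := by
    intro t' x' w' ht' htt'
    by_contra hcon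
    push Not at hcon
    have := hmax (a := (t', x', w')) ⟨⟨ht', mem_univ _⟩, hcon⟩
    simp only [mem_ofPred_eq] at this
    linarith
  have htb : t < b := by
    rcases ht.2.eq_or_lt with h | h
    · exfalso
      rw [h] at hq
      simp only [hE] at hq
      have := hterm x w
      have h2 : 0 < ε * (Real.exp (lam * (b - b)) * B x w) :=
        mul_pos hε (mul_pos (Real.exp_pos _) (lt_of_lt_of_le one_pos (hBpos _ _)))
      linarith
    · exact h
  have htI : t ∈ Ico a b := ⟨ht.1, htb⟩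
  -- nonnegativity at time `t`
  have hEge : ∀ x' w', 0 ≤ E t x' w' := by
    intro x' w'
    have h1 : ContinuousWithinAt (fun t' => E t' x' w') (Icc a b) t := by
      have h2 : ContinuousWithinAt (fun q : ℝ × ℝ × ℝ => E q.1 q.2.1 q.2.2) (Icc a b ×ˢ univ)
          (t, x', w') := hEcont (t, x', w') ⟨ht, mem_univ _⟩
      exact h2.comp (f := fun t' : ℝ => (t', x', w'))
        (by fun_prop : Continuous fun t' : ℝ => (t', x', w')).continuousWithinAt
        (fun t' ht' => ⟨ht', mem_univ _⟩)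
    have h3 : Tendsto (fun t' => E t' x' w') (𝓝[>] t) (𝓝 (E t x' w')) := by
      refine (h1.mono_left ?_)
      rw [← nhdsWithin_Ioc_eq_nhdsGT htb]
      exact nhdsWithin_mono t fun y hy => ⟨ht.1.trans hy.1.le, hy.2⟩
    refine ge_of_tendsto h3 ?_
    filter_upwards [Ioc_mem_nhdsGT htb] with t' ht'
    exact (hmax' t' x' w' ⟨ht.1.trans ht'.1.le, ht'.2⟩ ht'.1).le
  have hE0 : E t x w = 0 := le_antisymm hq (hEge x w)
  -- derivatives of `E`
  set e := Real.exp (lam * (b - t)) with he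
  have he0 : 0 < e := Real.exp_pos _
  have dEt : HasDerivWithinAt (fun t => E t x w) (Dt t x w + ε * (e * (-lam) * B x w)) (Ici t) t := by
    have h1 : HasDerivAt (fun t : ℝ => Real.exp (lam * (b - t))) (e * (-lam)) t := by
      have : HasDerivAt (fun t : ℝ => lam * (b - t)) (-lam) t := by
        have := ((hasDerivAt_id t).const_sub b).const_mul lam
        simpa using this
      exact this.exp
    exact (hDt t htI x w).add ((h1.mul_const (B x w)).const_mul ε).hasDerivWithinAt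
  have dBx : ∀ x', HasDerivAt (fun x => B x w) (4 * x' ^ 3) x' := by
    intro x'
    have := ((hasDerivAt_pow 4 x').const_add 1).add_const (w ^ 4)
    refine this.congr_deriv ?_
    norm_num
  have dBxx : ∀ x', HasDerivAt (fun x : ℝ => 4 * x ^ 3) (12 * x' ^ 2) x' := by
    intro x'
    have := (hasDerivAt_pow 3 x').const_mul 4
    refine this.congr_deriv ?_
    norm_num; ring
  have dBw : HasDerivAt (fun w => B x w) (4 * w ^ 3) w := by
    have := ((hasDerivAt_pow 4 w).const_add (1 + x ^ 4))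
    refine this.congr_deriv ?_
    norm_num
  have dEx : ∀ x', HasDerivAt (fun x => E t x w) (Dx t x' w + ε * (e * (4 * x' ^ 3))) x' := fun x' =>
    (hDx t htI x' w).add (((dBx x').const_mul e).const_mul ε)
  have dExx : HasDerivAt (fun x' => Dx t x' w + ε * (e * (4 * x' ^ 3)))
      (Dxx t x w + ε * (e * (12 * x ^ 2))) x :=
    (hDxx t htI x w).add (((dBxx x).const_mul e).const_mul ε)
  have dEw : HasDerivAt (fun w => E t x w) (Dw t x w + ε * (e * (4 * w ^ 3))) w :=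
    (hDw t htI x w).add ((dBw.const_mul e).const_mul ε)
  -- signs
  have s1 : Dx t x w + ε * (e * (4 * x ^ 3)) = 0 :=
    (show IsLocalMin (fun x => E t x w) x from Eventually.of_forall fun x' => by
      simp only; rw [hE0]; exact hEge x' w).hasDerivAt_eq_zero (dEx x)
  have s2 : Dw t x w + ε * (e * (4 * w ^ 3)) = 0 :=
    (show IsLocalMin (fun w => E t x w) w from Eventually.of_forall fun w' => by
      simp only; rw [hE0]; exact hEge x w').hasDerivAt_eq_zero dEw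
  have s3 : 0 ≤ Dxx t x w + ε * (e * (12 * x ^ 2)) :=
    second_deriv_nonneg dEx dExx fun x' => by rw [hE0]; exact hEge x' w
  have s4 : 0 ≤ Dt t x w + ε * (e * (-lam) * B x w) := by
    have h1 := hasDerivWithinAt_iff_tendsto_slope.1 dEt
    have h2 : Ici t \ {t} = Ioi t := by
      ext y; simp only [Set.mem_sdiff, mem_Ici, mem_singleton_iff, mem_Ioi]
      constructor
      · rintro ⟨h, h'⟩; exact lt_of_le_of_ne h (Ne.symm h')
      · intro h; exact ⟨h.le, h.ne'⟩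
    rw [h2] at h1
    refine ge_of_tendsto h1 ?_
    filter_upwards [Ioc_mem_nhdsGT htb] with t' ht'
    rw [slope_def_field, hE0, sub_zero]
    exact div_nonneg (hmax' t' x w ⟨ht.1.trans ht'.1.le, ht'.2⟩ ht'.1).le (by linarith [ht'.1])
  have hL' := hL t htI x w
  have hp' := abs_le.1 (hp t htI x w)
  have hr' := abs_le.1 (hr t htI x w)
  set P := p t x w
  set Q := r t x w
  -- combine
  have hx3 : P * (4 * x ^ 3) ≤ 4 * K * (1 + x ^ 4) := by
    have h1 : |P * (4 * x ^ 3)| ≤ K * (4 * |x| ^ 3) := by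
      rw [abs_mul, abs_mul, abs_pow]
      have : |P| ≤ K := abs_le.2 hp'
      have h4 : |(4 : ℝ)| = 4 := by norm_num
      rw [h4]
      exact mul_le_mul_of_nonneg_right this (by positivity)
    have h2 := cube_le x
    calc P * (4 * x ^ 3) ≤ |P * (4 * x ^ 3)| := le_abs_self _
      _ ≤ K * (4 * |x| ^ 3) := h1
      _ ≤ K * (4 * (1 + x ^ 4)) := by gcongr
      _ = _ := by ring
  have hw3 : Q * (4 * w ^ 3) ≤ 4 * K * (1 + w ^ 4) := by
    have h1 : |Q * (4 * w ^ 3)| ≤ K * (4 * |w| ^ 3) := by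
      rw [abs_mul, abs_mul, abs_pow]
      have : |Q| ≤ K := abs_le.2 hr'
      have h4 : |(4 : ℝ)| = 4 := by norm_num
      rw [h4]
      exact mul_le_mul_of_nonneg_right this (by positivity)
    have h2 := cube_le w
    calc Q * (4 * w ^ 3) ≤ |Q * (4 * w ^ 3)| := le_abs_self _
      _ ≤ K * (4 * |w| ^ 3) := h1
      _ ≤ K * (4 * (1 + w ^ 4)) := by gcongr
      _ = _ := by ring
  have hx2 : c * (12 * x ^ 2) ≤ 6 * c * (1 + x ^ 4) := by nlinarith [sq_nonneg (x ^ 2 - 1)]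
  have hfin : -lam * B x w + c * (12 * x ^ 2) + P * (4 * x ^ 3) + Q * (4 * w ^ 3) < 0 := by
    simp only [hB]
    have hx4 : 0 ≤ x ^ 4 := by positivity
    have hw4 : 0 ≤ w ^ 4 := by positivity
    have : lam * (1 + x ^ 4 + w ^ 4) = 6 * c * (1 + x ^ 4) + 6 * c * w ^ 4 + 4 * K * (1 + x ^ 4) +
        4 * K * (1 + w ^ 4) + 4 * K * w ^ 4 + 4 * K * x ^ 4 + (1 + x ^ 4 + w ^ 4) := by
      rw [hlam]; ring
    have h1 : 0 ≤ 6 * c * w ^ 4 := by positivity
    have h2 : 0 ≤ 4 * K * w ^ 4 := by positivity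
    have h3 : 0 ≤ 4 * K * x ^ 4 := by positivity
    linarith
  have htot : ε * e * (-lam * B x w + c * (12 * x ^ 2) + P * (4 * x ^ 3) + Q * (4 * w ^ 3)) < 0 :=
    mul_neg_of_pos_of_neg (mul_pos hε he0) hfin
  have hs1 : P * (Dx t x w + ε * (e * (4 * x ^ 3))) = 0 := by rw [s1, mul_zero]
  have hs2 : Q * (Dw t x w + ε * (e * (4 * w ^ 3))) = 0 := by rw [s2, mul_zero]
  have hs3 : 0 ≤ c * (Dxx t x w + ε * (e * (12 * x ^ 2))) := mul_nonneg hc s3
  nlinarith

end Pool.Agent.K7.H96.AT
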